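import Pool.Agent.MP_0f71ae_nt.R3Q.Defs

/-!
# [R3Q] Basic properties of the kernel of a function
-/

set_option linter.unusedSectionVars false

open Finset

namespace R3

variable {G : Type*} [AddCommGroup G] [Fintype G] [DecidableEq G]
variable (a : G → ℕ) (n : ℝ)

theorem mass_nonneg : 0 ≤ mass a := by
  unfold mass; positivity

theorem mass_ind (A : Finset G) : mass (ind A) = #A := by
  unfold mass ind
  simp

theorem mass_smooth (B : Finset G) : mass (smooth a B) = #B * mass a := by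
  unfold mass smooth
  push_cast
  rw [Finset.sum_comm]
  have : ∀ b ∈ B, ∑ w : G, (a (w + b) : ℝ) = ∑ w : G, (a w : ℝ) := by
    intro b _
    exact Fintype.sum_equiv (Equiv.addRight b) _ _ (fun w => by simp)
  rw [Finset.sum_congr rfl this]
  simp

theorem QX_nonneg (hn : 0 < n) (x y : G) : 0 ≤ QX a n x y := by
  unfold QX; positivity

theorem QX_comm (x y : G) : QX a n x y = QX a n y x := by
  unfold QX
  congr 1
  exact Finset.sum_congr rfl fun w _ => mul_comm _ _

theorem QX_add_right (x y t : G) : QX a n (x + t) (y + t) = QX a n x y := by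
  unfold QX
  congr 1
  refine Fintype.sum_equiv (Equiv.addRight t) _ _ (fun w => ?_)
  simp only [Equiv.coe_addRight]
  congr 3 <;> abel

theorem QX_le {R : ℝ} (hn : 0 < n) (hm : 0 < mass a)
    (hR : ∀ w, n * a w ≤ R * mass a) (x y : G) : QX a n x y ≤ R := by
  unfold QX
  have hR0 : 0 ≤ R := by
    have := hR x
    by_contra hneg
    push Not at hneg
    have h1 : R * mass a < 0 := mul_neg_of_neg_of_pos hneg hm
    have h2 : 0 ≤ n * (a x : ℝ) := by positivity
    linarith
  have hsum : ∑ w : G, (a (w + x) : ℝ) * a (w + y) ≤ ∑ w : G, (R * mass a / n) * a (w + y) := by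
    refine Finset.sum_le_sum fun w _ => ?_
    have : (a (w + x) : ℝ) ≤ R * mass a / n := by
      rw [le_div_iff₀ hn]
      linarith [hR (w + x)]
    gcongr
  have hshift : ∑ w : G, (a (w + y) : ℝ) = mass a := by
    unfold mass
    exact Fintype.sum_equiv (Equiv.addRight y) _ _ (fun w => by simp)
  rw [← Finset.mul_sum, hshift] at hsum
  calc n / mass a ^ 2 * ∑ w : G, (a (w + x) : ℝ) * a (w + y)
      ≤ n / mass a ^ 2 * (R * mass a / n * mass a) := by gcongr
    _ = R := by field_simp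

theorem QK_comm (S Y : Finset G) : QK a n S Y = QK a n Y S := by
  unfold QK
  rw [Finset.sum_comm, mul_comm (#S : ℝ)]
  congr 1
  refine Finset.sum_congr rfl fun y _ => Finset.sum_congr rfl fun x _ => QX_comm a n x y

theorem QK_nonneg (hn : 0 < n) (S Y : Finset G) : 0 ≤ QK a n S Y := by
  unfold QK
  apply div_nonneg _ (by positivity)
  exact Finset.sum_nonneg fun x _ => Finset.sum_nonneg fun y _ => QX_nonneg a n hn x y

theorem QK_le {R : ℝ} (hn : 0 < n) (hm : 0 < mass a) (hR : ∀ w, n * a w ≤ R * mass a)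
    (S Y : Finset G) : QK a n S Y ≤ R := by
  unfold QK
  have h0 : 0 ≤ R := le_trans (QX_nonneg a n hn 0 0) (QX_le a n hn hm hR 0 0)
  rcases S.eq_empty_or_nonempty with rfl | hS
  · simpa using h0
  rcases Y.eq_empty_or_nonempty with rfl | hY
  · simpa using h0
  have h1 : (0 : ℝ) < #S := by exact_mod_cast hS.card_pos
  have h2 : (0 : ℝ) < #Y := by exact_mod_cast hY.card_pos
  rw [div_le_iff₀ (by positivity)]
  calc ∑ x ∈ S, ∑ y ∈ Y, QX a n x y ≤ ∑ x ∈ S, ∑ y ∈ Y, R :=
        Finset.sum_le_sum fun x _ => Finset.sum_le_sum fun y _ => QX_le a n hn hm hR x y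
    _ = R * (#S * #Y) := by simp; ring

theorem QX_self_pos (hn : 0 < n) (hm : 0 < mass a) (x : G) : 0 < QX a n x x := by
  unfold QX
  have h1 : 0 < ∑ w : G, (a (w + x) : ℝ) * a (w + x) := by
    have hshift : ∑ w : G, (a (w + x) : ℝ) = mass a := by
      unfold mass
      exact Fintype.sum_equiv (Equiv.addRight x) _ _ (fun w => by simp)
    have hex : ∃ w : G, 0 < (a (w + x) : ℝ) := by
      by_contra hcon
      push Not at hcon
      have : ∑ w : G, (a (w + x) : ℝ) ≤ 0 := Finset.sum_nonpos fun w _ => hcon w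
      linarith
    obtain ⟨w, hw⟩ := hex
    exact Finset.sum_pos' (fun w _ => by positivity) ⟨w, mem_univ _, by positivity⟩
  positivity

theorem QK_self_pos (hn : 0 < n) (hm : 0 < mass a) (S : Finset G) (hS : S.Nonempty) :
    0 < QK a n S S := by
  unfold QK
  have h1 : (0 : ℝ) < #S := by exact_mod_cast hS.card_pos
  apply div_pos _ (by positivity)
  obtain ⟨x, hx⟩ := hS
  apply Finset.sum_pos' (fun x _ => Finset.sum_nonneg fun y _ => QX_nonneg a n hn x y)
  refine ⟨x, hx, ?_⟩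
  apply Finset.sum_pos' (fun y _ => QX_nonneg a n hn x y)
  exact ⟨x, hx, QX_self_pos a n hn hm x⟩

/-- the averaged function `qv S w = avg_{x ∈ S} a(w + x)` -/
noncomputable def qv (S : Finset G) (w : G) : ℝ := (∑ x ∈ S, (a (w + x) : ℝ)) / #S

/-- the inner product representation of `QK` -/
theorem QK_eq_inner (S Y : Finset G) :
    QK a n S Y = n / mass a ^ 2 * ∑ w : G, qv a S w * qv a Y w := by
  unfold QK QX qv
  simp_rw [← Finset.mul_sum]
  rw [mul_div_assoc]
  congr 1
  have : ∑ x ∈ S, ∑ y ∈ Y, ∑ w : G, (a (w + x) : ℝ) * a (w + y) =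
      ∑ w : G, (∑ x ∈ S, (a (w + x) : ℝ)) * (∑ y ∈ Y, (a (w + y) : ℝ)) := by
    simp_rw [Finset.sum_mul_sum]
    rw [Finset.sum_comm' (s := univ) (t := fun _ => S) (t' := S) (s' := fun _ => univ)
      (by simp)]
    refine Finset.sum_congr rfl fun x _ => ?_
    rw [Finset.sum_comm' (s := univ) (t := fun _ => Y) (t' := Y) (s' := fun _ => univ)
      (by simp)]
  rw [this, Finset.sum_div]
  refine Finset.sum_congr rfl fun w _ => ?_
  rw [div_mul_div_comm]

/-- Cauchy-Schwarz `K(S,Y)² ≤ K(S,S) K(Y,Y)` -/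
theorem QK_cs (S Y : Finset G) :
    QK a n S Y ^ 2 ≤ QK a n S S * QK a n Y Y := by
  rw [QK_eq_inner, QK_eq_inner, QK_eq_inner, mul_pow]
  have h := Finset.sum_mul_sq_le_sq_mul_sq (univ : Finset G) (qv a S) (qv a Y)
  calc (n / mass a ^ 2) ^ 2 * (∑ w : G, qv a S w * qv a Y w) ^ 2
      ≤ (n / mass a ^ 2) ^ 2 * ((∑ w : G, qv a S w ^ 2) * (∑ w : G, qv a Y w ^ 2)) := by
        gcongr
    _ = _ := by
        simp_rw [← sq]
        ring

/-- Cauchy-Schwarz for the difference `k_{S₁} - k_S` -/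
theorem QK_cs_sub (S₁ S Y : Finset G) :
    (QK a n S₁ Y - QK a n S Y) ^ 2 ≤
      (QK a n S₁ S₁ - 2 * QK a n S₁ S + QK a n S S) * QK a n Y Y := by
  simp only [QK_eq_inner]
  have h := Finset.sum_mul_sq_le_sq_mul_sq (univ : Finset G)
    (fun w => qv a S₁ w - qv a S w) (qv a Y)
  have e1 : ∑ w : G, (qv a S₁ w - qv a S w) * qv a Y w =
      (∑ w : G, qv a S₁ w * qv a Y w) - ∑ w : G, qv a S w * qv a Y w := by
    rw [← Finset.sum_sub_distrib]
    exact Finset.sum_congr rfl fun w _ => by ring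
  have e2 : ∑ w : G, (qv a S₁ w - qv a S w) ^ 2 =
      (∑ w : G, qv a S₁ w * qv a S₁ w) - 2 * (∑ w : G, qv a S₁ w * qv a S w) +
        ∑ w : G, qv a S w * qv a S w := by
    rw [Finset.mul_sum, ← Finset.sum_sub_distrib, ← Finset.sum_add_distrib]
    exact Finset.sum_congr rfl fun w _ => by ring
  have e3 : ∑ w : G, qv a Y w ^ 2 = ∑ w : G, qv a Y w * qv a Y w :=
    Finset.sum_congr rfl fun w _ => by ring
  rw [e1, e2, e3] at h
  calc (n / mass a ^ 2 * (∑ w : G, qv a S₁ w * qv a Y w) -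
        n / mass a ^ 2 * (∑ w : G, qv a S w * qv a Y w)) ^ 2
      = (n / mass a ^ 2) ^ 2 * ((∑ w : G, qv a S₁ w * qv a Y w) -
        ∑ w : G, qv a S w * qv a Y w) ^ 2 := by ring
    _ ≤ (n / mass a ^ 2) ^ 2 * (((∑ w : G, qv a S₁ w * qv a S₁ w) -
        2 * (∑ w : G, qv a S₁ w * qv a S w) +
        ∑ w : G, qv a S w * qv a S w) * ∑ w : G, qv a Y w * qv a Y w) := by gcongr
    _ = _ := by ring

/-- `|S||Y| K = ∑∑ X` (also for empty sets) -/
theorem card_mul_QK (S Y : Finset G) :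
    (#S * #Y : ℝ) * QK a n S Y = ∑ x ∈ S, ∑ y ∈ Y, QX a n x y := by
  unfold QK
  rcases S.eq_empty_or_nonempty with rfl | hS
  · simp
  rcases Y.eq_empty_or_nonempty with rfl | hY
  · simp
  have h1 : (0 : ℝ) < #S := by exact_mod_cast hS.card_pos
  have h2 : (0 : ℝ) < #Y := by exact_mod_cast hY.card_pos
  field_simp

theorem QPhi_zero (S Y : Finset G) (hS : S.Nonempty) (hY : Y.Nonempty) :
    QPhi a n S Y 0 = 1 := by
  unfold QPhi
  have h1 : (0 : ℝ) < #S := by exact_mod_cast hS.card_pos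
  have h2 : (0 : ℝ) < #Y := by exact_mod_cast hY.card_pos
  simp only [pow_zero, sum_const, nsmul_eq_mul, mul_one]
  field_simp

theorem QPhi_one (S Y : Finset G) : QPhi a n S Y 1 = QK a n S Y := by
  unfold QPhi QK; simp

theorem QPhi_nonneg (hn : 0 < n) (S Y : Finset G) (j : ℕ) : 0 ≤ QPhi a n S Y j := by
  unfold QPhi
  apply div_nonneg _ (by positivity)
  exact Finset.sum_nonneg fun x _ => Finset.sum_nonneg fun y _ =>
    pow_nonneg (QX_nonneg a n hn x y) j

/-- `K S Y` as the average over `Y` of `K S {y}` -/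
theorem QK_eq_avg_right (S Y : Finset G) :
    QK a n S Y = (∑ y ∈ Y, QK a n S {y}) / #Y := by
  rcases S.eq_empty_or_nonempty with rfl | hS
  · simp [QK]
  have h1 : (0 : ℝ) < #S := by exact_mod_cast hS.card_pos
  unfold QK
  simp only [sum_singleton, card_singleton, Nat.cast_one, mul_one]
  rw [← Finset.sum_div, Finset.sum_comm, div_div]

/-- for an indicator the new kernel is the old one -/
theorem QX_ind (A : Finset G) (x y : G) : QX (ind A) n x y = X A n x y := by
  unfold QX X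
  rw [mass_ind, cnt_eq_sum]
  congr 1
  refine Finset.sum_congr rfl fun w _ => ?_
  unfold ind
  push_cast
  rfl

theorem QK_ind (A : Finset G) (S Y : Finset G) : QK (ind A) n S Y = K A n S Y := by
  unfold QK K
  simp_rw [QX_ind]

/-- `K` of the smoothed function -/
theorem QK_smooth (B S Y : Finset G) (hB : B.Nonempty) :
    (#B : ℝ) ^ 2 * (#S * #Y) * QK (smooth a B) n S Y =
      ∑ b ∈ B, ∑ b' ∈ B, ∑ x ∈ S, ∑ y ∈ Y, QX a n (x + b) (y + b') := by
  have hB1 : (0 : ℝ) < #B := by exact_mod_cast hB.card_pos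
  rw [mul_assoc, card_mul_QK]
  have key : ∀ x y : G, (#B : ℝ) ^ 2 * QX (smooth a B) n x y =
      ∑ b ∈ B, ∑ b' ∈ B, QX a n (x + b) (y + b') := by
    intro x y
    unfold QX
    rw [mass_smooth]
    simp_rw [← Finset.mul_sum]
    have e : ∑ w : G, ((smooth a B (w + x) : ℕ) : ℝ) * (smooth a B (w + y) : ℕ) =
        ∑ b ∈ B, ∑ b' ∈ B, ∑ w : G, (a (w + (x + b)) : ℝ) * a (w + (y + b')) := by
      unfold smooth
      push_cast
      simp_rw [Finset.sum_mul_sum]
      rw [Finset.sum_comm]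
      refine Finset.sum_congr rfl fun b _ => ?_
      rw [Finset.sum_comm]
      refine Finset.sum_congr rfl fun b' _ => ?_
      refine Finset.sum_congr rfl fun w _ => ?_
      rw [add_assoc, add_assoc]
    rw [e]
    rcases eq_or_ne (mass a) 0 with h0 | h0
    · simp [h0]
    · field_simp
  rw [Finset.mul_sum]
  simp_rw [Finset.mul_sum, key]
  have s1 : ∑ x ∈ S, ∑ y ∈ Y, ∑ b ∈ B, ∑ b' ∈ B, QX a n (x + b) (y + b') =
      ∑ b ∈ B, ∑ x ∈ S, ∑ y ∈ Y, ∑ b' ∈ B, QX a n (x + b) (y + b') := by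
    rw [← Finset.sum_product', Finset.sum_comm' (s := S ×ˢ Y) (t := fun _ => B) (t' := B)
      (s' := fun _ => S ×ˢ Y) (by simp)]
    exact Finset.sum_congr rfl fun b _ => by rw [Finset.sum_product]
  rw [s1]
  refine Finset.sum_congr rfl fun b _ => ?_
  rw [← Finset.sum_product', Finset.sum_comm' (s := S ×ˢ Y) (t := fun _ => B) (t' := B)
    (s' := fun _ => S ×ˢ Y) (by simp)]
  exact Finset.sum_congr rfl fun b' _ => by rw [Finset.sum_product]

end R3
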