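import Pool.Agent.MP_0f71ae_nt.R3Q.Four
import Pool.Agent.MP_0f71ae_nt.R3.Weight
import Pool.Agent.MP_0f71ae_nt.R3.FreeCard
import Pool.Agent.MP_0f71ae_nt.R3.MaxFree

/-!
# [R3Q] section 5: relative Chang theorem with parameter `δ`, smoothing
-/

set_option linter.unusedSectionVars false

open Finset

namespace R3

variable {G : Type*} [AddCommGroup G] [Fintype G] [DecidableEq G]


private theorem qh1_zpow_close (ξ : AddChar G ℂ) (e : ℤ) (he : e = -1 ∨ e = 0 ∨ e = 1) (b : G) :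
    ‖(ξ ^ e) b - 1‖ ≤ ‖ξ b - 1‖ := by
  rcases he with rfl | rfl | rfl
  · rw [zpow_neg_one, AddChar.inv_apply]
    have h := norm_char_sub ξ 0 b
    rw [zero_sub, AddChar.map_zero_eq_one, norm_sub_rev 1 (ξ b)] at h
    exact h.le
  · rw [zpow_zero, AddChar.one_apply, sub_self, norm_zero]
    exact norm_nonneg _
  · rw [zpow_one]

private theorem qh1_mul_close (u v : AddChar G ℂ) (b : G) :
    ‖(u * v) b - 1‖ ≤ ‖u b - 1‖ + ‖v b - 1‖ := by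
  have e : (u * v) b - 1 = (u b - 1) * v b + (v b - 1) := by
    rw [AddChar.mul_apply]; ring
  rw [e]
  calc ‖(u b - 1) * v b + (v b - 1)‖ ≤ ‖(u b - 1) * v b‖ + ‖v b - 1‖ := norm_add_le _ _
    _ = ‖u b - 1‖ + ‖v b - 1‖ := by rw [norm_mul, AddChar.norm_apply, mul_one]

private theorem qh1_prod_close (Λ : Finset (AddChar G ℂ)) (ε : AddChar G ℂ → ℤ)
    (hε : ∀ ξ, ε ξ = -1 ∨ ε ξ = 0 ∨ ε ξ = 1) (b : G) :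
    ‖(∏ ξ ∈ Λ, ξ ^ ε ξ) b - 1‖ ≤ ∑ ξ ∈ Λ, ‖ξ b - 1‖ := by
  classical
  induction Λ using Finset.induction_on with
  | empty => simp [AddChar.one_apply]
  | insert ξ Λ hξ ih =>
    rw [Finset.prod_insert hξ, Finset.sum_insert hξ]
    exact (qh1_mul_close _ _ b).trans (add_le_add (qh1_zpow_close ξ _ (hε ξ) b) ih)

/-- `‖ξ₀ b - 1‖ ≤ ‖θ b - 1‖ + ∑_Λ ‖ξ b - 1‖`, `θ = ξ₀ ∏_Λ ξ^{ε ξ}` -/
private theorem qh1_close (Λ : Finset (AddChar G ℂ)) (ε : AddChar G ℂ → ℤ)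
    (hε : ∀ ξ, ε ξ = -1 ∨ ε ξ = 0 ∨ ε ξ = 1) (ξ₀ : AddChar G ℂ) (b : G) :
    ‖ξ₀ b - 1‖ ≤ ‖(ξ₀ * ∏ ξ ∈ Λ, ξ ^ ε ξ) b - 1‖ + ∑ ξ ∈ Λ, ‖ξ b - 1‖ := by
  set P : AddChar G ℂ := ∏ ξ ∈ Λ, ξ ^ ε ξ with hP
  have h1 : ‖P b - 1‖ ≤ ∑ ξ ∈ Λ, ‖ξ b - 1‖ := qh1_prod_close Λ ε hε b
  have e : (ξ₀ b - 1) * P b = ((ξ₀ * P) b - 1) - (P b - 1) := by
    rw [AddChar.mul_apply]; ring
  have h2 : ‖ξ₀ b - 1‖ = ‖(ξ₀ b - 1) * P b‖ := by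
    rw [norm_mul, AddChar.norm_apply, mul_one]
  rw [h2, e]
  exact (norm_sub_le _ _).trans (add_le_add le_rfl h1)

private theorem qh1_free_sub {B₅ : Finset G} {Λ Λ' : Finset (AddChar G ℂ)} (h : Free B₅ Λ)
    (hs : Λ' ⊆ Λ) : Free B₅ Λ' := by
  classical
  intro ε hε hne
  obtain ⟨ξ, hξ, hξ0⟩ := hne
  have h1 := h (fun ξ => if ξ ∈ Λ' then ε ξ else 0) (fun ξ => by
      by_cases hm : ξ ∈ Λ'
      · simp only [hm, if_true]; exact hε ξ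
      · simp [hm])
    ⟨ξ, hs hξ, by simpa only [hξ, if_true] using hξ0⟩
  have h2 : (∏ ξ ∈ Λ, ξ ^ (if ξ ∈ Λ' then ε ξ else 0)) = ∏ ξ ∈ Λ', ξ ^ ε ξ := by
    rw [← Finset.prod_subset hs]
    · refine Finset.prod_congr rfl fun ξ hξ => ?_
      simp only [hξ, if_true]
    · intro ξ _ hξ
      simp only [hξ, if_false, zpow_zero]
  rw [h2] at h1
  exact h1

/-- [R3Q-H1] CHANG with a parameter `0 < δ ≤ 1/25` (adapt the proof of `chang_increment`, R3/Chang.lean, up to the closeness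
statement; there `δ = 1/25`).  `k₀ := ⌊4(M+2)⌋₊`, `N := 3(k₀+1) ≤ 12(M+3)`.  `bohr_growth` with `η = δ/16`,
`r = ρ₄/(20 D N)`: `ρ₅ ∈ [ρ₄/(40DN), ρ₄/(20DN)]`, `|bohr Γ ((1+δ/(320D))ρ₅)| ≤ (1+δ/16)|B₅|`.  `exists_weight`,
`exists_max_free`, `free_card` as there.  For `b ∈ bohr Γ' ρ₆`: `ρ₆ ≤ δρ₅/(320D)` (`ρ₅ ≥ ρ₄/(480D(M+3))`), so
`‖θ b - 1‖ ≤ 4·δ/16 = δ/4` (`close_of_large`), and `∑_Λ ‖ξ b - 1‖ ≤ k₀ρ₆ ≤ δ/4`: `‖ξ₀ b - 1‖ ≤ δ/2 ≤ δ`. -/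
theorem q_chang_close (Γ : Finset (AddChar G ℂ)) (D : ℝ) (hD : 1 ≤ D) (hΓ : (#Γ : ℝ) ≤ D)
    (ρ₄ : ℝ) (hρ : 0 < ρ₄) (hρ2 : ρ₄ ≤ 2)
    (hgrow : (#(bohr (G := G) Γ ((1 + 1 / (20 * D)) * ρ₄)) : ℝ) ≤ 2 * #(bohr (G := G) Γ ρ₄))
    (T : Finset G) (hT : T.Nonempty) (hTB : T ⊆ bohr Γ ρ₄) (M : ℝ) (hM0 : 0 ≤ M)
    (hM : Real.exp (-M) * #(bohr (G := G) Γ ρ₄) ≤ #T) (δ : ℝ) (hδ0 : 0 < δ) (hδ1 : δ ≤ 1 / 25) :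
    ∃ Λ : Finset (AddChar G ℂ), (#Λ : ℝ) ≤ 4 * (M + 2) ∧
      ∀ Γ' : Finset (AddChar G ℂ), Γ ⊆ Γ' → Λ ⊆ Γ' →
        ∀ ρ₆, 0 < ρ₆ → ρ₆ ≤ ρ₄ * δ / (10 ^ 8 * D ^ 2 * (M + 3)) →
          ∀ ξ ∈ Spec T, ∀ b ∈ bohr Γ' ρ₆, ‖ξ b - 1‖ ≤ δ := by
  classical
  have hD0 : 0 < D := lt_of_lt_of_le one_pos hD
  set k₀ : ℕ := ⌊4 * (M + 2)⌋₊ with hk₀
  have hk1 : (k₀ : ℝ) ≤ 4 * (M + 2) := Nat.floor_le (by linarith)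
  have hk2 : 4 * (M + 2) < (k₀ : ℝ) + 1 := Nat.lt_floor_add_one _
  set N : ℕ := 3 * (k₀ + 1) with hN
  have hNr : (N : ℝ) = 3 * ((k₀ : ℝ) + 1) := by rw [hN]; push_cast; ring
  have hN0 : (0 : ℝ) < N := by rw [hNr]; positivity
  have hN12 : (N : ℝ) ≤ 12 * (M + 3) := by rw [hNr]; linarith
  obtain ⟨ρ₅, hr1, hr2, hr3⟩ := bohr_growth (G := G) Γ D (δ / 16) hD hΓ (by positivity)
    (by linarith) (ρ₄ / (20 * D * N)) (by positivity)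
  have hρ5 : 0 < ρ₅ := lt_of_lt_of_le (by positivity) hr1
  have hNρ : N * ρ₅ ≤ ρ₄ / (20 * D) := by
    have h1 : N * ρ₅ ≤ N * (ρ₄ / (20 * D * N)) := mul_le_mul_of_nonneg_left hr2 hN0.le
    have h2 : N * (ρ₄ / (20 * D * N)) = ρ₄ / (20 * D) := by field_simp
    linarith
  -- the smoothing weight
  have hB₅ : (bohr (G := G) Γ ρ₅).Nonempty := bohr_nonempty hρ5.le
  obtain ⟨β, hβ, hβB, hβ2, hβf⟩ := exists_weight (bohr (G := G) Γ ρ₅) hB₅ (bohr (G := G) Γ ρ₄)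
    (bohr (G := G) Γ ((1 + 1 / (20 * D)) * ρ₄)) (bohr_nonempty hρ.le) hgrow N
    (fun i => bohr (G := G) Γ ((1 + 1 / (20 * D)) * ρ₄ - i * ρ₅)) (by simp) (by
      apply bohr_mono
      have : (1 + 1 / (20 * D)) * ρ₄ = ρ₄ + ρ₄ / (20 * D) := by ring
      linarith) (by
      intro i _ x hx b hb
      have h1 := add_mem_bohr hx hb
      have e : (1 + 1 / (20 * D)) * ρ₄ - ((i + 1 : ℕ) : ℝ) * ρ₅ + ρ₅ =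
          (1 + 1 / (20 * D)) * ρ₄ - i * ρ₅ := by push_cast; ring
      rw [e] at h1
      exact h1)
  obtain ⟨Λ, hΛT, hfree, hmax⟩ := exists_max_free (bohr (G := G) Γ ρ₅) T
  have hΛk : #Λ ≤ k₀ := by
    by_contra hcon
    have hlt : k₀ + 1 ≤ #Λ := by omega
    obtain ⟨Λ', hsub, hcard⟩ := Finset.exists_subset_card_eq hlt
    have h1 := free_card (bohr (G := G) Γ ρ₅) (bohr (G := G) Γ ρ₄) T hT hTB M hM Λ'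
      (hsub.trans hΛT) (qh1_free_sub hfree hsub) N (by rw [hcard]) β hβ hβB hβ2 hβf
    rw [hcard] at h1
    push_cast at h1
    linarith
  have hΛk' : (#Λ : ℝ) ≤ k₀ := by exact_mod_cast hΛk
  refine ⟨Λ, hΛk'.trans hk1, ?_⟩
  intro Γ' hΓ' hΛΓ' ρ₆ hρ6 hρ6le
  -- numerical consequences
  have hM3 : 0 < M + 3 := by linarith
  have hden : (0 : ℝ) < 10 ^ 8 * D ^ 2 * (M + 3) := by positivity
  have hD2 : 1 ≤ D ^ 2 := one_le_pow₀ hD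
  have hρ6a : ρ₆ * (10 ^ 8 * D ^ 2 * (M + 3)) ≤ ρ₄ * δ := by
    rwa [le_div_iff₀ hden] at hρ6le
  have hρδ : ρ₄ * δ ≤ 2 * δ := mul_le_mul_of_nonneg_right hρ2 hδ0.le
  have hρ6b : 10 ^ 8 * (ρ₆ * (M + 3)) ≤ 2 * δ := by
    have h1 : ρ₆ * (10 ^ 8 * D ^ 2 * (M + 3)) = 10 ^ 8 * (ρ₆ * (M + 3)) * D ^ 2 := by ring
    have h2 : 10 ^ 8 * (ρ₆ * (M + 3)) * 1 ≤ 10 ^ 8 * (ρ₆ * (M + 3)) * D ^ 2 :=
      mul_le_mul_of_nonneg_left hD2 (by positivity)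
    linarith
  have hρ6c : ρ₆ ≤ δ := by
    have h1 : ρ₆ * 3 ≤ ρ₆ * (M + 3) := mul_le_mul_of_nonneg_left (by linarith) hρ6.le
    linarith
  have hρ6d : (k₀ : ℝ) * ρ₆ ≤ δ / 4 := by
    have h1 : (k₀ : ℝ) * ρ₆ ≤ (4 * (M + 3)) * ρ₆ :=
      mul_le_mul_of_nonneg_right (by linarith) hρ6.le
    have h2 : (4 * (M + 3)) * ρ₆ = 4 * (ρ₆ * (M + 3)) := by ring
    linarith
  have hρ65 : ρ₆ ≤ δ / (320 * D) * ρ₅ := by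
    have h0 : ρ₄ / (20 * D * N) / 2 ≤ ρ₅ := hr1
    have h1 : ρ₄ ≤ 40 * D * N * ρ₅ := by
      rw [div_div, div_le_iff₀ (by positivity)] at h0
      linarith
    have h2 : 40 * D * N * ρ₅ ≤ 40 * D * (12 * (M + 3)) * ρ₅ := by gcongr
    have h3 : ρ₄ * δ ≤ 40 * D * (12 * (M + 3)) * ρ₅ * δ :=
      mul_le_mul_of_nonneg_right (h1.trans h2) hδ0.le
    have h4 : (D * (M + 3)) * (ρ₆ * (10 ^ 8 * D)) ≤ (D * (M + 3)) * (480 * (ρ₅ * δ)) := by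
      have e1 : ρ₆ * (10 ^ 8 * D ^ 2 * (M + 3)) = (D * (M + 3)) * (ρ₆ * (10 ^ 8 * D)) := by ring
      have e2 : 40 * D * (12 * (M + 3)) * ρ₅ * δ = (D * (M + 3)) * (480 * (ρ₅ * δ)) := by ring
      linarith
    have h5 : ρ₆ * (10 ^ 8 * D) ≤ 480 * (ρ₅ * δ) := le_of_mul_le_mul_left h4 (by positivity)
    have h6 : δ / (320 * D) * ρ₅ = ρ₅ * δ / (320 * D) := by ring
    rw [h6, le_div_iff₀ (by positivity)]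
    have h7 : ρ₆ * (320 * D) * 312500 = ρ₆ * (10 ^ 8 * D) := by ring
    have h8 : 0 < ρ₅ * δ := by positivity
    linarith
  have hsub6 : bohr (G := G) Γ' ρ₆ ⊆ bohr Γ (δ / (320 * D) * ρ₅) :=
    (bohr_anti hΓ').trans (bohr_mono hρ65)
  have hgr : (#(bohr (G := G) Γ ((1 + δ / (320 * D)) * ρ₅)) : ℝ) ≤
      (1 + δ / 16) * #(bohr (G := G) Γ ρ₅) := by
    have e : δ / 16 / (20 * D) = δ / (320 * D) := by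
      rw [div_div]; congr 1; ring
    rwa [e] at hr3
  intro ξ₀ hξ₀ b hb
  by_cases hm : ξ₀ ∈ Λ
  · have h1 := (mem_bohr.1 hb) ξ₀ (hΛΓ' hm)
    linarith
  · obtain ⟨ε, hε, hθ⟩ := hmax ξ₀ hξ₀ hm
    have h1 := close_of_large (bohr (G := G) Γ ρ₅) (bohr (G := G) Γ ((1 + δ / (320 * D)) * ρ₅))
      hB₅ (bohr_mono (by
        have : 0 ≤ δ / (320 * D) * ρ₅ := by positivity
        linarith)) (δ / 16) hgr b (by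
        intro x hx
        have h2 := add_mem_bohr hx (hsub6 hb)
        have e : ρ₅ + δ / (320 * D) * ρ₅ = (1 + δ / (320 * D)) * ρ₅ := by ring
        rwa [e] at h2) _ hθ
    have h3 := qh1_close Λ ε hε ξ₀ b
    have h4 : ∑ ξ ∈ Λ, ‖ξ b - 1‖ ≤ δ / 4 := by
      calc ∑ ξ ∈ Λ, ‖ξ b - 1‖ ≤ ∑ ξ ∈ Λ, ρ₆ :=
            Finset.sum_le_sum fun ξ hξ => (mem_bohr.1 hb) ξ (hΛΓ' hξ)
        _ = #Λ * ρ₆ := by rw [Finset.sum_const, nsmul_eq_mul]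
        _ ≤ k₀ * ρ₆ := mul_le_mul_of_nonneg_right hΛk' hρ6.le
        _ ≤ δ / 4 := hρ6d
    linarith

/-- [R3Q-H2] CHANG + SMOOTHING: `q_chang_close` with `δ = 12e`, `q_spec_mass`, `q_smooth_ge`. -/
theorem q_chang (a : G → ℕ) (n : ℝ) (hn : 0 < n) (S : Finset G) (hS : S.Nonempty)
    (Γ : Finset (AddChar G ℂ)) (D : ℝ) (hD : 1 ≤ D) (hΓ : (#Γ : ℝ) ≤ D)
    (ρ₄ : ℝ) (hρ : 0 < ρ₄) (hρ2 : ρ₄ ≤ 2)
    (hgrow : (#(bohr (G := G) Γ ((1 + 1 / (20 * D)) * ρ₄)) : ℝ) ≤ 2 * #(bohr (G := G) Γ ρ₄))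
    (T : Finset G) (hT : T.Nonempty) (hTB : T ⊆ bohr Γ ρ₄) (M : ℝ) (hM0 : 0 ≤ M)
    (hM : Real.exp (-M) * #(bohr (G := G) Γ ρ₄) ≤ #T) (e : ℝ) (he0 : 0 < e) (he1 : e ≤ 1 / 1000)
    (h : ∀ t ∈ T, ∀ t' ∈ T, (1 - 12 * e) * QK a n S S * (#S : ℝ) ^ 2 ≤
      ∑ x ∈ S, ∑ y ∈ S, QX a n (x + t) (y + t')) :
    ∃ Λ : Finset (AddChar G ℂ), (#Λ : ℝ) ≤ 4 * (M + 2) ∧
      ∀ Γ' : Finset (AddChar G ℂ), Γ ⊆ Γ' → Λ ⊆ Γ' →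
        ∀ ρ₆, 0 < ρ₆ → ρ₆ ≤ ρ₄ * (12 * e) / (10 ^ 8 * D ^ 2 * (M + 3)) →
          (1 - 48 * e) * QK a n S S ≤ QK (smooth a (bohr Γ' ρ₆)) n S S := by
  obtain ⟨Λ, hΛ, hcl⟩ := q_chang_close Γ D hD hΓ ρ₄ hρ hρ2 hgrow T hT hTB M hM0 hM (12 * e)
    (by linarith) (by linarith)
  refine ⟨Λ, hΛ, fun Γ' h1 h2 ρ₆ h3 h4 => ?_⟩
  have h5 := q_spec_mass a n hn S T hS hT (12 * e) h
  have h6 := q_smooth_ge a n hn S T (bohr Γ' ρ₆) hS (bohr_nonempty h3.le) (12 * e)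
    (by linarith) (by linarith) h5 (hcl Γ' h1 h2 ρ₆ h3 h4)
  have h7 : 4 * (12 * e) = 48 * e := by ring
  rw [h7] at h6
  exact h6

end R3
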