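import Pool.Agent.MP_0f71ae_nt.R3Q.Ext0

/-!
# [R3Q] Existence of the extremal set
-/

set_option linter.unusedSectionVars false

open Finset

namespace R3

variable {G : Type*} [AddCommGroup G] [Fintype G] [DecidableEq G]

/-- [R3Q-E1] Existence of an extremal set (same proof as R3/Ext1.lean).
`J_i := max_{∅ ≠ S ⊆ D_i} Psi (D i) S`, `i0 ≤ i ≤ i0 + k`.  Sizes: `|D_j| ≤ |D_{i0+k}| ≤ e^{1/100}|D_{i0}| ≤ e^{1/100}|D_i|`.
`J_i ≤ Λ` (`QK_le`, `pen ≥ 0`).  `J_i ≥ Psi (D i) S₀ ≥ c0 - e`: `HH (D i) S₀ ≤ HH (D i0) S₀ + 1/100`, and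
`pen(H₀ + 1/100) ≤ pen H₀ (1 + 2/(100 h0))`, `pen H₀ = log K(S₀) - Psi ≤ Λ`, `Λ/(50 h0) ≤ e`.
Pigeonhole: `J_{i0} ≥ c0 - e ≥ 3/10 > 0` and if `J_{i+1} > J_i + 1/100` for all `i0 ≤ i < i0+k` then `J_{i0+k} > k/100 ≥ Λ`.
So some `i` has `J_{i+1} ≤ J_i + 1/100`; `S` := a maximiser for `i`. -/
theorem q_exists_extremal {a : G → ℕ} {n L Λ e : ℝ} (hk : Kern a n Λ) (hΛL : Λ ≤ L)
    (he0 : 0 < e) (he1 : e ≤ 1 / 1000) (i0 k : ℕ) (hkΛ : 100 * Λ ≤ k) (D : ℕ → Finset G)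
    (hD : ∀ i, i0 ≤ i → i < i0 + k → D i ⊆ D (i + 1))
    (hcard : (#(D (i0 + k)) : ℝ) ≤ Real.exp (1 / 100) * #(D i0))
    (S₀ : Finset G) (hS₀ : S₀ ⊆ D i0) (hne : S₀.Nonempty) (c0 : ℝ) (hc0 : 3 / 10 + e ≤ c0)
    (hstart : c0 ≤ Psi a n L e (D i0) S₀) :
    ∃ i, i0 ≤ i ∧ i < i0 + k ∧ ∃ S, QExt a n L Λ e (D i) (D (i + 1)) S ∧
      c0 - e ≤ Psi a n L e (D i) S := by
  classical
  have hΛ1 : 1 ≤ Λ := hk.one_le
  have hL : 1 ≤ L := hΛ1.trans hΛL
  have hq0 : 0 < hq L e := hq_pos hL he0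
  -- inclusions
  have hmono : ∀ j, i0 ≤ j → j ≤ i0 + k → ∀ i, i0 ≤ i → i ≤ j → D i ⊆ D j := by
    intro j
    induction j with
    | zero => intro _ _ i _ hi; rw [Nat.le_zero.1 hi]
    | succ j ih =>
      intro hj0 hjk i hi0 hi
      rcases Nat.lt_or_ge i (j + 1) with h | h
      · exact (ih (by omega) (by omega) i hi0 (by omega)).trans (hD j (by omega) (by omega))
      · rw [le_antisymm hi h]
  have hD0 : ∀ i, i0 ≤ i → i ≤ i0 + k → D i0 ⊆ D i := fun i h1 h2 => hmono i h1 h2 i0 le_rfl h1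
  have hDk : ∀ i, i0 ≤ i → i ≤ i0 + k → D i ⊆ D (i0 + k) := fun i h1 h2 =>
    hmono (i0 + k) (by omega) le_rfl i h1 h2
  have hDne : ∀ i, i0 ≤ i → i ≤ i0 + k → (D i).Nonempty := fun i h1 h2 =>
    hne.mono (hS₀.trans (hD0 i h1 h2))
  have hcpos : ∀ T : Finset G, T.Nonempty → (0 : ℝ) < #T := fun T hT => by
    exact_mod_cast hT.card_pos
  have hsize : ∀ i, i0 ≤ i → i ≤ i0 + k → ∀ j, i0 ≤ j → j ≤ i0 + k →
      (#(D j) : ℝ) ≤ Real.exp (1 / 100) * #(D i) := by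
    intro i hi hi' j hj hj'
    have h1 : (#(D j) : ℝ) ≤ #(D (i0 + k)) := by exact_mod_cast card_le_card (hDk j hj hj')
    have h2 : (#(D i0) : ℝ) ≤ #(D i) := by exact_mod_cast card_le_card (hD0 i hi hi')
    exact h1.trans (hcard.trans (mul_le_mul_of_nonneg_left h2 (Real.exp_pos _).le))
  have hlogK : ∀ S : Finset G, S.Nonempty → Real.log (QK a n S S) ≤ Λ := by
    intro S hS
    rw [Real.log_le_iff_le_exp (QK_self_pos a n hk.n_pos hk.m_pos S hS)]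
    exact QK_le a n hk.n_pos hk.m_pos hk.bd S S
  -- maximisers
  have hmax : ∀ i, ∃ M : Finset G, i0 ≤ i → i ≤ i0 + k → (M ⊆ D i ∧ M.Nonempty ∧
      ∀ S' ⊆ D i, S'.Nonempty → Psi a n L e (D i) S' ≤ Psi a n L e (D i) M) := by
    intro i
    by_cases hi : i0 ≤ i ∧ i ≤ i0 + k
    · obtain ⟨M, hM, hM'⟩ := Finset.exists_max_image
        ((D i).powerset.filter fun T => T.Nonempty) (Psi a n L e (D i))
        ⟨D i, mem_filter.2 ⟨mem_powerset.2 subset_rfl, hDne i hi.1 hi.2⟩⟩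
      rw [mem_filter, mem_powerset] at hM
      exact ⟨M, fun _ _ => ⟨hM.1, hM.2, fun S' h1 h2 =>
        hM' S' (mem_filter.2 ⟨mem_powerset.2 h1, h2⟩)⟩⟩
    · exact ⟨∅, fun h1 h2 => absurd ⟨h1, h2⟩ hi⟩
  choose M hM using hmax
  obtain ⟨J, hJ⟩ : ∃ J : ℕ → ℝ, ∀ i, J i = Psi a n L e (D i) (M i) := ⟨_, fun _ => rfl⟩
  have hJle : ∀ i, i0 ≤ i → i ≤ i0 + k → J i ≤ Λ := by
    intro i hi hi'
    have h1 := hlogK (M i) (hM i hi hi').2.1
    have h2 := pen_pos (L := L) (e := e) (HH (D i) (M i))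
    rw [hJ, Psi]
    linarith
  have hsmall : 2 * Λ / hq L e * (1 / 100) ≤ e := by
    have h1 : e * hq L e * e ^ 3 = 10 ^ 4 * L ^ 2 := by
      unfold hq
      field_simp
    have h2 : e ^ 3 ≤ 1 := pow_le_one₀ he0.le (by linarith)
    have h3 : e * hq L e * e ^ 3 ≤ e * hq L e * 1 :=
      mul_le_mul_of_nonneg_left h2 (by positivity)
    have h4 : Λ ≤ e * hq L e := by nlinarith
    rw [div_mul_eq_mul_div, div_le_iff₀ hq0]
    linarith
  have hJge : ∀ i, i0 ≤ i → i ≤ i0 + k → c0 - e ≤ J i := by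
    intro i hi hi'
    have h1 := (hM i hi hi').2.2 S₀ (hS₀.trans (hD0 i hi hi')) hne
    rw [hJ]
    refine le_trans ?_ h1
    have hi00 : i0 ≤ i0 + k := Nat.le_add_right _ _
    have h6 : HH (D i) S₀ ≤ HH (D i0) S₀ + 1 / 100 := by
      unfold HH
      rw [Real.log_div (hcpos _ (hDne i hi hi')).ne' (hcpos _ hne).ne',
        Real.log_div (hcpos _ (hDne i0 le_rfl hi00)).ne' (hcpos _ hne).ne']
      have h7 := Real.log_le_log (hcpos _ (hDne i hi hi')) (hsize i0 le_rfl hi00 i hi hi')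
      rw [Real.log_mul (Real.exp_pos _).ne' (hcpos _ (hDne i0 le_rfl hi00)).ne',
        Real.log_exp] at h7
      linarith
    have h8 := pen_mono (L := L) (e := e) hL he0 h6
    have h9 := pen_up (L := L) (e := e) hL he0 (HH (D i0) S₀) (Δ := 1 / 100) (by norm_num) (by
      have := hq_ge (L := L) (e := e) hL he0 he1
      nlinarith)
    have h10 : pen L e (HH (D i0) S₀) ≤ Λ := by
      have h11 := hlogK S₀ hne
      unfold Psi at hstart
      linarith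
    have h12 : 2 * pen L e (HH (D i0) S₀) / hq L e * (1 / 100) ≤ 2 * Λ / hq L e * (1 / 100) := by
      gcongr
    unfold Psi at hstart ⊢
    linarith
  -- pigeonhole
  obtain ⟨j, hjk, hj⟩ : ∃ j < k, J (i0 + j + 1) ≤ J (i0 + j) + 1 / 100 := by
    by_contra hcon
    push Not at hcon
    have h1 : ∀ j ≤ k, J i0 + j * (1 / 100) ≤ J (i0 + j) := by
      intro j
      induction j with
      | zero => intro _; simp
      | succ j ih =>
        intro hj
        have h2 := hcon j (by omega)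
        have h3 := ih (by omega)
        rw [← add_assoc]
        push_cast
        linarith
    have h2 := h1 k le_rfl
    have h3 := hJle (i0 + k) (by omega) le_rfl
    have h4 := hJge i0 le_rfl (by omega)
    linarith
  have hi1 : i0 ≤ i0 + j := Nat.le_add_right _ _
  have hi2 : i0 + j ≤ i0 + k := by omega
  obtain ⟨hSD, hSne, hSmax⟩ := hM (i0 + j) hi1 hi2
  have hJ0 := hJge (i0 + j) hi1 hi2
  rw [hJ] at hJ0
  refine ⟨i0 + j, hi1, by omega, M (i0 + j), ?_, hJ0⟩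
  refine
    { sub := hSD
      sub' := hD (i0 + j) hi1 (by omega)
      ne := hSne
      card_le := hsize (i0 + j) hi1 hi2 (i0 + j + 1) (by omega) (by omega)
      lo := by linarith
      hi := hlogK _ hSne
      max1 := hSmax
      max2 := ?_ }
  intro Y' hY' hY'ne
  have h1 := (hM (i0 + j + 1) (by omega) (by omega)).2.2 Y' hY' hY'ne
  rw [hJ, hJ] at hj
  linarith

end R3
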