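import Pool.Agent.MP_0f71ae_nt.R3Q.Samp
import Pool.Agent.MP_0f71ae_nt.R3Q.Ext1

/-!
# [R3Q] The core theorem of one stage (sections 3, 4)
-/

set_option linter.unusedSectionVars false

open Finset

namespace R3

variable {G : Type*} [AddCommGroup G] [Fintype G] [DecidableEq G]

private lemma qc0_log12 : Real.log 12 ≤ 5 / 2 := by
  rw [Real.log_le_iff_le_exp (by norm_num)]
  have h1 : Real.exp (5 / 2) ^ 2 = Real.exp 1 ^ 5 := by
    rw [← Real.exp_nat_mul, ← Real.exp_nat_mul]; norm_num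
  have h2 := Real.exp_one_gt_d9
  have h3 : (2.7182818283 : ℝ) ^ 5 ≤ Real.exp 1 ^ 5 := pow_le_pow_left₀ (by norm_num) h2.le 5
  have h4 : (12 : ℝ) ^ 2 ≤ Real.exp (5 / 2) ^ 2 := by
    rw [h1]; refine le_trans ?_ h3; norm_num
  exact le_of_sq_le_sq h4 (Real.exp_pos _).le

/-- the numerics -/
private lemma qc0_num {Λ L e v l m H : ℝ} (hΛ : 1 ≤ Λ) (hL : 1 ≤ L) (he0 : 0 < e)
    (he1 : e ≤ 1 / 1000) (hv1 : 1 ≤ v) (hv : v ≤ 9 / 2 * l) (hH : H = 10 ^ 4 * L ^ 2 / e ^ 4 * (v - 1))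
    (hm : m ≤ 10240 * Λ * v / e ^ 4 + 1) :
    1 + m * (H + 1 / 100) ≤ 10 ^ 10 * Λ * L ^ 2 * l ^ 2 / e ^ 8 := by
  have he4 : 0 < e ^ 4 := by positivity
  have he41 : e ^ 4 ≤ 1 := pow_le_one₀ he0.le (by linarith)
  set X := Λ * v / e ^ 4 with hX
  set Y := L ^ 2 * v / e ^ 4 with hY
  have hv0 : 0 < v := by linarith
  have hX1 : 1 ≤ X := by
    rw [hX, le_div_iff₀ he4]
    nlinarith
  have hL2 : 1 ≤ L ^ 2 := by nlinarith
  have hA : 1 ≤ L ^ 2 / e ^ 4 := by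
    rw [le_div_iff₀ he4]
    linarith
  have hH2 : H + 1 / 100 ≤ 10 ^ 4 * Y := by
    have h1 : 10 ^ 4 * Y = 10 ^ 4 * L ^ 2 / e ^ 4 * (v - 1) + 10 ^ 4 * (L ^ 2 / e ^ 4) := by
      rw [hY]
      ring
    rw [h1, ← hH]
    nlinarith
  have hH0 : 0 ≤ H := by
    rw [hH]
    have : 0 ≤ v - 1 := by linarith
    positivity
  have hY1 : 1 ≤ Y := by
    have : Y = L ^ 2 / e ^ 4 * v := by rw [hY]; ring
    rw [this]
    nlinarith
  have hm2 : m ≤ 10241 * X := by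
    have h1 : 10240 * Λ * v / e ^ 4 = 10240 * X := by rw [hX]; ring
    rw [h1] at hm
    linarith
  have h1 : m * (H + 1 / 100) ≤ 10241 * X * (10 ^ 4 * Y) := by
    refine (mul_le_mul_of_nonneg_right hm2 (by linarith)).trans ?_
    exact mul_le_mul_of_nonneg_left hH2 (by linarith)
  have hXY : 1 ≤ X * Y := by nlinarith
  have h2 : 1 + m * (H + 1 / 100) ≤ 102410001 * (X * Y) := by nlinarith
  have h3 : X * Y = Λ * L ^ 2 / e ^ 8 * v ^ 2 := by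
    rw [hX, hY]
    field_simp
  have h4 : v ^ 2 ≤ (9 / 2 * l) ^ 2 := pow_le_pow_left₀ hv0.le hv 2
  have h5 : 0 ≤ Λ * L ^ 2 / e ^ 8 := by positivity
  have h6 : X * Y ≤ Λ * L ^ 2 / e ^ 8 * (9 / 2 * l) ^ 2 := by
    rw [h3]
    exact mul_le_mul_of_nonneg_left h4 h5
  have h7 : 10 ^ 10 * Λ * L ^ 2 * l ^ 2 / e ^ 8 = 10 ^ 10 * (Λ * L ^ 2 / e ^ 8 * l ^ 2) := by ring
  have h8 : 0 ≤ Λ * L ^ 2 / e ^ 8 * l ^ 2 := by positivity
  rw [h7]
  have h9 : Λ * L ^ 2 / e ^ 8 * (9 / 2 * l) ^ 2 = 81 / 4 * (Λ * L ^ 2 / e ^ 8 * l ^ 2) := by ring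
  rw [h9] at h6
  nlinarith

/-- [R3Q-C0] one stage.  `q_exists_extremal`, `QExt.sampling` with `m = ⌈10240Λϖ/e⁴⌉₊ (≤ 10241Λϖ/e⁴)`,
`ϖ = 1 + H/h0 = 1 + log(12 p0) ≤ 1 + log(12Λ) ≤ 4.5 ll L`.  `|T|/|B| ≥ ½(|S|/|D'|)^m ≥ exp(-(1 + m(H + 1/100)))` and
`1 + m(H+1/100) ≤ 1 + 10241Λϖ/e⁴ · (10⁴L²(ϖ-1)/e⁴ + 0.01) ≤ 10^10 Λ L² (ll L)²/e⁸`. -/
theorem qcore {a : G → ℕ} {n L Λ e : ℝ} (hk : Kern a n Λ) (hΛL : Λ ≤ L)
    (he0 : 0 < e) (he1 : e ≤ 1 / 1000) (i0 k : ℕ) (hkΛ : 100 * Λ ≤ k) (D : ℕ → Finset G)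
    (hD : ∀ i, i0 ≤ i → i < i0 + k → D i ⊆ D (i + 1))
    (hcard : (#(D (i0 + k)) : ℝ) ≤ Real.exp (1 / 100) * #(D i0))
    (W : Finset G) (hW : (#W : ℝ) ≤ 2 * n)
    (hDW : ∀ x ∈ D (i0 + k), ∀ w, a (w + x) ≠ 0 → w ∈ W)
    (B : Finset G) (hB0 : 0 ∈ B)
    (hB : ∀ i, i0 ≤ i → i < i0 + k → ∀ y ∈ D i, ∀ t ∈ B, ∀ t' ∈ B, y + (t' - t) ∈ D (i + 1))
    (S₀ : Finset G) (hS₀ : S₀ ⊆ D i0) (hne : S₀.Nonempty) (c0 : ℝ) (hc0 : 3 / 10 + e ≤ c0)
    (hstart : c0 ≤ Psi a n L e (D i0) S₀) :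
    ∃ i, i0 ≤ i ∧ i < i0 + k ∧ ∃ S ⊆ D i, S.Nonempty ∧ c0 - e ≤ Psi a n L e (D i) S ∧
      ∃ T ⊆ B, T.Nonempty ∧
        Real.exp (-(10 ^ 10 * Λ * L ^ 2 * ll L ^ 2 / e ^ 8)) * #B ≤ #T ∧
        ∀ t ∈ T, ∀ t' ∈ T, (1 - 12 * e) * QK a n S S * (#S : ℝ) ^ 2 ≤
          ∑ x ∈ S, ∑ y ∈ S, QX a n (x + t) (y + t') := by
  classical
  obtain ⟨i, hi0, hik, S, hE, hPsi⟩ := q_exists_extremal hk hΛL he0 he1 i0 k hkΛ D hD hcard S₀ hS₀
    hne c0 hc0 hstart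
  have hΛ := hk.one_le
  have hL : 1 ≤ L := hΛ.trans hΛL
  have hmono : ∀ j, i ≤ j → j ≤ i0 + k → D i ⊆ D j := by
    intro j hij
    induction j, hij using Nat.le_induction with
    | base => intro _; exact subset_rfl
    | succ j hj ih =>
      intro hjk
      exact (ih (by omega)).trans (hD j (by omega) (by omega))
  have hSk : S ⊆ D (i0 + k) := hE.sub.trans (hmono (i0 + k) hik.le le_rfl)
  set v := vp L e (D i) S with hv
  set H := HH (D i) S with hH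
  have he4 : 0 < e ^ 4 := by positivity
  have hh0 : 0 < hq L e := hq_pos hL he0
  have hH0 : 0 ≤ H := hE.HH_nonneg
  have hv1 : 1 ≤ v := by
    rw [hv]
    unfold vp
    have : 0 ≤ HH (D i) S / hq L e := div_nonneg hH0 hh0.le
    linarith
  have hvH : H = 10 ^ 4 * L ^ 2 / e ^ 4 * (v - 1) := by
    rw [hv]
    unfold vp
    have h1 : (10 : ℝ) ^ 4 * L ^ 2 / e ^ 4 = hq L e := rfl
    rw [h1]
    field_simp
    ring
  have hvl : v ≤ 9 / 2 * ll L := by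
    have h1 := hE.pen_le
    unfold pen at h1
    have h2 : Real.exp (H / hq L e) ≤ 12 * Λ := by
      rw [← hH] at h1
      linarith
    have h3 : H / hq L e ≤ Real.log (12 * Λ) := by
      rw [Real.le_log_iff_exp_le (by positivity)]
      exact h2
    rw [Real.log_mul (by norm_num) (by linarith : Λ ≠ 0)] at h3
    have h4 := qc0_log12
    have h5 : Real.log Λ ≤ ll L := by
      unfold ll
      refine Real.log_le_log (by linarith) ?_
      have := Real.exp_pos (1 : ℝ)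
      linarith
    have h6 := one_lt_ll hL
    have h7 : v = 1 + H / hq L e := rfl
    rw [h7]
    linarith
  set m : ℕ := ⌈10240 * Λ * v / e ^ 4⌉₊ with hmdef
  obtain ⟨T, hTB, hTcard, hT⟩ := hE.sampling hk hΛL he0 he1 W hW
    (fun x hx w hw => hDW x (hSk hx) w hw) B hB0 (hB i hi0 hik) m (Nat.le_ceil _)
  have hSpos : (0 : ℝ) < #S := by exact_mod_cast hE.ne.card_pos
  have hDne : (D i).Nonempty := hE.ne.mono hE.sub
  have hDpos : (0 : ℝ) < #(D i) := by exact_mod_cast hDne.card_pos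
  have hD'ne : (D (i + 1)).Nonempty := hDne.mono hE.sub'
  have hD'pos : (0 : ℝ) < #(D (i + 1)) := by exact_mod_cast hD'ne.card_pos
  have hBpos : (0 : ℝ) < #B := by exact_mod_cast (card_pos.2 ⟨0, hB0⟩)
  -- the size of `T`
  have hsize : Real.exp (-(1 + m * (H + 1 / 100))) ≤ (#S / #(D (i + 1)) : ℝ) ^ m / 2 := by
    have h1 : Real.exp (-(H + 1 / 100)) ≤ (#S / #(D (i + 1)) : ℝ) := by
      rw [le_div_iff₀ hD'pos]
      have h2 : Real.exp (-(H + 1 / 100)) = (#S / #(D i) : ℝ) * Real.exp (-(1 / 100)) := by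
        rw [neg_add, Real.exp_add]
        congr 1
        rw [hH]
        unfold HH
        rw [Real.exp_neg, Real.exp_log (div_pos hDpos hSpos), inv_div]
      rw [h2]
      calc (#S / #(D i) : ℝ) * Real.exp (-(1 / 100)) * #(D (i + 1))
          ≤ (#S / #(D i) : ℝ) * Real.exp (-(1 / 100)) * (Real.exp (1 / 100) * #(D i)) :=
            mul_le_mul_of_nonneg_left hE.card_le (by positivity)
        _ = #S * (Real.exp (-(1 / 100)) * Real.exp (1 / 100)) := by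
            field_simp
        _ = #S := by rw [← Real.exp_add]; simp
    have h3 : Real.exp (-(H + 1 / 100)) ^ m ≤ (#S / #(D (i + 1)) : ℝ) ^ m :=
      pow_le_pow_left₀ (Real.exp_pos _).le h1 m
    have h4 : Real.exp (-(1 + m * (H + 1 / 100))) =
        Real.exp (-1) * Real.exp (-(H + 1 / 100)) ^ m := by
      rw [← Real.exp_nat_mul, ← Real.exp_add]
      congr 1
      ring
    have h5 : Real.exp (-1) ≤ 1 / 2 := by
      rw [Real.exp_neg, one_div]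
      refine inv_anti₀ (by norm_num) ?_
      have := Real.exp_one_gt_d9
      linarith
    rw [h4]
    have h6 : 0 < Real.exp (-(H + 1 / 100)) ^ m := by positivity
    calc Real.exp (-1) * Real.exp (-(H + 1 / 100)) ^ m
        ≤ 1 / 2 * Real.exp (-(H + 1 / 100)) ^ m := mul_le_mul_of_nonneg_right h5 h6.le
      _ ≤ 1 / 2 * (#S / #(D (i + 1)) : ℝ) ^ m := mul_le_mul_of_nonneg_left h3 (by norm_num)
      _ = _ := by ring
  have hmle : (m : ℝ) ≤ 10240 * Λ * v / e ^ 4 + 1 := by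
    rw [hmdef]
    exact (Nat.ceil_lt_add_one (by positivity)).le
  have hnum := qc0_num hΛ hL he0 he1 hv1 hvl hvH hmle
  refine ⟨i, hi0, hik, S, hE.sub, hE.ne, hPsi, T, hTB, ?_, ?_, hT⟩
  · have h1 : (0 : ℝ) < #T := by
      refine lt_of_lt_of_le ?_ hTcard
      positivity
    exact card_pos.1 (by exact_mod_cast h1)
  · refine le_trans ?_ hTcard
    rw [mul_comm]
    refine mul_le_mul_of_nonneg_left ?_ hBpos.le
    refine le_trans ?_ hsize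
    apply Real.exp_le_exp.2
    linarith

end R3
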