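import Pool.Agent.MP_0f71ae_nt.R3.Basic

/-!
# [R3Q] Definitions: kernel of a function `a : G → ℕ`, smoothing, mixtures, the penalty

Upgrade of `R3` to the exponent 1/4 (R3_QUARTER.md).
-/

open Finset

namespace R3

variable {G : Type*} [AddCommGroup G] [Fintype G] [DecidableEq G]

/-- total mass -/
noncomputable def mass (a : G → ℕ) : ℝ := ∑ w : G, (a w : ℝ)

/-- the kernel `X_a(x,y) = (n/|a|²) ∑_w a(w+x) a(w+y)` -/
noncomputable def QX (a : G → ℕ) (n : ℝ) (x y : G) : ℝ :=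
  n / mass a ^ 2 * ∑ w : G, (a (w + x) : ℝ) * a (w + y)

/-- `K_a(S,Y) = avg_{x ∈ S, y ∈ Y} X_a(x,y)` -/
noncomputable def QK (a : G → ℕ) (n : ℝ) (S Y : Finset G) : ℝ :=
  (∑ x ∈ S, ∑ y ∈ Y, QX a n x y) / (#S * #Y)

/-- `Φ_j = avg X^j` -/
noncomputable def QPhi (a : G → ℕ) (n : ℝ) (S Y : Finset G) (j : ℕ) : ℝ :=
  (∑ x ∈ S, ∑ y ∈ Y, QX a n x y ^ j) / (#S * #Y)

/-- indicator -/
def ind (A : Finset G) (w : G) : ℕ := if w ∈ A then 1 else 0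

/-- `(smooth a B)(w) = ∑_{b ∈ B} a(w+b)` -/
def smooth (a : G → ℕ) (B : Finset G) (w : G) : ℕ := ∑ b ∈ B, a (w + b)

/-- `a` is a mixture of translates `1_{A}(· + t)`, `t ∈ B` -/
def Mix (A : Finset G) (B : Set G) (a : G → ℕ) : Prop :=
  ∃ (k : ℕ) (t : Fin k → G), 0 < k ∧ (∀ i, t i ∈ B) ∧
    ∀ w, a w = #{i : Fin k | w + t i ∈ A}

/-- `h0 = 10^4 L²/e⁴` -/
noncomputable def hq (L e : ℝ) : ℝ := 10 ^ 4 * L ^ 2 / e ^ 4

/-- the penalty `φ(t) = exp(t/h0)/12` -/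
noncomputable def pen (L e t : ℝ) : ℝ := Real.exp (t / hq L e) / 12

/-- `H = log(|D|/|S|)` -/
noncomputable def HH (D S : Finset G) : ℝ := Real.log ((#D : ℝ) / #S)

/-- `Ψ_D(S) = log K_a(S,S) - φ(H)` -/
noncomputable def Psi (a : G → ℕ) (n L e : ℝ) (D S : Finset G) : ℝ :=
  Real.log (QK a n S S) - pen L e (HH D S)

/-- `S ⊆ D ⊆ D'` is extremal (section 3 of R3_QUARTER.md) -/
structure QExt (a : G → ℕ) (n L Λ e : ℝ) (D D' S : Finset G) : Prop where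
  sub : S ⊆ D
  sub' : D ⊆ D'
  ne : S.Nonempty
  card_le : (#D' : ℝ) ≤ Real.exp (1 / 100) * #D
  lo : 3 / 10 ≤ Psi a n L e D S
  hi : Real.log (QK a n S S) ≤ Λ
  max1 : ∀ S' ⊆ D, S'.Nonempty → Psi a n L e D S' ≤ Psi a n L e D S
  max2 : ∀ Y' ⊆ D', Y'.Nonempty → Psi a n L e D' Y' ≤ Psi a n L e D S + 1 / 100

end R3
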