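import Pool.Agent.MP_0f71ae_nt.R3Q.Basic
import Pool.Agent.MP_0f71ae_nt.R3.FDefs

/-!
# [R3Q] Definitions for section 3 and elementary facts on the penalty
-/

set_option linter.unusedSectionVars false

open Finset

namespace R3

variable {G : Type*} [AddCommGroup G] [Fintype G] [DecidableEq G]

/-- standing hypotheses on a kernel: `f = (n/|a|) a ≤ e^Λ`, `Λ ≥ 1` -/
structure Kern (a : G → ℕ) (n Λ : ℝ) : Prop where
  n_pos : 0 < n
  m_pos : 0 < mass a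
  one_le : 1 ≤ Λ
  bd : ∀ w, n * a w ≤ Real.exp Λ * mass a

/-- the exceptional set: `d(y) ≤ (1-4e)K`, `u(y) ≥ e^{-ℓ}` -/
noncomputable def qbad (a : G → ℕ) (n e : ℝ) (D' S : Finset G) (ℓ : ℝ) : Finset G :=
  D'.filter (fun y => QK a n S {y} ≤ (1 - 4 * e) * QK a n S S ∧
    Real.exp (-ℓ) * #S ≤ #(S.filter (fun x => (1 - e) * QK a n S S ≤ QX a n x y)))

/-- `ϖ = 1 + H/h0 = 1 + log(12 φ(H))` -/
noncomputable def vp (L e : ℝ) (D S : Finset G) : ℝ := 1 + HH D S / hq L e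

/-- `ℓ(ρ) = (e⁴/(1280Λ)) (ρ/ϖ + h0/φ(H))` -/
noncomputable def lev (L Λ e : ℝ) (D S : Finset G) (ρ : ℝ) : ℝ :=
  e ^ 4 / (1280 * Λ) * (ρ / vp L e D S + hq L e / pen L e (HH D S))

section pen

variable {L e : ℝ}

theorem hq_pos (hL : 1 ≤ L) (he : 0 < e) : 0 < hq L e := by
  unfold hq; positivity

/-- `h0 ≥ 10^16 L²` for `e ≤ 1/1000` (crude; in fact `10^4 L²/e^4`) -/
theorem hq_ge (hL : 1 ≤ L) (he : 0 < e) (he1 : e ≤ 1 / 1000) : 10 ^ 16 * L ^ 2 ≤ hq L e := by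
  unfold hq
  rw [le_div_iff₀ (by positivity)]
  have h1 : e ^ 4 ≤ (1 / 1000) ^ 4 := by gcongr
  calc 10 ^ 16 * L ^ 2 * e ^ 4 ≤ 10 ^ 16 * L ^ 2 * (1 / 1000) ^ 4 := by gcongr
    _ ≤ 10 ^ 4 * L ^ 2 := by ring_nf; rfl

theorem pen_pos (t : ℝ) : 0 < pen L e t := by
  unfold pen; positivity

theorem pen_mono (hL : 1 ≤ L) (he : 0 < e) {s t : ℝ} (h : s ≤ t) : pen L e s ≤ pen L e t := by
  unfold pen
  have := hq_pos hL he
  gcongr

theorem pen_add (s t : ℝ) : pen L e (s + t) = pen L e s * Real.exp (t / hq L e) := by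
  unfold pen
  rw [add_div, Real.exp_add]
  ring

theorem exp_le_one_add_two_mul {t : ℝ} (h0 : 0 ≤ t) (h1 : t ≤ 1) :
    Real.exp t ≤ 1 + 2 * t := by
  have := Real.abs_exp_sub_one_le (x := t) (by rw [abs_of_nonneg h0]; exact h1)
  rw [abs_of_nonneg h0] at this
  have h2 := le_abs_self (Real.exp t - 1)
  linarith

/-- `φ(H+Δ) ≤ φ(H) + 2 φ(H)/h0 · Δ` for `0 ≤ Δ ≤ h0` -/
theorem pen_up (hL : 1 ≤ L) (he : 0 < e) (H : ℝ) {Δ : ℝ} (h0 : 0 ≤ Δ) (h1 : Δ ≤ hq L e) :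
    pen L e (H + Δ) ≤ pen L e H + 2 * pen L e H / hq L e * Δ := by
  have hq0 := hq_pos (L := L) (e := e) hL he
  rw [pen_add]
  have : Real.exp (Δ / hq L e) ≤ 1 + 2 * (Δ / hq L e) :=
    exp_le_one_add_two_mul (by positivity) (by rw [div_le_one hq0]; exact h1)
  calc pen L e H * Real.exp (Δ / hq L e) ≤ pen L e H * (1 + 2 * (Δ / hq L e)) := by
        have := pen_pos (L := L) (e := e) H
        gcongr
    _ = _ := by ring

end pen

variable {a : G → ℕ} {n L Λ e : ℝ} {D D' S : Finset G}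

theorem QExt.pen_le (hE : QExt a n L Λ e D D' S) : pen L e (HH D S) ≤ Λ := by
  have h1 := hE.lo
  have h2 := hE.hi
  unfold Psi at h1
  linarith

theorem QExt.HH_nonneg (hE : QExt a n L Λ e D D' S) : 0 ≤ HH D S := by
  unfold HH
  apply Real.log_nonneg
  have h1 : (0 : ℝ) < #S := by exact_mod_cast hE.ne.card_pos
  rw [one_le_div h1]
  exact_mod_cast Finset.card_le_card hE.sub

theorem QExt.pen_ge (hE : QExt a n L Λ e D D' S) (hL : 1 ≤ L) (he : 0 < e) :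
    1 / 12 ≤ pen L e (HH D S) := by
  have h := pen_mono (L := L) (e := e) hL he hE.HH_nonneg
  have : pen L e 0 = 1 / 12 := by unfold pen; simp
  linarith

/-- `log K ≥ 3/10 + φ(H)` -/
theorem QExt.log_ge (hE : QExt a n L Λ e D D' S) :
    3 / 10 + pen L e (HH D S) ≤ Real.log (QK a n S S) := by
  have h1 := hE.lo
  unfold Psi at h1
  linarith

end R3
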