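import Pool.Agent.MP_0f71ae_nt.R3Q.Ext0

/-!
# [R3Q] 3.1 (i)
-/

set_option linter.unusedSectionVars false

open Finset

namespace R3

variable {G : Type*} [AddCommGroup G] [Fintype G] [DecidableEq G]
variable {a : G → ℕ} {n L Λ e : ℝ} {D D' S : Finset G}

/-- [R3Q-E2a] growth inside `D`: `K(S') ≤ K e^{(2 p0/h0) Δ}` if `|S'| ≥ e^{-Δ}|S|`, `0 ≤ Δ ≤ h0`
(`p0 = pen L e (HH D S)`); from `max1` and `pen_up`. -/
theorem QExt.grow1 (hE : QExt a n L Λ e D D' S) (hk : Kern a n Λ) (hΛL : Λ ≤ L)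
    (he0 : 0 < e) (he1 : e ≤ 1 / 1000) (S' : Finset G) (hS' : S' ⊆ D) (hne : S'.Nonempty)
    (Δ : ℝ) (h0 : 0 ≤ Δ) (h1 : Δ ≤ hq L e) (hc : Real.exp (-Δ) * #S ≤ #S') :
    QK a n S' S' ≤ QK a n S S * Real.exp (2 * pen L e (HH D S) / hq L e * Δ) := by
  have hL : 1 ≤ L := hk.one_le.trans hΛL
  have hKpos : 0 < QK a n S S := QK_self_pos a n hk.n_pos hk.m_pos S hE.ne
  have hKpos' : 0 < QK a n S' S' := QK_self_pos a n hk.n_pos hk.m_pos S' hne
  have hm := hE.max1 S' hS' hne
  unfold Psi at hm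
  have hS0 : (0 : ℝ) < #S := by exact_mod_cast hE.ne.card_pos
  have hS1 : (0 : ℝ) < #S' := by exact_mod_cast hne.card_pos
  have hD0 : (0 : ℝ) < #D := by
    have : D.Nonempty := hE.ne.mono hE.sub
    exact_mod_cast this.card_pos
  have hHH : HH D S' ≤ HH D S + Δ := by
    unfold HH
    rw [Real.log_div hD0.ne' hS1.ne', Real.log_div hD0.ne' hS0.ne']
    have := Real.log_le_log (by positivity) hc
    rw [Real.log_mul (Real.exp_pos _).ne' hS0.ne', Real.log_exp] at this
    linarith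
  have hp1 := pen_mono (L := L) (e := e) hL he0 hHH
  have hp2 := pen_up (L := L) (e := e) hL he0 (HH D S) h0 h1
  have hlog : Real.log (QK a n S' S') ≤
      Real.log (QK a n S S) + 2 * pen L e (HH D S) / hq L e * Δ := by linarith
  calc QK a n S' S' = Real.exp (Real.log (QK a n S' S')) := (Real.exp_log hKpos').symm
    _ ≤ Real.exp (Real.log (QK a n S S) + 2 * pen L e (HH D S) / hq L e * Δ) :=
        Real.exp_le_exp.mpr hlog
    _ = _ := by rw [Real.exp_add, Real.exp_log hKpos]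

private theorem qext2_exp_bound (hΛL : Λ ≤ L) (hL : 1 ≤ L) {h : ℝ} (hh : 10 ^ 16 * L ^ 2 ≤ h) :
    h * Real.exp (Λ - h) ≤ 1 / 12 := by
  have hL2 : L ≤ L ^ 2 := by
    rw [pow_two]
    have := mul_le_mul_of_nonneg_left hL (by linarith : (0 : ℝ) ≤ L)
    linarith
  have h10 : 10 ^ 16 * L ≤ h := by linarith
  have h11 : 10 ^ 16 ≤ h := by linarith
  have hpos : 0 < h := by linarith
  have hx : h / 2 ≤ h - Λ := by linarith
  have h3 : (h / 2) ^ 2 / 2 ≤ Real.exp (h - Λ) := by
    have h4 := Real.quadratic_le_exp_of_nonneg (x := h / 2) (by linarith)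
    have h5 : Real.exp (h / 2) ≤ Real.exp (h - Λ) := Real.exp_le_exp.mpr hx
    linarith
  have h6 : Real.exp (Λ - h) = (Real.exp (h - Λ))⁻¹ := by
    rw [← Real.exp_neg]; congr 1; ring
  rw [h6, ← div_eq_mul_inv, div_le_iff₀ (Real.exp_pos _)]
  have h7 : 10 ^ 16 * h ≤ h * h := mul_le_mul_of_nonneg_right h11 hpos.le
  have h8 : (h / 2) ^ 2 / 2 = h * h / 8 := by ring
  rw [h8] at h3
  linarith

private theorem qext2_sdiff (S₁ : Finset G) (h₁ : S₁ ⊆ S) :
    (∑ x ∈ S \ S₁, ∑ y ∈ S \ S₁, QX a n x y =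
      (∑ x ∈ S, ∑ y ∈ S, QX a n x y) - 2 * (∑ x ∈ S₁, ∑ y ∈ S, QX a n x y) +
        ∑ x ∈ S₁, ∑ y ∈ S₁, QX a n x y) ∧
    (∑ x ∈ S \ S₁, ∑ y ∈ S, QX a n x y =
      (∑ x ∈ S, ∑ y ∈ S, QX a n x y) - ∑ x ∈ S₁, ∑ y ∈ S, QX a n x y) := by
  have e1 : ∑ x ∈ S \ S₁, ∑ y ∈ S, QX a n x y + ∑ x ∈ S₁, ∑ y ∈ S, QX a n x y =
      ∑ x ∈ S, ∑ y ∈ S, QX a n x y := Finset.sum_sdiff h₁
  have e2 : ∑ x ∈ S \ S₁, ∑ y ∈ S, QX a n x y =
      ∑ x ∈ S \ S₁, ∑ y ∈ S \ S₁, QX a n x y + ∑ x ∈ S \ S₁, ∑ y ∈ S₁, QX a n x y := by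
    rw [← Finset.sum_add_distrib]
    exact Finset.sum_congr rfl fun x _ => (Finset.sum_sdiff h₁).symm
  have e3 : ∑ x ∈ S \ S₁, ∑ y ∈ S₁, QX a n x y = ∑ x ∈ S₁, ∑ y ∈ S \ S₁, QX a n x y := by
    rw [Finset.sum_comm]
    exact Finset.sum_congr rfl fun x _ => Finset.sum_congr rfl fun y _ => QX_comm a n y x
  have e4 : ∑ x ∈ S₁, ∑ y ∈ S, QX a n x y =
      ∑ x ∈ S₁, ∑ y ∈ S \ S₁, QX a n x y + ∑ x ∈ S₁, ∑ y ∈ S₁, QX a n x y := by
    rw [← Finset.sum_add_distrib]
    exact Finset.sum_congr rfl fun x _ => (Finset.sum_sdiff h₁).symm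
  constructor
  · linarith
  · linarith

/-- [R3Q-E2b] 3.1 (i): `K(S₁,S) ≥ (1 - p0/h0) K` for nonempty `S₁ ⊆ S`.
Same proof as R3/Ext2.lean with `τ = 2 p0/h0`, `p0 = pen L e (HH D S) ∈ [1/12, Λ]`: case `1-β ≥ e^{-h0}`: `grow1` with
`Δ = -log(1-β)`; case `1-β < e^{-h0}`: `K(S₁,S) ≥ K - (1-β) e^Λ ≥ K - e^{Λ-h0} ≥ K - p0 K/h0`
(`K ≥ 1`, `p0 ≥ 1/12`, `e^{Λ - h0} ≤ 1/(12 h0)`). -/
theorem QExt.sub_inner (hE : QExt a n L Λ e D D' S) (hk : Kern a n Λ) (hΛL : Λ ≤ L)
    (he0 : 0 < e) (he1 : e ≤ 1 / 1000) (S₁ : Finset G) (h₁ : S₁ ⊆ S) (hne : S₁.Nonempty) :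
    (1 - pen L e (HH D S) / hq L e) * QK a n S S ≤ QK a n S₁ S := by
  classical
  have hL : 1 ≤ L := hk.one_le.trans hΛL
  have hhge := hq_ge (L := L) (e := e) hL he0 he1
  have hhexp := qext2_exp_bound (Λ := Λ) hΛL hL hhge
  have hKpos : 0 < QK a n S S := QK_self_pos a n hk.n_pos hk.m_pos S hE.ne
  have hγ0 : 1 / 12 ≤ pen L e (HH D S) := hE.pen_ge hL he0
  have hγL : pen L e (HH D S) ≤ Λ := hE.pen_le
  have hKexp : Real.exp (Real.log (QK a n S S)) = QK a n S S := Real.exp_log hKpos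
  have hKlog := hE.log_ge
  have hK1 : 1 ≤ QK a n S S := by
    rw [← hKexp]; exact Real.one_le_exp (by linarith)
  have hg1 := hE.grow1 hk hΛL he0 he1 (S \ S₁) ((sdiff_subset).trans hE.sub)
  have hhpos := hq_pos (L := L) (e := e) hL he0
  set h := hq L e with hdef
  set γ := pen L e (HH D S) with hγdef
  set K0 := QK a n S S with hK0
  have hLpos : 0 < L := by linarith
  have hL2 : L ≤ L ^ 2 := by
    rw [pow_two]
    have := mul_le_mul_of_nonneg_left hL hLpos.le
    linarith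
  have hLh : L ≤ h := by linarith
  have hγpos : 0 < γ := by linarith
  have hb : (0 : ℝ) < #S := by exact_mod_cast hE.ne.card_pos
  have ha : (0 : ℝ) < #S₁ := by exact_mod_cast hne.card_pos
  by_cases hSS : S₁ = S
  · rw [hSS]
    have h1 : 0 ≤ γ / h := by positivity
    have h2 : 0 ≤ γ / h * K0 := mul_nonneg h1 hKpos.le
    rw [← hK0, sub_mul, one_mul]
    linarith
  -- sdiff nonempty
  have hS₂ne : (S \ S₁).Nonempty := by
    rw [Finset.sdiff_nonempty]
    intro hsub
    exact hSS (Finset.Subset.antisymm h₁ hsub)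
  have hc : (0 : ℝ) < #(S \ S₁) := by exact_mod_cast hS₂ne.card_pos
  have hcard : (#(S \ S₁) : ℝ) = #S - #S₁ := by
    rw [Finset.card_sdiff_of_subset h₁, Nat.cast_sub (Finset.card_le_card h₁)]
  have hab : (#S₁ : ℝ) ≤ #S := by exact_mod_cast Finset.card_le_card h₁
  obtain ⟨e1, e2⟩ := qext2_sdiff (a := a) (n := n) S₁ h₁
  rw [← card_mul_QK, ← card_mul_QK, ← card_mul_QK, ← card_mul_QK, ← hK0] at e1
  rw [← card_mul_QK, ← card_mul_QK, ← card_mul_QK, ← hK0] at e2
  have hcs := QK_cs a n S₁ S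
  rw [← hK0] at hcs
  have hK1nn : 0 ≤ QK a n S₁ S := QK_nonneg a n hk.n_pos S₁ S
  have hKle : QK a n (S \ S₁) S ≤ Real.exp Λ :=
    QK_le a n hk.n_pos hk.m_pos hk.bd (S \ S₁) S
  generalize QK a n S₁ S = K1 at *
  generalize QK a n S₁ S₁ = K11 at *
  generalize QK a n (S \ S₁) (S \ S₁) = K2 at *
  generalize QK a n (S \ S₁) S = K3 at *
  generalize ((#S₁ : ℕ) : ℝ) = p at *
  generalize ((#S : ℕ) : ℝ) = b at *
  generalize ((#(S \ S₁) : ℕ) : ℝ) = c at *
  by_cases hcase : Real.exp (-h) * b ≤ c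
  · -- growth
    have hΔ0 : 0 ≤ Real.log (b / c) := Real.log_nonneg (by
      rw [le_div_iff₀ hc]; linarith)
    have hΔh : Real.log (b / c) ≤ h := by
      have : b / c ≤ Real.exp h := by
        rw [div_le_iff₀ hc]
        have h1 : Real.exp h * (Real.exp (-h) * b) ≤ Real.exp h * c :=
          mul_le_mul_of_nonneg_left hcase (Real.exp_pos _).le
        rw [← mul_assoc, ← Real.exp_add, add_neg_cancel, Real.exp_zero, one_mul] at h1
        exact h1
      calc Real.log (b / c) ≤ Real.log (Real.exp h) := Real.log_le_log (by positivity) this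
        _ = h := Real.log_exp h
    have hg := hg1 hS₂ne (Real.log (b / c)) hΔ0 hΔh (by
      rw [Real.exp_neg, Real.exp_log (by positivity)]
      have : (b / c)⁻¹ * b = c := by field_simp
      exact this.le)
    -- K2 ≤ K0 exp(2γ/h log(b/c))
    set s := 1 - γ / h with hs
    have hs1 : s ≤ 1 := by
      have : 0 ≤ γ / h := by positivity
      linarith
    have hs0 : 0 ≤ s := by
      have : γ / h ≤ 1 := by
        rw [div_le_one hhpos]; linarith
      linarith
    -- quadratics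
    have hq : K0 * (b * K0 - p * K1) ^ 2 ≤ K0 * (K0 * c) ^ 2 * Real.exp (2 * γ / h * Real.log (b / c)) := by
      have t1 : c * c * K2 = b * b * K0 - 2 * (p * b * K1) + p * p * K11 := e1
      have t2 : p * p * (K1 ^ 2) ≤ p * p * (K11 * K0) :=
        mul_le_mul_of_nonneg_left hcs (by positivity)
      have t3 : K0 * (c * c * K2) ≤ K0 * (c * c * (K0 * Real.exp (2 * γ / h * Real.log (b / c)))) := by
        apply mul_le_mul_of_nonneg_left _ hKpos.le
        apply mul_le_mul_of_nonneg_left hg (by positivity)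
      have t4 : (b * K0 - p * K1) ^ 2 ≤ K0 * (c * c * K2) := by
        rw [t1]
        have : (b * K0 - p * K1) ^ 2 = K0 * (b * b * K0 - 2 * (p * b * K1)) + p * p * K1 ^ 2 := by
          ring
        rw [this]
        have : K0 * (b * b * K0 - 2 * (p * b * K1) + p * p * K11) =
            K0 * (b * b * K0 - 2 * (p * b * K1)) + p * p * (K11 * K0) := by ring
        rw [this]
        linarith
      have t5 : K0 * (b * K0 - p * K1) ^ 2 ≤ K0 * (K0 * (c * c * K2)) :=
        mul_le_mul_of_nonneg_left t4 hKpos.le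
      calc K0 * (b * K0 - p * K1) ^ 2 ≤ K0 * (K0 * (c * c * K2)) := t5
        _ ≤ K0 * (K0 * (c * c * (K0 * Real.exp (2 * γ / h * Real.log (b / c))))) :=
            mul_le_mul_of_nonneg_left t3 hKpos.le
        _ = K0 * (K0 * c) ^ 2 * Real.exp (2 * γ / h * Real.log (b / c)) := by ring
    have hq2 : (b * K0 - p * K1) ^ 2 ≤ (K0 * c * Real.exp (γ / h * Real.log (b / c))) ^ 2 := by
      have : K0 * (b * K0 - p * K1) ^ 2 ≤ K0 * (K0 * c * Real.exp (γ / h * Real.log (b / c))) ^ 2 := by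
        calc _ ≤ _ := hq
          _ = _ := by
            have hee : Real.exp (2 * γ / h * Real.log (b / c)) =
                Real.exp (γ / h * Real.log (b / c)) ^ 2 := by
              rw [← Real.exp_nat_mul]
              congr 1
              push_cast
              ring
            rw [hee]
            ring
      exact le_of_mul_le_mul_left this hKpos
    have hq3 : b * K0 - p * K1 ≤ K0 * c * Real.exp (γ / h * Real.log (b / c)) :=
      le_of_sq_le_sq hq2 (by positivity)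
    -- rpow: c * exp(γ/h log(b/c)) = b * (c/b)^s ≤ b (1 - s β)
    have hbern : c * Real.exp (γ / h * Real.log (b / c)) ≤ b - s * p := by
      have hcb : 0 < c / b := by positivity
      have r1 : c * Real.exp (γ / h * Real.log (b / c)) = b * (c / b) ^ s := by
        rw [Real.rpow_def_of_pos hcb]
        have l1 : Real.log (b / c) = - Real.log (c / b) := by
          rw [← Real.log_inv, inv_div]
        have l2 : c = b * Real.exp (Real.log (c / b)) := by
          rw [Real.exp_log hcb]; field_simp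
        rw [l1]
        conv_lhs => rw [l2]
        rw [mul_assoc, ← Real.exp_add]
        congr 2
        rw [hs]
        conv_rhs => rw [mul_sub, mul_one]
        rw [Real.exp_log hcb]
        have : b * (c / b) = c := by field_simp
        rw [this]
        ring
      have r2 : (c / b) ^ s ≤ 1 + s * (c / b - 1) := by
        have := rpow_one_add_le_one_add_mul_self (s := c / b - 1) (by linarith) hs0 hs1
        simpa using this
      rw [r1]
      calc b * (c / b) ^ s ≤ b * (1 + s * (c / b - 1)) := mul_le_mul_of_nonneg_left r2 hb.le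
        _ = b + s * (c - b) := by field_simp
        _ = b - s * p := by rw [hcard]; ring
    have hfin : K0 * (c * Real.exp (γ / h * Real.log (b / c))) ≤ K0 * (b - s * p) :=
      mul_le_mul_of_nonneg_left hbern hKpos.le
    have : p * (s * K0) ≤ p * K1 := by
      have h1 : K0 * (c * Real.exp (γ / h * Real.log (b / c))) =
          K0 * c * Real.exp (γ / h * Real.log (b / c)) := by ring
      have h2 : K0 * (b - s * p) = b * K0 - p * (s * K0) := by ring
      linarith
    exact le_of_mul_le_mul_left this ha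
  · -- tiny complement
    push Not at hcase
    have t1 : c * b * K3 = b * b * K0 - p * b * K1 := e2
    have t2 : c * b * K3 ≤ c * b * Real.exp Λ :=
      mul_le_mul_of_nonneg_left hKle (by positivity)
    have t3 : b * (b * K0 - p * K1) ≤ b * (c * Real.exp Λ) := by
      have h1 : b * (b * K0 - p * K1) = b * b * K0 - p * b * K1 := by ring
      have h2 : b * (c * Real.exp Λ) = c * b * Real.exp Λ := by ring
      linarith
    have t4 : b * K0 - p * K1 ≤ c * Real.exp Λ := le_of_mul_le_mul_left t3 hb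
    have t5 : c * Real.exp Λ ≤ Real.exp (-h) * b * Real.exp Λ :=
      mul_le_mul_of_nonneg_right hcase.le (Real.exp_pos _).le
    have t6 : Real.exp (-h) * b * Real.exp Λ = b * Real.exp (Λ - h) := by
      rw [sub_eq_add_neg, Real.exp_add]; ring
    have t7 : p * K1 ≤ b * K1 := mul_le_mul_of_nonneg_right hab hK1nn
    have t8 : b * (K0 - Real.exp (Λ - h)) ≤ b * K1 := by
      have h1 : b * (K0 - Real.exp (Λ - h)) = b * K0 - b * Real.exp (Λ - h) := by ring
      linarith
    have t9 : K0 - Real.exp (Λ - h) ≤ K1 := le_of_mul_le_mul_left t8 hb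
    have t10 : Real.exp (Λ - h) ≤ γ / h * K0 := by
      have : γ / h * K0 = (γ * K0) / h := by ring
      rw [this, le_div_iff₀ hhpos]
      have h1 : γ * 1 ≤ γ * K0 := mul_le_mul_of_nonneg_left hK1 hγpos.le
      linarith
    rw [sub_mul, one_mul]
    linarith

end R3
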