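import Pool.Agent.MP_0f71ae_nt.R3Q.Basic

/-!
# [R3Q] Sifting for pairs with thresholds (section 2 of R3_QUARTER.md)
-/

set_option linter.unusedSectionVars false

open Finset

namespace R3

variable {G : Type*} [AddCommGroup G] [Fintype G] [DecidableEq G]

private theorem qs1_count (m k : ℕ) (h : k ≤ m) :
    ∑ j : Fin m, (if (j : ℕ) < k then (1 : ℝ) else 0) = k := by
  rw [Fin.sum_univ_eq_sum_range (fun j => if j < k then (1 : ℝ) else 0) m, Finset.sum_ite,
    Finset.sum_const_zero, add_zero, Finset.sum_const, nsmul_eq_mul, mul_one]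
  congr 1
  have : (Finset.range m).filter (fun j => j < k) = Finset.range k := by
    ext j
    simp only [Finset.mem_filter, Finset.mem_range]
    omega
  rw [this, Finset.card_range]

private theorem qs1_sum (a : G → ℕ) (m : ℕ) (hm : ∀ w, a w ≤ m) (x y : G) :
    ∑ t : G × Fin m × Fin m, ((if (t.2.1 : ℕ) < a (t.1 + x) then (1 : ℝ) else 0) *
      (if (t.2.2 : ℕ) < a (t.1 + y) then (1 : ℝ) else 0)) =
    ∑ w : G, (a (w + x) : ℝ) * a (w + y) := by
  rw [Fintype.sum_prod_type]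
  refine Finset.sum_congr rfl fun w _ => ?_
  rw [Fintype.sum_prod_type]
  have h := Finset.sum_mul_sum (univ : Finset (Fin m)) (univ : Finset (Fin m))
    (fun j => if (j : ℕ) < a (w + x) then (1 : ℝ) else 0)
    (fun j => if (j : ℕ) < a (w + y) then (1 : ℝ) else 0)
  rw [qs1_count m _ (hm _), qs1_count m _ (hm _)] at h
  exact h.symm

private theorem qs1_exchange (a : G → ℕ) (m : ℕ) (hm : ∀ w, a w ≤ m) (S Y : Finset G) (q : ℕ)
    (h : G → G → ℝ) :
    ∑ z : Fin q → G × Fin m × Fin m,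
      ∑ x ∈ S.filter (fun x => ∀ i, ((z i).2.1 : ℕ) < a ((z i).1 + x)),
      ∑ y ∈ Y.filter (fun y => ∀ i, ((z i).2.2 : ℕ) < a ((z i).1 + y)), h x y =
    ∑ x ∈ S, ∑ y ∈ Y, h x y * (∑ w : G, (a (w + x) : ℝ) * a (w + y)) ^ q := by
  have hind : ∀ (p : Fin q → Prop) [DecidablePred p],
      (∏ i, if p i then (1 : ℝ) else 0) = if ∀ i, p i then 1 else 0 := by
    intro p _
    by_cases hx : ∀ i, p i
    · rw [if_pos hx]
      exact Finset.prod_eq_one fun i _ => if_pos (hx i)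
    · rw [if_neg hx]
      push Not at hx
      obtain ⟨i, hi⟩ := hx
      exact Finset.prod_eq_zero (Finset.mem_univ i) (if_neg hi)
  have h1 : ∀ z : Fin q → G × Fin m × Fin m,
      ∑ x ∈ S.filter (fun x => ∀ i, ((z i).2.1 : ℕ) < a ((z i).1 + x)),
      ∑ y ∈ Y.filter (fun y => ∀ i, ((z i).2.2 : ℕ) < a ((z i).1 + y)), h x y =
      ∑ x ∈ S, ∑ y ∈ Y, h x y *
        ∏ i, ((if ((z i).2.1 : ℕ) < a ((z i).1 + x) then (1 : ℝ) else 0) *
        (if ((z i).2.2 : ℕ) < a ((z i).1 + y) then (1 : ℝ) else 0)) := by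
    intro z
    rw [Finset.sum_filter]
    refine Finset.sum_congr rfl fun x _ => ?_
    rw [Finset.sum_filter]
    by_cases hx : ∀ i, ((z i).2.1 : ℕ) < a ((z i).1 + x)
    · rw [if_pos hx]
      refine Finset.sum_congr rfl fun y _ => ?_
      rw [Finset.prod_mul_distrib, hind, hind, if_pos hx, one_mul, mul_ite, mul_one, mul_zero]
    · rw [if_neg hx]
      symm
      refine Finset.sum_eq_zero fun y _ => ?_
      rw [Finset.prod_mul_distrib, hind, if_neg hx, zero_mul, mul_zero]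
  simp_rw [h1]
  rw [Finset.sum_comm]
  refine Finset.sum_congr rfl fun x _ => ?_
  rw [Finset.sum_comm]
  refine Finset.sum_congr rfl fun y _ => ?_
  rw [← Finset.mul_sum, ← qs1_sum a m hm x y, Fintype.sum_pow]

/-- [R3Q-S1] Sifting for pairs with thresholds.
Proof (same as `R3.sift` in R3/Sift1.lean, with thresholds).  `m0 := max a ≥ 1` (`sup univ a`).  For
`w : Fin q → G`, `u v : Fin q → Fin m0` put `S₁ = {x ∈ S : u i < a (w i + x) ∀ i}`,
`Y₁ = {y ∈ Y : v i < a (w i + y) ∀ i}`.  For `x, y` fixed: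
`∑_{w,u,v} 1[x ∈ S₁] 1[y ∈ Y₁] = ∑_w ∏_i a(w i + x) a(w i + y) = (∑_w a(w+x) a(w+y))^q` and
`∑_w a(w+x) a(w+y) = (|a|²/n) X(x,y)`.  So
`∑_{w,u,v} |S₁||Y₁| (K(S₁,Y₁) - θ) = |S||Y| (|a|²/n)^q (Φ_{q+1} - θ Φ_q) = P > 0`  (`card_mul_QK`).
Terms with some `w i ∉ W` vanish (`S₁ = ∅`), the other triples number `≤ (2n)^q m0^{2q}`; each term is
`≤ |S₁||Y₁| R` (`QK_le`, `θ ≥ 0`).  So some triple has `|S₁||Y₁| R ≥ |S₁||Y₁|(K - θ) ≥ P/((2n)^q m0^{2q}) > 0`; and
`n m0 ≤ R |a|`, so `(|a|²/n)^q/((2n)^q m0^{2q}) = (|a|/(n m0))^{2q}/2^q ≥ 2^{-q} R^{-2q}`. -/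
theorem qsift (a : G → ℕ) (n R : ℝ) (hn : 0 < n) (hm : 0 < mass a)
    (hR : ∀ w, n * a w ≤ R * mass a) (S Y W : Finset G)
    (hS : S.Nonempty) (hY : Y.Nonempty) (hW : (#W : ℝ) ≤ 2 * n)
    (hSW : ∀ x ∈ S, ∀ w, a (w + x) ≠ 0 → w ∈ W) (q : ℕ) (θ : ℝ) (hθ0 : 0 ≤ θ)
    (hθ : θ * QPhi a n S Y q < QPhi a n S Y (q + 1)) :
    ∃ S₁ ⊆ S, ∃ Y₁ ⊆ Y, S₁.Nonempty ∧ Y₁.Nonempty ∧ θ ≤ QK a n S₁ Y₁ ∧
      (#S * #Y : ℝ) * ((1 / 2) ^ q * (1 / R) ^ (2 * q + 1) *
        (QPhi a n S Y (q + 1) - θ * QPhi a n S Y q)) ≤ #S₁ * #Y₁ := by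
  have hS0 : (0 : ℝ) < #S := by exact_mod_cast hS.card_pos
  have hY0 : (0 : ℝ) < #Y := by exact_mod_cast hY.card_pos
  -- the maximum of `a`
  obtain ⟨w₀, -, hw₀⟩ := Finset.exists_mem_eq_sup (univ : Finset G) ⟨0, mem_univ 0⟩ a
  set m : ℕ := univ.sup a with hm0
  have hle : ∀ w, a w ≤ m := fun w => Finset.le_sup (f := a) (mem_univ w)
  have hmpos : 0 < m := by
    by_contra hcon
    have h0 : ∀ w, (a w : ℝ) = 0 := by
      intro w
      have := hle w
      have h1 : a w = 0 := by omega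
      rw [h1, Nat.cast_zero]
    have : mass a = 0 := by
      unfold mass
      exact Finset.sum_eq_zero fun w _ => h0 w
    linarith
  have hmR : (0 : ℝ) < m := by exact_mod_cast hmpos
  have hnm : n * m ≤ R * mass a := by
    have := hR w₀
    rw [← hw₀] at this
    exact this
  have hR0 : 0 < R := by
    by_contra hcon
    push Not at hcon
    have h1 : R * mass a ≤ 0 := mul_nonpos_of_nonpos_of_nonneg hcon hm.le
    have h2 : 0 < n * m := by positivity
    linarith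
  set c : ℝ := mass a ^ 2 / n with hc
  have hc0 : 0 < c := by positivity
  have hcnt : ∀ x y : G, ∑ w : G, (a (w + x) : ℝ) * a (w + y) = c * QX a n x y := by
    intro x y
    unfold QX
    rw [hc]
    field_simp
  set P : ℝ := (#S * #Y : ℝ) * (c ^ q * (QPhi a n S Y (q + 1) - θ * QPhi a n S Y q)) with hP
  have hdiff : 0 < QPhi a n S Y (q + 1) - θ * QPhi a n S Y q := by linarith
  have hP0 : 0 < P := by positivity
  obtain ⟨SS, hSS⟩ : ∃ SS : (Fin q → G × Fin m × Fin m) → Finset G, ∀ z, SS z =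
    S.filter (fun x => ∀ i, ((z i).2.1 : ℕ) < a ((z i).1 + x)) := ⟨_, fun z => rfl⟩
  obtain ⟨YY, hYY⟩ : ∃ YY : (Fin q → G × Fin m × Fin m) → Finset G, ∀ z, YY z =
    Y.filter (fun y => ∀ i, ((z i).2.2 : ℕ) < a ((z i).1 + y)) := ⟨_, fun z => rfl⟩
  obtain ⟨term, hterm⟩ : ∃ term : (Fin q → G × Fin m × Fin m) → ℝ, ∀ z, term z =
    ∑ x ∈ SS z, ∑ y ∈ YY z, (QX a n x y - θ) := ⟨_, fun z => rfl⟩
  have htot : ∑ z, term z = P := by
    have h0 := qs1_exchange a m hle S Y q (fun x y => QX a n x y - θ)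
    have h1 : ∀ x y : G, (QX a n x y - θ) * (∑ w : G, (a (w + x) : ℝ) * a (w + y)) ^ q =
        c ^ q * (QX a n x y ^ (q + 1)) - c ^ q * θ * QX a n x y ^ q := by
      intro x y
      rw [hcnt, mul_pow]
      ring
    have h3 : ∑ x ∈ S, ∑ y ∈ Y, (QX a n x y - θ) * (∑ w : G, (a (w + x) : ℝ) * a (w + y)) ^ q =
        c ^ q * ∑ x ∈ S, ∑ y ∈ Y, QX a n x y ^ (q + 1) -
        c ^ q * θ * ∑ x ∈ S, ∑ y ∈ Y, QX a n x y ^ q := by
      simp_rw [h1, Finset.sum_sub_distrib, ← Finset.mul_sum]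
    have h2 : P = c ^ q * ∑ x ∈ S, ∑ y ∈ Y, QX a n x y ^ (q + 1) -
        c ^ q * θ * ∑ x ∈ S, ∑ y ∈ Y, QX a n x y ^ q := by
      rw [hP]
      unfold QPhi
      field_simp
    rw [h2, ← h3, ← h0]
    refine Finset.sum_congr rfl fun z _ => ?_
    rw [hterm, hSS, hYY]
  have hterm2 : ∀ z, term z = (#(SS z) * #(YY z) : ℝ) * (QK a n (SS z) (YY z) - θ) := by
    intro z
    rw [mul_sub, card_mul_QK]
    rw [hterm]
    simp only [Finset.sum_sub_distrib, Finset.sum_const, nsmul_eq_mul]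
    ring
  set Z : Finset (Fin q → G × Fin m × Fin m) :=
    Fintype.piFinset (fun _ : Fin q => W ×ˢ (univ : Finset (Fin m × Fin m))) with hZ
  have hzero : ∀ z, z ∉ Z → term z = 0 := by
    intro z hz
    rw [hZ, Fintype.mem_piFinset] at hz
    push Not at hz
    obtain ⟨i, hi⟩ := hz
    have hSe : SS z = ∅ := by
      rw [hSS, Finset.filter_eq_empty_iff]
      intro x hx hcon
      apply hi
      rw [Finset.mem_product]
      refine ⟨hSW x hx _ ?_, mem_univ _⟩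
      have := hcon i
      omega
    rw [hterm, hSe, Finset.sum_empty]
  have htot2 : ∑ z ∈ Z, term z = P := by
    rw [← htot]
    exact Finset.sum_subset (Finset.subset_univ _) fun z _ hz => hzero z hz
  have hne : Z.Nonempty := by
    rw [Finset.nonempty_iff_ne_empty]
    intro h
    rw [h, Finset.sum_empty] at htot2
    exact hP0.ne htot2
  have hcard : (Z.card : ℝ) ≤ (2 * n * m ^ 2) ^ q := by
    rw [hZ, Fintype.card_piFinset_const, Nat.cast_pow]
    refine pow_le_pow_left₀ (by positivity) ?_ _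
    rw [Finset.card_product, Nat.cast_mul, Finset.card_univ, Fintype.card_prod, Fintype.card_fin,
      Nat.cast_mul, ← sq]
    exact mul_le_mul_of_nonneg_right hW (by positivity)
  have h2n : 0 < (2 * n * (m : ℝ) ^ 2) ^ q := by positivity
  obtain ⟨z, -, hz⟩ := Finset.exists_le_of_sum_le (f := fun _ => P / (2 * n * (m : ℝ) ^ 2) ^ q)
    (g := term) hne (by
      rw [htot2, Finset.sum_const, nsmul_eq_mul, mul_div_assoc', div_le_iff₀ h2n, mul_comm]
      exact mul_le_mul_of_nonneg_left hcard hP0.le)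
  have hz0 : 0 < term z := lt_of_lt_of_le (by positivity) hz
  refine ⟨SS z, by rw [hSS]; exact Finset.filter_subset _ _, YY z,
    by rw [hYY]; exact Finset.filter_subset _ _, ?_, ?_, ?_, ?_⟩
  · rw [Finset.nonempty_iff_ne_empty]
    intro h
    rw [hterm2, h, Finset.card_empty, Nat.cast_zero] at hz0
    simp only [zero_mul, lt_self_iff_false] at hz0
  · rw [Finset.nonempty_iff_ne_empty]
    intro h
    rw [hterm2, h, Finset.card_empty, Nat.cast_zero] at hz0
    simp only [zero_mul, mul_zero, lt_self_iff_false] at hz0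
  · by_contra hcon
    push Not at hcon
    rw [hterm2] at hz0
    have h3 : (#(SS z) * #(YY z) : ℝ) * (QK a n (SS z) (YY z) - θ) ≤ 0 :=
      mul_nonpos_of_nonneg_of_nonpos (mul_nonneg (Nat.cast_nonneg _) (Nat.cast_nonneg _))
        (sub_nonpos.mpr hcon.le)
    exact absurd hz0 (not_lt.mpr h3)
  · have hK := QK_le a n hn hm hR (SS z) (YY z)
    have hB0 : (0 : ℝ) ≤ #(SS z) * #(YY z) :=
      mul_nonneg (Nat.cast_nonneg _) (Nat.cast_nonneg _)
    have h4 : P / (2 * n * (m : ℝ) ^ 2) ^ q ≤ (#(SS z) * #(YY z) : ℝ) * R := by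
      refine hz.trans ?_
      rw [hterm2]
      exact mul_le_mul_of_nonneg_left ((sub_le_self _ hθ0).trans hK) hB0
    have h5 : (1 / 2 : ℝ) ^ q * (1 / R) ^ (2 * q) ≤ c ^ q / (2 * n * (m : ℝ) ^ 2) ^ q := by
      rw [pow_mul, ← mul_pow, ← div_pow]
      refine pow_le_pow_left₀ (by positivity) ?_ _
      rw [hc, div_div, one_div_pow, one_div_mul_one_div, div_le_div_iff₀ (by positivity)
        (by positivity)]
      have h6 : (n * m) ^ 2 ≤ (R * mass a) ^ 2 := pow_le_pow_left₀ (by positivity) hnm 2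
      nlinarith [h6]
    have h7 : (#S * #Y : ℝ) * ((1 / 2) ^ q * (1 / R) ^ (2 * q + 1) *
        (QPhi a n S Y (q + 1) - θ * QPhi a n S Y q)) ≤ P / (2 * n * (m : ℝ) ^ 2) ^ q * (1 / R) := by
      have h8 : P / (2 * n * (m : ℝ) ^ 2) ^ q * (1 / R) =
          (#S * #Y : ℝ) * ((c ^ q / (2 * n * (m : ℝ) ^ 2) ^ q) * (1 / R) *
          (QPhi a n S Y (q + 1) - θ * QPhi a n S Y q)) := by
        rw [hP]
        ring
      rw [h8, pow_succ, ← mul_assoc ((1 / 2 : ℝ) ^ q)]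
      have hRi : 0 ≤ 1 / R := (one_div_pos.mpr hR0).le
      exact mul_le_mul_of_nonneg_left (mul_le_mul_of_nonneg_right
        (mul_le_mul_of_nonneg_right h5 hRi) hdiff.le) (mul_pos hS0 hY0).le
    refine h7.trans ?_
    calc P / (2 * n * (m : ℝ) ^ 2) ^ q * (1 / R) ≤ (#(SS z) * #(YY z) : ℝ) * R * (1 / R) :=
          mul_le_mul_of_nonneg_right h4 (one_div_pos.mpr hR0).le
      _ = #(SS z) * #(YY z) := by
          rw [mul_assoc, mul_one_div_cancel hR0.ne', mul_one]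

end R3
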