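import Pool.Agent.MP_0f71ae_nt.R3Q.Ext2
import Pool.Agent.MP_0f71ae_nt.R3Q.Sift

/-!
# [R3Q] 3.2 (ii): the second moment
-/

set_option linter.unusedSectionVars false

open Finset

namespace R3

variable {G : Type*} [AddCommGroup G] [Fintype G] [DecidableEq G]
variable {a : G → ℕ} {n L Λ e : ℝ} {D D' S : Finset G}

/-- [R3Q-E3] 3.2 (ii): second moment, `s0 = e³/2`.
Proof (as R3/Ext3.lean).  `K = K(S,S) = Φ_1 ≥ 1`.  Suppose `Φ₂ > (1+s0)K²` (so `Φ₂ ≥ 1`).  `qsift` with `Y = S`, `q = 1`,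
`R = e^Λ`, `θ = (1 - s0/4)Φ₂/K`: `S₁, Y₁ ⊆ S`, `|S₁||Y₁| ≥ |S|²·½ e^{-3Λ}(s0/4)Φ₂ ≥ |S|² e^{-Δt}`, `Δt = log 2 + 3Λ + log(4/s0)`.
`Δ₁ = log(|S|/|S₁|)`, `Δ₂ = log(|S|/|Y₁|)`, `Δ₁ + Δ₂ ≤ Δt ≤ h0`; `θ² ≤ K(S₁,Y₁)² ≤ K(S₁)K(Y₁) ≤ K² exp((2p0/h0)(Δ₁+Δ₂))`
(`QK_cs`, `grow1`).  So `(1-s0/4)Φ₂ ≤ K² exp(p0 Δt/h0)`, `p0 ≤ Λ ≤ L`, `p0Δt/h0 ≤ (5.8 + 3/e) e⁴/10⁴ ≤ e³/1000`, and
`exp(e³/1000)/(1 - e³/8) ≤ 1 + e³/2`. -/
theorem QExt.second_moment (hE : QExt a n L Λ e D D' S) (hk : Kern a n Λ) (hΛL : Λ ≤ L)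
    (he0 : 0 < e) (he1 : e ≤ 1 / 1000) (W : Finset G) (hW : (#W : ℝ) ≤ 2 * n)
    (hSW : ∀ x ∈ S, ∀ w, a (w + x) ≠ 0 → w ∈ W) :
    QPhi a n S S 2 ≤ (1 + e ^ 3 / 2) * QK a n S S ^ 2 := by
  by_contra hcon
  rw [not_le] at hcon
  have hΛ1 : 1 ≤ Λ := hk.one_le
  have hL : 1 ≤ L := hΛ1.trans hΛL
  have hq0 : 0 < hq L e := hq_pos hL he0
  have hp0 := hE.pen_ge hL he0
  have hp1 := hE.pen_le
  have hlog := hE.log_ge
  obtain ⟨p, hp⟩ : ∃ p, p = pen L e (HH D S) := ⟨_, rfl⟩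
  rw [← hp] at hp0 hp1 hlog
  obtain ⟨κ, hκ⟩ : ∃ κ, κ = QK a n S S := ⟨_, rfl⟩
  obtain ⟨Φ, hΦ⟩ : ∃ Φ, Φ = QPhi a n S S 2 := ⟨_, rfl⟩
  rw [← hκ, ← hΦ] at hcon
  rw [← hκ] at hlog
  have hκ0 : 0 < κ := by
    rw [hκ]
    exact QK_self_pos a n hk.n_pos hk.m_pos S hE.ne
  have hκ1 : 1 ≤ κ := by
    by_contra h
    rw [not_le] at h
    have h1 := Real.log_neg hκ0 h
    linarith
  obtain ⟨u, hu⟩ : ∃ u, u = e ^ 3 := ⟨_, rfl⟩
  rw [← hu] at hcon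
  have hu0 : 0 < u := by rw [hu]; positivity
  have hu1 : u ≤ 1 / 1000000000 := by
    rw [hu]
    calc e ^ 3 ≤ (1 / 1000) ^ 3 := pow_le_pow_left₀ he0.le he1 3
      _ = 1 / 1000000000 := by norm_num
  have hκ2 : 1 ≤ κ ^ 2 := one_le_pow₀ hκ1
  have hΦ1 : 1 ≤ Φ := by nlinarith
  have hΦ0 : 0 < Φ := by linarith
  have hθ0 : 0 ≤ (1 - u / 8) * Φ / κ := by
    apply div_nonneg _ hκ0.le
    apply mul_nonneg (by linarith) hΦ0.le
  -- sifting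
  obtain ⟨S₁, hS₁, Y₁, hY₁, hS₁ne, hY₁ne, hθ, hcard⟩ := qsift a n (Real.exp Λ) hk.n_pos hk.m_pos
    hk.bd S S W hE.ne hE.ne hW hSW 1 ((1 - u / 8) * Φ / κ) hθ0 (by
      rw [QPhi_one, ← hκ, div_mul_cancel₀ _ hκ0.ne']
      show (1 - u / 8) * Φ < QPhi a n S S 2
      rw [← hΦ]
      nlinarith)
  have e1 : QPhi a n S S (1 + 1) - (1 - u / 8) * Φ / κ * QPhi a n S S 1 = u / 8 * Φ := by
    rw [QPhi_one, ← hκ, div_mul_cancel₀ _ hκ0.ne']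
    show QPhi a n S S 2 - _ = _
    rw [← hΦ]
    ring
  rw [e1] at hcard
  have hbS : (0 : ℝ) < #S := by exact_mod_cast hE.ne.card_pos
  have hbS₁ : (0 : ℝ) < #S₁ := by exact_mod_cast hS₁ne.card_pos
  have hbY₁ : (0 : ℝ) < #Y₁ := by exact_mod_cast hY₁ne.card_pos
  have hcS₁ : (#S₁ : ℝ) ≤ #S := by exact_mod_cast card_le_card hS₁
  have hcY₁ : (#Y₁ : ℝ) ≤ #S := by exact_mod_cast card_le_card hY₁
  obtain ⟨Δ₁, hΔ₁⟩ : ∃ Δ₁, Δ₁ = Real.log ((#S : ℝ) / #S₁) := ⟨_, rfl⟩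
  obtain ⟨Δ₂, hΔ₂⟩ : ∃ Δ₂, Δ₂ = Real.log ((#S : ℝ) / #Y₁) := ⟨_, rfl⟩
  have hΔ₁0 : 0 ≤ Δ₁ := by
    rw [hΔ₁]
    exact Real.log_nonneg ((one_le_div hbS₁).2 hcS₁)
  have hΔ₂0 : 0 ≤ Δ₂ := by
    rw [hΔ₂]
    exact Real.log_nonneg ((one_le_div hbY₁).2 hcY₁)
  have hlog2 : 0 < Real.log 2 := Real.log_pos (by norm_num)
  have hlog2' := Real.log_two_lt_d9
  -- `Δ₁ + Δ₂ ≤ 4 log 2 + 3 Λ + 3/e`
  have hsum : Δ₁ + Δ₂ ≤ 4 * Real.log 2 + 3 * Λ + 3 / e := by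
    have h1 : (#S * #S : ℝ) * ((1 / 2) ^ 4 * Real.exp (-Λ) ^ 3 * u) ≤ #S₁ * #Y₁ := by
      refine le_trans ?_ hcard
      have h2 : (1 / Real.exp Λ : ℝ) = Real.exp (-Λ) := by rw [Real.exp_neg, one_div]
      rw [h2]
      apply mul_le_mul_of_nonneg_left _ (by positivity)
      have h3 : (0 : ℝ) < Real.exp (-Λ) ^ 3 := by positivity
      calc (1 / 2 : ℝ) ^ 4 * Real.exp (-Λ) ^ 3 * u
          = (1 / 2) ^ 1 * Real.exp (-Λ) ^ (2 * 1 + 1) * (u / 8 * 1) := by ring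
        _ ≤ (1 / 2) ^ 1 * Real.exp (-Λ) ^ (2 * 1 + 1) * (u / 8 * Φ) := by gcongr
    have h4 := Real.log_le_log (by positivity) h1
    rw [Real.log_mul (by positivity) (by positivity), Real.log_mul (by positivity) (by positivity),
      Real.log_mul (by positivity) (by positivity), Real.log_mul (by positivity) (by positivity),
      Real.log_mul hbS₁.ne' hbY₁.ne', Real.log_pow, Real.log_pow, Real.log_exp, one_div,
      Real.log_inv, hu, Real.log_pow] at h4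
    push_cast at h4
    have h5 : -(1 / e) ≤ Real.log e := by
      have h6 := Real.log_le_sub_one_of_pos (show (0 : ℝ) < e⁻¹ by positivity)
      rw [Real.log_inv] at h6
      rw [one_div]
      linarith
    rw [hΔ₁, hΔ₂, Real.log_div hbS.ne' hbS₁.ne', Real.log_div hbS.ne' hbY₁.ne']
    have h7 : 3 / e = 3 * (1 / e) := by ring
    rw [h7]
    linarith
  have hΔt : Δ₁ + Δ₂ ≤ 10 * L / e := by
    refine hsum.trans ?_
    rw [le_div_iff₀ he0, add_mul, div_mul_cancel₀ _ he0.ne']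
    have h1 : 4 * Real.log 2 + 3 * Λ ≤ 6 * L := by
      norm_num at hlog2'
      linarith
    have h2 : (4 * Real.log 2 + 3 * Λ) * e ≤ 6 * L * (1 / 1000) :=
      mul_le_mul h1 he1 he0.le (by linarith)
    linarith
  have hhe : hq L e * (u / 1000) = 10 * L / e * L := by
    rw [hu]
    unfold hq
    field_simp
    norm_num
  have hx : p / hq L e * (Δ₁ + Δ₂) ≤ u / 1000 := by
    rw [div_mul_eq_mul_div, div_le_iff₀ hq0, mul_comm (u / 1000), hhe]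
    calc p * (Δ₁ + Δ₂) ≤ L * (10 * L / e) :=
          mul_le_mul (hp1.trans hΛL) hΔt (by linarith) (by linarith)
      _ = _ := mul_comm _ _
  have hΔh : Δ₁ + Δ₂ ≤ hq L e := by
    refine hΔt.trans ?_
    have h1 : 10 * L / e ≤ 10 * L / e * L := le_mul_of_one_le_right (by positivity) hL
    rw [← hhe] at h1
    refine h1.trans ?_
    exact mul_le_of_le_one_right hq0.le (by linarith)
  have hgS := hE.grow1 hk hΛL he0 he1 S₁ (hS₁.trans hE.sub) hS₁ne Δ₁ hΔ₁0 (by linarith) (by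
    rw [hΔ₁, Real.exp_neg, Real.exp_log (by positivity), inv_div, div_mul_cancel₀ _ hbS.ne'])
  have hgY := hE.grow1 hk hΛL he0 he1 Y₁ (hY₁.trans hE.sub) hY₁ne Δ₂ hΔ₂0 (by linarith) (by
    rw [hΔ₂, Real.exp_neg, Real.exp_log (by positivity), inv_div, div_mul_cancel₀ _ hbS.ne'])
  rw [← hκ, ← hp] at hgS hgY
  have hcs := QK_cs a n S₁ Y₁
  have hθ2 : ((1 - u / 8) * Φ / κ) ^ 2 ≤ (κ * Real.exp (p / hq L e * (Δ₁ + Δ₂))) ^ 2 := by
    calc ((1 - u / 8) * Φ / κ) ^ 2 ≤ QK a n S₁ Y₁ ^ 2 := pow_le_pow_left₀ hθ0 hθ 2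
      _ ≤ QK a n S₁ S₁ * QK a n Y₁ Y₁ := hcs
      _ ≤ (κ * Real.exp (2 * p / hq L e * Δ₁)) * (κ * Real.exp (2 * p / hq L e * Δ₂)) :=
          mul_le_mul hgS hgY (QK_nonneg a n hk.n_pos _ _) (by positivity)
      _ = (κ * Real.exp (p / hq L e * (Δ₁ + Δ₂))) ^ 2 := by
          have h1 : Real.exp (2 * p / hq L e * Δ₁) * Real.exp (2 * p / hq L e * Δ₂) =
              Real.exp (p / hq L e * (Δ₁ + Δ₂)) ^ 2 := by
            rw [← Real.exp_add, ← Real.exp_nat_mul]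
            congr 1
            push_cast
            ring
          calc _ = κ ^ 2 * (Real.exp (2 * p / hq L e * Δ₁) * Real.exp (2 * p / hq L e * Δ₂)) := by
                ring
            _ = _ := by rw [h1]; ring
  have hθ3 : (1 - u / 8) * Φ / κ ≤ κ * Real.exp (p / hq L e * (Δ₁ + Δ₂)) :=
    le_of_sq_le_sq hθ2 (by positivity)
  obtain ⟨x, hxe⟩ : ∃ x, x = p / hq L e * (Δ₁ + Δ₂) := ⟨_, rfl⟩
  rw [← hxe] at hθ3 hx
  have hex : Real.exp x * (1 - x) ≤ 1 := by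
    have h1 : 1 - x ≤ Real.exp (-x) := Real.one_sub_le_exp_neg x
    calc Real.exp x * (1 - x) ≤ Real.exp x * Real.exp (-x) :=
          mul_le_mul_of_nonneg_left h1 (Real.exp_pos _).le
      _ = 1 := by rw [← Real.exp_add, add_neg_cancel, Real.exp_zero]
  have hfin : (1 - u / 8) * Φ ≤ κ ^ 2 * Real.exp x := by
    rw [div_le_iff₀ hκ0] at hθ3
    calc (1 - u / 8) * Φ ≤ κ * Real.exp x * κ := hθ3
      _ = _ := by ring
  have hfin2 : (1 - u / 8) * Φ * (1 - x) ≤ κ ^ 2 := by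
    calc (1 - u / 8) * Φ * (1 - x) ≤ κ ^ 2 * Real.exp x * (1 - x) :=
          mul_le_mul_of_nonneg_right hfin (by linarith)
      _ = κ ^ 2 * (Real.exp x * (1 - x)) := by ring
      _ ≤ κ ^ 2 * 1 := mul_le_mul_of_nonneg_left hex (by positivity)
      _ = κ ^ 2 := mul_one _
  have hfin3 : (1 - u / 8) * Φ * (1 - u / 1000) ≤ κ ^ 2 := by
    refine le_trans ?_ hfin2
    apply mul_le_mul_of_nonneg_left _ (by
      apply mul_nonneg (by linarith) hΦ0.le)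
    linarith
  have hc1 : 1 ≤ (1 - u / 8) * (1 - u / 1000) * (1 + u / 2) := by
    have huu : 0 < u * u := mul_pos hu0 hu0
    have huu2 : u * u ≤ u * (1 / 1000000000) := mul_le_mul_of_nonneg_left hu1 hu0.le
    have a1 : 1 - 126 / 1000 * u ≤ (1 - u / 8) * (1 - u / 1000) := by
      have : (1 - u / 8) * (1 - u / 1000) = 1 - 126 / 1000 * u + u * u / 8000 := by ring
      rw [this]
      linarith
    have a2 : 1 ≤ (1 - 126 / 1000 * u) * (1 + u / 2) := by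
      have : (1 - 126 / 1000 * u) * (1 + u / 2) = 1 + 374 / 1000 * u - 63 / 1000 * (u * u) := by
        ring
      rw [this]
      linarith
    exact a2.trans (mul_le_mul_of_nonneg_right a1 (by linarith))
  have hc2 : (1 - u / 8) * (1 - u / 1000) * ((1 + u / 2) * κ ^ 2) <
      (1 - u / 8) * (1 - u / 1000) * Φ := by
    apply mul_lt_mul_of_pos_left hcon
    apply mul_pos <;> linarith
  have hc3 : 1 * κ ^ 2 ≤ (1 - u / 8) * (1 - u / 1000) * (1 + u / 2) * κ ^ 2 :=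
    mul_le_mul_of_nonneg_right hc1 (by positivity)
  linarith

end R3
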