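import Pool.Agent.MP_0f71ae_nt.R3Q.Ext2
import Pool.Agent.MP_0f71ae_nt.R3Q.Sift
import Pool.Agent.MP_0f71ae_nt.R3.Sift2

/-!
# [R3Q] 3.3 (iii'): the KEY LEMMA
-/

set_option linter.unusedSectionVars false

open Finset

namespace R3

variable {G : Type*} [AddCommGroup G] [Fintype G] [DecidableEq G]
variable {a : G → ℕ} {n L Λ e : ℝ} {D D' S : Finset G}

/-- (a) -/
private theorem qext4_phi {K0 ℓ : ℝ} (hn : 0 < n) (hK0 : 0 < K0) (he1 : e ≤ 1)
    (Y : Finset G) (hS : S.Nonempty) (hY : Y.Nonempty)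
    (h : ∀ y ∈ Y, Real.exp (-ℓ) * #S ≤ #(S.filter (fun x => (1 - e) * K0 ≤ QX a n x y)))
    (j : ℕ) : Real.exp (-ℓ) * ((1 - e) * K0) ^ j ≤ QPhi a n S Y j := by
  unfold QPhi
  have h1 : (0 : ℝ) < #S := by exact_mod_cast hS.card_pos
  have h2 : (0 : ℝ) < #Y := by exact_mod_cast hY.card_pos
  rw [le_div_iff₀ (by positivity), Finset.sum_comm]
  have hbase : 0 ≤ (1 - e) * K0 := by
    have : (0 : ℝ) ≤ 1 - e := by linarith
    positivity
  have key : ∀ y ∈ Y, Real.exp (-ℓ) * #S * ((1 - e) * K0) ^ j ≤ ∑ x ∈ S, QX a n x y ^ j := by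
    intro y hy
    calc Real.exp (-ℓ) * #S * ((1 - e) * K0) ^ j
        ≤ #(S.filter (fun x => (1 - e) * K0 ≤ QX a n x y)) * ((1 - e) * K0) ^ j :=
          mul_le_mul_of_nonneg_right (h y hy) (by positivity)
      _ = ∑ x ∈ S.filter (fun x => (1 - e) * K0 ≤ QX a n x y), ((1 - e) * K0) ^ j := by
          rw [sum_const, nsmul_eq_mul]
      _ ≤ ∑ x ∈ S.filter (fun x => (1 - e) * K0 ≤ QX a n x y), QX a n x y ^ j := by
          apply Finset.sum_le_sum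
          intro x hx
          rw [mem_filter] at hx
          exact pow_le_pow_left₀ hbase hx.2 j
      _ ≤ ∑ x ∈ S, QX a n x y ^ j :=
          Finset.sum_le_sum_of_subset_of_nonneg (filter_subset _ _)
            fun x _ _ => pow_nonneg (QX_nonneg a n hn x y) j
  calc Real.exp (-ℓ) * ((1 - e) * K0) ^ j * (#S * #Y)
      = ∑ y ∈ Y, Real.exp (-ℓ) * #S * ((1 - e) * K0) ^ j := by
        rw [sum_const, nsmul_eq_mul]; ring
    _ ≤ _ := Finset.sum_le_sum key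

/-- final numerics, from the Cauchy-Schwarz inequality -/
private theorem qext4_final {K0 K11 K1S KY d g u v : ℝ} (hK0 : 0 < K0)
    (he0 : 0 < e) (hd : e * K0 ≤ d) (hcs : d ^ 2 ≤ (K11 - 2 * K1S + K0) * KY) (hKY : 0 ≤ KY)
    (hg : K11 ≤ K0 * (1 + g)) (hu : (1 - u) * K0 ≤ K1S) (hv : KY ≤ K0 * v)
    (hgu : 0 ≤ g + 2 * u) (hfin : (g + 2 * u) * v < e ^ 2) : False := by
  have h1 : (e * K0) ^ 2 ≤ d ^ 2 := pow_le_pow_left₀ (by positivity) hd 2
  have h2 : K11 - 2 * K1S + K0 ≤ (g + 2 * u) * K0 := by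
    have : K0 * (1 + g) - 2 * ((1 - u) * K0) + K0 = (g + 2 * u) * K0 := by ring
    linarith
  have h3 : (K11 - 2 * K1S + K0) * KY ≤ (g + 2 * u) * K0 * KY :=
    mul_le_mul_of_nonneg_right h2 hKY
  have h4 : (g + 2 * u) * K0 * KY ≤ (g + 2 * u) * K0 * (K0 * v) :=
    mul_le_mul_of_nonneg_left hv (by positivity)
  have h5 : (g + 2 * u) * K0 * (K0 * v) = (g + 2 * u) * v * K0 ^ 2 := by ring
  have h6 : (e * K0) ^ 2 = e ^ 2 * K0 ^ 2 := by ring
  have h7 : (g + 2 * u) * v * K0 ^ 2 < e ^ 2 * K0 ^ 2 :=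
    mul_lt_mul_of_pos_right hfin (by positivity)
  linarith

/-- [R3Q-E4] 3.3 (iii'): the KEY LEMMA.  `p0 = pen L e (HH D S)`, `h0 = hq L e`, `κ = e/2`.
Proof. `Y = qbad`, suppose `|Y| ≥ κ e^ρ |S|` (so `Y ≠ ∅`).
(a) `Φ_j := QPhi S Y j ≥ e^{-ℓ}((1-e)K)^j`; `q0 = ⌈ℓ/e⌉`, `b = (1-e)²K ≥ 1`: `Φ_{q0} ≥ b^{q0}`; `exists_ratio` (R3/Sift2.lean): `q < q0`,
    `bΦ_q ≤ Φ_{q+1}`, `Φ_{q+1} ≥ b^{q+1} ≥ 1`.
(b) `qsift` with `θ = (1-e)b`, `R = e^Λ`: `S₁ ⊆ S`, `Y₁ ⊆ Y`, `K(S₁,Y₁) ≥ (1-e)³K`, `|S₁||Y₁| ≥ ζ|S||Y|`, `ζ = 2^{-q}e^{-(2q+1)Λ}e`;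
    `|S₁| ≥ e^{-Δ}|S|`, `|Y₁| ≥ e^{-Δ}|Y| ≥ κe^{ρ-Δ}|S|`, `Δ = 4ℓΛ/e ≥ log(1/ζ)`   (`q ≤ ℓ/e`).
(c) `K(S,Y₁) ≤ (1-4e)K` (`QK_eq_avg_right`): `K(S₁,Y₁) - K(S,Y₁) ≥ ((1-e)³-(1-4e))K ≥ eK`; `QK_cs_sub`:
    `e²K² ≤ (K(S₁) - 2K(S₁,S) + K) K(Y₁)`;  `grow1`: `K(S₁) ≤ K exp(2p0Δ/h0)`; `sub_inner`: `K(S₁,S) ≥ (1-p0/h0)K`;
    `max2`: `log K(Y₁) ≤ log K - p0 + 1/100 + pen(H')`, `H' = HH D' Y₁ ≤ HH D S + 1/100 + log(2/e) + Δ - ρ ≤ HH D S + Δ' - ρ`.
(A) `Δ' ≤ e²h0/(16p0) (≤ h0)`: `pen(H') ≤ pen(H+Δ') ≤ p0 + e²/8`, `K(S₁) ≤ K e^{e²/8}`: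
    RHS `≤ K(e^{e²/8} - 1 + 2p0/h0)·K e^{1/100+e²/8} ≤ K²(e²/7 + e²/100)·1.02 < e²K²`.
(B) `x = min ρ h0/h0 ∈ [0,1]`, `H' ≤ H - (39/40) x h0`: `pen(H') ≤ p0 e^{-(39/40)x} ≤ p0(1 - 0.62x)`; `Δ ≤ h0 x/40`: `K(S₁) ≤ K e^{p0x/20}`,
    `e^{p0x/20} - 1 + 2p0/h0 ≤ e^{p0x/20}`; RHS `≤ K² exp(1/100 - 0.57 p0x) ≤ K² exp(1/100 - 2.85 log(1/e)) < e²K²`. -/
theorem QExt.key (hE : QExt a n L Λ e D D' S) (hk : Kern a n Λ) (hΛL : Λ ≤ L)
    (he0 : 0 < e) (he1 : e ≤ 1 / 1000) (W : Finset G) (hW : (#W : ℝ) ≤ 2 * n)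
    (hSW : ∀ x ∈ S, ∀ w, a (w + x) ≠ 0 → w ∈ W) (ρ ℓ Δ' : ℝ) (hρ : 0 ≤ ρ) (hℓ : 4 ≤ ℓ)
    (hΔ : 4 * ℓ * Λ / e + Real.log (2 / e) + 1 / 100 ≤ Δ')
    (hcase : Δ' ≤ e ^ 2 * hq L e / (16 * pen L e (HH D S)) ∨
      (Δ' ≤ min ρ (hq L e) / 40 ∧
        5 * Real.log (1 / e) ≤ pen L e (HH D S) * (min ρ (hq L e) / hq L e))) :
    (#(qbad a n e D' S ℓ) : ℝ) < e / 2 * Real.exp ρ * #S := by
  classical
  by_contra hcon
  push Not at hcon
  have hn : 0 < n := hk.n_pos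
  have hΛ1 : 1 ≤ Λ := hk.one_le
  have hL : 1 ≤ L := hk.one_le.trans hΛL
  have hKpos : 0 < QK a n S S := QK_self_pos a n hk.n_pos hk.m_pos S hE.ne
  have hγ0 : 1 / 12 ≤ pen L e (HH D S) := hE.pen_ge hL he0
  have hγL : pen L e (HH D S) ≤ Λ := hE.pen_le
  have hKexp : Real.exp (Real.log (QK a n S S)) = QK a n S S := Real.exp_log hKpos
  have hKlog := hE.log_ge
  have hhpos := hq_pos (L := L) (e := e) hL he0
  have hY1 : ∀ y ∈ qbad a n e D' S ℓ, QK a n S {y} ≤ (1 - 4 * e) * QK a n S S := by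
    intro y hy
    unfold qbad at hy
    rw [mem_filter] at hy
    exact hy.2.1
  have hY2 : ∀ y ∈ qbad a n e D' S ℓ, Real.exp (-ℓ) * #S ≤
      #(S.filter (fun x => (1 - e) * QK a n S S ≤ QX a n x y)) := by
    intro y hy
    unfold qbad at hy
    rw [mem_filter] at hy
    exact hy.2.2
  have hYD : qbad a n e D' S ℓ ⊆ D' := by
    unfold qbad
    exact filter_subset _ _
  set Y := qbad a n e D' S ℓ with hYdef
  have hSpos : (0 : ℝ) < #S := by exact_mod_cast hE.ne.card_pos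
  have hYpos : (0 : ℝ) < #Y := lt_of_lt_of_le (by positivity) hcon
  have hYne : Y.Nonempty := by
    rw [← Finset.card_pos]; exact_mod_cast hYpos
  have hph := qext4_phi (a := a) (n := n) (S := S) (e := e) hn hKpos (by linarith) Y hE.ne hYne hY2
  have hinner := fun S₁ h₁ h₂ => hE.sub_inner hk hΛL he0 he1 S₁ h₁ h₂
  have hg1 := hE.grow1 hk hΛL he0 he1
  have hg2 := hE.max2
  have hpmono := fun {s t : ℝ} (h : s ≤ t) => pen_mono (L := L) (e := e) hL he0 h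
  have hpup := fun {Δ : ℝ} (h0 : 0 ≤ Δ) (h1 : Δ ≤ hq L e) =>
    pen_up (L := L) (e := e) hL he0 (HH D S) h0 h1
  have hpadd := fun t : ℝ => pen_add (L := L) (e := e) (HH D S) t
  unfold Psi at hg2
  have hheq : hq L e = 10 ^ 4 * L ^ 2 / e ^ 4 := rfl
  set h := hq L e with hdef
  set γ := pen L e (HH D S) with hγdef
  set K0 := QK a n S S with hK0
  have hLpos : 0 < L := by linarith
  have hγpos : 0 < γ := by linarith
  have hK1 : 1.38 ≤ K0 := by
    rw [← hKexp]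
    have := Real.add_one_le_exp (Real.log K0)
    linarith
  -- (b)
  set b : ℝ := (1 - e) ^ 2 * K0 with hb
  have hb1 : 1 ≤ b := by
    rw [hb]
    have h1 : (0.998 : ℝ) ≤ (1 - e) ^ 2 := by
      calc (0.998 : ℝ) ≤ (1 - 1 / 1000) ^ 2 := by norm_num
        _ ≤ (1 - e) ^ 2 := pow_le_pow_left₀ (by norm_num) (by linarith) 2
    have h2 : (0.998 : ℝ) * 1.38 ≤ (1 - e) ^ 2 * K0 := mul_le_mul h1 hK1 (by norm_num) (by positivity)
    refine le_trans ?_ h2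
    norm_num
  have h4000 : 4000 ≤ ℓ / e := by
    rw [le_div_iff₀ he0]; linarith
  have hq0 : ℓ / e ≤ ⌈ℓ / e⌉₊ := Nat.le_ceil _
  have hq0' : 1 ≤ ⌈ℓ / e⌉₊ := Nat.one_le_ceil_iff.mpr (by linarith)
  have hstart : b ^ ⌈ℓ / e⌉₊ ≤ QPhi a n S Y ⌈ℓ / e⌉₊ := by
    refine le_trans ?_ (hph ⌈ℓ / e⌉₊)
    set q0 := ⌈ℓ / e⌉₊ with hq0def
    have h1 : ((1 : ℝ) - e) ^ q0 ≤ Real.exp (-ℓ) := by
      calc ((1 : ℝ) - e) ^ q0 ≤ (Real.exp (-e)) ^ q0 := by
            apply pow_le_pow_left₀ (by linarith)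
            exact Real.one_sub_le_exp_neg e
        _ = Real.exp (-(q0 * e)) := by
            rw [← Real.exp_nat_mul]; congr 1; ring
        _ ≤ Real.exp (-ℓ) := by
            apply Real.exp_le_exp.mpr
            rw [div_le_iff₀ he0] at hq0
            linarith
    have h2 : b ^ q0 = ((1 : ℝ) - e) ^ q0 * ((1 - e) * K0) ^ q0 := by
      rw [← mul_pow, hb]; congr 1; ring
    rw [h2]
    apply mul_le_mul_of_nonneg_right h1
    apply pow_nonneg
    have : (0 : ℝ) ≤ 1 - e := by linarith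
    positivity
  obtain ⟨q, hq, hr1, hr2⟩ := exists_ratio (fun j => QPhi a n S Y j)
    (QPhi_zero a n S Y hE.ne hYne) b (by linarith) _ hq0' hstart
  have hqℓ : (q : ℝ) ≤ ℓ / e := by
    have := Nat.lt_ceil.mp hq
    exact this.le
  have hΦ1 : 1 ≤ QPhi a n S Y (q + 1) := le_trans (one_le_pow₀ hb1) hr2
  have hΦ0 : 0 ≤ QPhi a n S Y q := QPhi_nonneg a n hn S Y q
  have hz1 : e ≤ QPhi a n S Y (q + 1) - (1 - e) * b * QPhi a n S Y q := by
    have h1 : (1 - e) * (b * QPhi a n S Y q) ≤ (1 - e) * QPhi a n S Y (q + 1) :=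
      mul_le_mul_of_nonneg_left hr1 (by linarith)
    have h2 : e * 1 ≤ e * QPhi a n S Y (q + 1) := mul_le_mul_of_nonneg_left hΦ1 he0.le
    have h3 : (1 - e) * b * QPhi a n S Y q = (1 - e) * (b * QPhi a n S Y q) := by ring
    rw [h3]
    linarith
  obtain ⟨S₁, hS₁S, Y₁, hY₁Y, hS1, hY1ne, hθ, hcard⟩ := qsift a n (Real.exp Λ) hn hk.m_pos hk.bd
    S Y W hE.ne hYne hW hSW q ((1 - e) * b) (by
      have : (0 : ℝ) ≤ 1 - e := by linarith
      positivity) (by linarith)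
  have hs1 : (0 : ℝ) < #S₁ := by exact_mod_cast hS1.card_pos
  have hy1 : (0 : ℝ) < #Y₁ := by exact_mod_cast hY1ne.card_pos
  have hs1le : (#S₁ : ℝ) ≤ #S := by exact_mod_cast Finset.card_le_card hS₁S
  have hy1le : (#Y₁ : ℝ) ≤ #Y := by exact_mod_cast Finset.card_le_card hY₁Y
  -- size
  have hzeta : Real.exp (-(4 * ℓ * Λ / e)) ≤ (1 / 2) ^ q * (1 / Real.exp Λ) ^ (2 * q + 1) *
        (QPhi a n S Y (q + 1) - (1 - e) * b * QPhi a n S Y q) := by
    have z3 : (1 / Real.exp Λ) ^ (2 * q + 1) = Real.exp (-((2 * q + 1) * Λ)) := by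
      rw [one_div, ← Real.exp_neg, ← Real.exp_nat_mul]
      congr 1
      push_cast
      ring
    have z4 : ((1 : ℝ) / 2) ^ q = Real.exp (-(q * Real.log 2)) := by
      have : (1 : ℝ) / 2 = Real.exp (-Real.log 2) := by
        rw [Real.exp_neg, Real.exp_log (by norm_num)]; norm_num
      rw [this, ← Real.exp_nat_mul]; congr 1; ring
    have z5 : Real.exp (-(1 / e)) ≤ e := by
      rw [Real.exp_neg]
      have h1 : 1 / e ≤ Real.exp (1 / e) := by
        have := Real.add_one_le_exp (1 / e)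
        linarith
      calc (Real.exp (1 / e))⁻¹ ≤ (1 / e)⁻¹ := inv_anti₀ (by positivity) h1
        _ = e := by rw [one_div, inv_inv]
    have z6 : Real.exp (-(4 * ℓ * Λ / e)) ≤
        Real.exp (-(q * Real.log 2)) * Real.exp (-((2 * q + 1) * Λ)) * Real.exp (-(1 / e)) := by
      rw [← Real.exp_add, ← Real.exp_add]
      apply Real.exp_le_exp.mpr
      have l2 : Real.log 2 ≤ 0.7 := by have := Real.log_two_lt_d9; linarith
      have l2' : 0 ≤ Real.log 2 := Real.log_nonneg (by norm_num)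
      have hle0 : 0 ≤ ℓ / e := by linarith
      have a1 : (q : ℝ) * Real.log 2 ≤ ℓ / e * 0.7 := mul_le_mul hqℓ l2 l2' hle0
      have a2 : (q : ℝ) * Λ ≤ ℓ / e * Λ := mul_le_mul_of_nonneg_right hqℓ (by linarith)
      have a3 : ℓ / e * 1 ≤ ℓ / e * Λ := mul_le_mul_of_nonneg_left hΛ1 hle0
      have a4 : 4000 * Λ ≤ ℓ / e * Λ := mul_le_mul_of_nonneg_right h4000 (by linarith)
      have a5 : 4 * (1 / e) ≤ ℓ / e := by
        rw [mul_one_div]
        exact div_le_div_of_nonneg_right hℓ he0.le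
      have a6 : 4 * ℓ * Λ / e = 4 * (ℓ / e * Λ) := by ring
      rw [a6]
      linarith
    calc Real.exp (-(4 * ℓ * Λ / e)) ≤ _ := z6
      _ ≤ Real.exp (-(q * Real.log 2)) * Real.exp (-((2 * q + 1) * Λ)) * e := by
          apply mul_le_mul_of_nonneg_left z5 (by positivity)
      _ ≤ _ := by
          rw [z4, z3]
          apply mul_le_mul_of_nonneg_left hz1 (by positivity)
  have hprod : (#S * #Y : ℝ) * Real.exp (-(4 * ℓ * Λ / e)) ≤ #S₁ * #Y₁ :=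
    le_trans (mul_le_mul_of_nonneg_left hzeta (by positivity)) hcard
  set Δ := 4 * ℓ * Λ / e with hΔdef
  have hΔ0 : 0 ≤ Δ := by rw [hΔdef]; positivity
  have hsize1 : Real.exp (-Δ) * #S ≤ #S₁ := by
    have : (Real.exp (-Δ) * #S) * #Y ≤ #S₁ * #Y := by
      calc (Real.exp (-Δ) * #S) * #Y = (#S * #Y : ℝ) * Real.exp (-Δ) := by ring
        _ ≤ #S₁ * #Y₁ := hprod
        _ ≤ #S₁ * #Y := mul_le_mul_of_nonneg_left hy1le hs1.le
    exact le_of_mul_le_mul_right this hYpos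
  have hsize2 : Real.exp (-Δ) * #Y ≤ #Y₁ := by
    have : (Real.exp (-Δ) * #Y) * #S ≤ #Y₁ * #S := by
      calc (Real.exp (-Δ) * #Y) * #S = (#S * #Y : ℝ) * Real.exp (-Δ) := by ring
        _ ≤ #S₁ * #Y₁ := hprod
        _ ≤ #S * #Y₁ := mul_le_mul_of_nonneg_right hs1le hy1.le
        _ = #Y₁ * #S := by ring
    exact le_of_mul_le_mul_right this hSpos
  have hsize3 : Real.exp (-Δ) * (e / 2 * Real.exp ρ * #S) ≤ #Y₁ :=
    le_trans (mul_le_mul_of_nonneg_left hcon (Real.exp_pos _).le) hsize2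
  -- H'
  have hDpos : (0 : ℝ) < #D := by
    have : D.Nonempty := hE.ne.mono hE.sub
    exact_mod_cast this.card_pos
  have hD'pos : (0 : ℝ) < #D' := by
    have : D'.Nonempty := (hE.ne.mono hE.sub).mono hE.sub'
    exact_mod_cast this.card_pos
  have hlog2e : 0 ≤ Real.log (2 / e) := by
    apply Real.log_nonneg
    rw [le_div_iff₀ he0]; linarith
  have hΔ'0 : 0 ≤ Δ' := by linarith
  have hΔΔ' : Δ ≤ Δ' := by linarith
  have hH' : HH D' Y₁ ≤ HH D S + (Δ' - ρ) := by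
    unfold HH
    rw [Real.log_div hD'pos.ne' hy1.ne', Real.log_div hDpos.ne' hSpos.ne']
    have l1 := Real.log_le_log hD'pos hE.card_le
    rw [Real.log_mul (Real.exp_pos _).ne' hDpos.ne', Real.log_exp] at l1
    have l2 := Real.log_le_log (by positivity) hsize3
    rw [Real.log_mul (Real.exp_pos _).ne' (by positivity), Real.log_exp,
      Real.log_mul (by positivity) hSpos.ne', Real.log_mul (by positivity) (Real.exp_pos _).ne',
      Real.log_exp] at l2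
    have l3 : Real.log (2 / e) = - Real.log (e / 2) := by
      rw [← Real.log_inv, inv_div]
    linarith
  have hY₁D' : Y₁ ⊆ D' := hY₁Y.trans hYD
  have hKYpos : 0 < QK a n Y₁ Y₁ := QK_self_pos a n hk.n_pos hk.m_pos Y₁ hY1ne
  have M2 := hg2 Y₁ hY₁D' hY1ne
  have I1 := hinner S₁ hS₁S hS1
  have G1 := fun hΔh => hg1 S₁ (hS₁S.trans hE.sub) hS1 Δ hΔ0 hΔh hsize1
  -- (c)
  have hc : QK a n S Y₁ ≤ (1 - 4 * e) * K0 := by
    rw [QK_eq_avg_right, div_le_iff₀ hy1]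
    calc ∑ y ∈ Y₁, QK a n S {y} ≤ ∑ y ∈ Y₁, (1 - 4 * e) * K0 :=
          Finset.sum_le_sum fun y hy => hY1 y (hY₁Y hy)
      _ = (1 - 4 * e) * K0 * #Y₁ := by rw [sum_const, nsmul_eq_mul]; ring
  have hdiff : e * K0 ≤ QK a n S₁ Y₁ - QK a n S Y₁ := by
    have h1 : (1 - e) * b = (1 - 4 * e) * K0 + e * K0 + (3 - e) * e ^ 2 * K0 := by rw [hb]; ring
    have h2 : 0 ≤ (3 - e) * e ^ 2 * K0 := by
      have : (0 : ℝ) ≤ 3 - e := by linarith
      positivity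
    linarith
  have hcs := QK_cs_sub a n S₁ S Y₁
  -- p0/h ≤ e^2/200 and ≤ 1/200
  have he2 : e ^ 2 ≤ 1 / 1000000 := by
    calc e ^ 2 ≤ (1 / 1000) ^ 2 := pow_le_pow_left₀ he0.le he1 2
      _ = 1 / 1000000 := by norm_num
  have he2pos : 0 < e ^ 2 := by positivity
  have hγh : γ / h ≤ e ^ 2 / 200 := by
    rw [div_le_iff₀ hhpos, hheq]
    have h1 : e ^ 2 / 200 * (10 ^ 4 * L ^ 2 / e ^ 4) = 50 * L ^ 2 / e ^ 2 := by
      field_simp
      ring
    rw [h1, le_div_iff₀ he2pos]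
    have h2 : L * 1 ≤ L * L := mul_le_mul_of_nonneg_left hL hLpos.le
    have h3 : γ * e ^ 2 ≤ L * 1 := mul_le_mul (by linarith) (by linarith) he2pos.le hLpos.le
    have h4 : L ^ 2 = L * L := by ring
    rw [h4]
    have h5 : 0 ≤ L * L := by positivity
    linarith
  have hγh0 : 0 ≤ γ / h := by positivity
  rcases hcase with hA | ⟨hB1, hB2⟩
  · -- case (A)
    have hA' : γ / h * Δ' ≤ e ^ 2 / 16 := by
      calc γ / h * Δ' ≤ γ / h * (e ^ 2 * h / (16 * γ)) := mul_le_mul_of_nonneg_left hA hγh0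
        _ = e ^ 2 / 16 := by field_simp
    have hΔ'h : Δ' ≤ h := by
      refine hA.trans ?_
      rw [div_le_iff₀ (by positivity)]
      have h1 : e ^ 2 * h ≤ 1 * h := mul_le_mul_of_nonneg_right (by linarith) hhpos.le
      have h2 : h * 1 ≤ h * (16 * γ) := mul_le_mul_of_nonneg_left (by linarith) hhpos.le
      linarith
    have P1 : pen L e (HH D' Y₁) ≤ γ + e ^ 2 / 8 := by
      have h1 := hpmono (hH'.trans (by linarith : HH D S + (Δ' - ρ) ≤ HH D S + Δ'))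
      have h2 := hpup hΔ'0 hΔ'h
      have h3 : 2 * γ / h * Δ' = 2 * (γ / h * Δ') := by ring
      rw [h3] at h2
      linarith
    have hKYlog : Real.log (QK a n Y₁ Y₁) ≤ Real.log K0 + (1 / 100 + e ^ 2 / 8) := by linarith
    have hKY : QK a n Y₁ Y₁ ≤ K0 * Real.exp (1 / 100 + e ^ 2 / 8) := by
      calc QK a n Y₁ Y₁ = Real.exp (Real.log (QK a n Y₁ Y₁)) := (Real.exp_log hKYpos).symm
        _ ≤ Real.exp (Real.log K0 + (1 / 100 + e ^ 2 / 8)) := Real.exp_le_exp.mpr hKYlog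
        _ = _ := by rw [Real.exp_add, Real.exp_log hKpos]
    have ex1 : Real.exp (e ^ 2 / 8) ≤ 1 + e ^ 2 / 4 := by
      have := exp_le_one_add_two_mul (t := e ^ 2 / 8) (by positivity) (by linarith)
      linarith
    have ex2 : Real.exp (1 / 100 + e ^ 2 / 8) ≤ 1.03 := by
      have := exp_le_one_add_two_mul (t := 1 / 100 + e ^ 2 / 8) (by positivity) (by linarith)
      linarith
    have G1' : QK a n S₁ S₁ ≤ K0 * (1 + e ^ 2 / 4) := by
      refine (G1 (hΔΔ'.trans hΔ'h)).trans ?_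
      apply mul_le_mul_of_nonneg_left _ hKpos.le
      refine le_trans (Real.exp_le_exp.mpr ?_) ex1
      have h1 : 2 * γ / h * Δ = 2 * (γ / h * Δ) := by ring
      have h2 : γ / h * Δ ≤ γ / h * Δ' := mul_le_mul_of_nonneg_left hΔΔ' hγh0
      rw [h1]
      linarith
    refine qext4_final (e := e) (g := e ^ 2 / 4) (u := γ / h) (v := 1.03) hKpos he0 hdiff hcs
      hKYpos.le G1' I1 (hKY.trans (mul_le_mul_of_nonneg_left ex2 hKpos.le)) (by positivity) ?_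
    have h1 : (e ^ 2 / 4 + 2 * (γ / h)) * 1.03 ≤ (e ^ 2 / 4 + 2 * (e ^ 2 / 200)) * 1.03 :=
      mul_le_mul_of_nonneg_right (by linarith) (by norm_num)
    have h2 : (e ^ 2 / 4 + 2 * (e ^ 2 / 200)) * 1.03 = e ^ 2 * 0.2678 := by ring
    rw [h2] at h1
    linarith
  · -- case (B)
    set m := min ρ h with hmdef
    have hm0 : 0 ≤ m := le_min hρ hhpos.le
    have hmρ : m ≤ ρ := min_le_left _ _
    have hmh : m ≤ h := min_le_right _ _
    set x := m / h with hxdef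
    have hx0 : 0 ≤ x := by positivity
    have hx1 : x ≤ 1 := by rw [hxdef, div_le_one hhpos]; exact hmh
    have hmx : m = x * h := by rw [hxdef]; field_simp
    have hloge : 1 ≤ Real.log (1 / e) := by
      rw [Real.le_log_iff_exp_le (by positivity)]
      have h1 := Real.exp_one_lt_d9
      have h2 : (1000 : ℝ) ≤ 1 / e := by
        rw [le_div_iff₀ he0]; linarith
      linarith
    have P1 : pen L e (HH D' Y₁) ≤ γ - γ * x / 2 := by
      have h1 : Δ' - ρ ≤ -(39 / 40 * (x * h)) := by rw [← hmx]; linarith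
      have h2 := hpmono (hH'.trans (by linarith : HH D S + (Δ' - ρ) ≤ HH D S + -(39 / 40 * (x * h))))
      rw [hpadd] at h2
      refine h2.trans ?_
      have h3 : -(39 / 40 * (x * h)) / h = -(39 / 40 * x) := by field_simp
      rw [h3]
      have h4 : Real.exp (-(39 / 40 * x)) ≤ 1 - x / 2 := by
        rw [Real.exp_neg]
        have h5 := Real.quadratic_le_exp_of_nonneg (x := 39 / 40 * x) (by positivity)
        have h6 : 0 < 1 + 39 / 40 * x + (39 / 40 * x) ^ 2 / 2 := by positivity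
        refine (inv_anti₀ h6 h5).trans ?_
        rw [inv_le_iff_one_le_mul₀ h6]
        have h7 : (1 - x / 2) * (1 + 39 / 40 * x + (39 / 40 * x) ^ 2 / 2) - 1 =
          x * (19 / 40 - 39 / 3200 * x - 1521 / 6400 * x ^ 2) := by ring
        have h8 : x ^ 2 ≤ 1 := pow_le_one₀ hx0 hx1
        have h9 : 0 ≤ 19 / 40 - 39 / 3200 * x - 1521 / 6400 * x ^ 2 := by linarith
        have h10 := mul_nonneg hx0 h9
        linarith
      calc γ * Real.exp (-(39 / 40 * x)) ≤ γ * (1 - x / 2) :=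
            mul_le_mul_of_nonneg_left h4 hγpos.le
        _ = _ := by ring
    have hKYlog : Real.log (QK a n Y₁ Y₁) ≤ Real.log K0 + (1 / 100 - γ * x / 2) := by linarith
    have hKY : QK a n Y₁ Y₁ ≤ K0 * Real.exp (1 / 100 - γ * x / 2) := by
      calc QK a n Y₁ Y₁ = Real.exp (Real.log (QK a n Y₁ Y₁)) := (Real.exp_log hKYpos).symm
        _ ≤ Real.exp (Real.log K0 + (1 / 100 - γ * x / 2)) := Real.exp_le_exp.mpr hKYlog
        _ = _ := by rw [Real.exp_add, Real.exp_log hKpos]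
    have hΔh : Δ ≤ h := by linarith
    have G1' : QK a n S₁ S₁ ≤ K0 * (1 + (Real.exp (γ * x / 20) - 1)) := by
      refine (G1 hΔh).trans ?_
      apply mul_le_mul_of_nonneg_left _ hKpos.le
      have h0 : 1 + (Real.exp (γ * x / 20) - 1) = Real.exp (γ * x / 20) := by ring
      rw [h0]
      apply Real.exp_le_exp.mpr
      have h1 : 2 * γ / h * Δ = 2 * (γ / h * Δ) := by ring
      have h2 : γ / h * Δ ≤ γ / h * (x * h / 40) := by
        apply mul_le_mul_of_nonneg_left _ hγh0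
        rw [← hmx]; linarith
      have h3 : γ / h * (x * h / 40) = γ * x / 40 := by field_simp
      rw [h1]
      linarith
    have hge1 : 1 ≤ Real.exp (γ * x / 20) := Real.one_le_exp (by positivity)
    refine qext4_final (e := e) (g := Real.exp (γ * x / 20) - 1) (u := γ / h)
      (v := Real.exp (1 / 100 - γ * x / 2)) hKpos he0 hdiff hcs
      hKYpos.le G1' I1 hKY (by linarith) ?_
    have h1 : (Real.exp (γ * x / 20) - 1 + 2 * (γ / h)) * Real.exp (1 / 100 - γ * x / 2) ≤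
        Real.exp (γ * x / 20) * Real.exp (1 / 100 - γ * x / 2) :=
      mul_le_mul_of_nonneg_right (by linarith) (Real.exp_pos _).le
    refine lt_of_le_of_lt h1 ?_
    rw [← Real.exp_add]
    have h2 : e ^ 2 = Real.exp (-(2 * Real.log (1 / e))) := by
      rw [one_div, Real.log_inv, mul_neg, neg_neg]
      have : (2 : ℝ) * Real.log e = Real.log (e ^ 2) := by rw [Real.log_pow]; norm_num
      rw [this, Real.exp_log he2pos]
    rw [h2]
    apply Real.exp_lt_exp.mpr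
    linarith

end R3
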