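import Pool.Agent.MP_0f71ae_nt.R3Q.Ext4

/-!
# [R3Q] 3.4: levels
-/

set_option linter.unusedSectionVars false

open Finset

namespace R3

variable {G : Type*} [AddCommGroup G] [Fintype G] [DecidableEq G]
variable {a : G → ℕ} {n L Λ e : ℝ} {D D' S : Finset G}

/-- [R3Q-E5a] `lev ≥ 4` (even `7.8`): `h0/p0 ≥ h0/Λ ≥ 10⁴L/e⁴`. -/
theorem QExt.four_le_lev (hE : QExt a n L Λ e D D' S) (hk : Kern a n Λ) (hΛL : Λ ≤ L)
    (he0 : 0 < e) (he1 : e ≤ 1 / 1000) (ρ : ℝ) (hρ : 0 ≤ ρ) : 4 ≤ lev L Λ e D S ρ := by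
  have hΛ := hk.one_le
  have hL : 1 ≤ L := hΛ.trans hΛL
  have hp := hE.pen_ge hL he0
  have hpΛ := hE.pen_le
  have hH := hE.HH_nonneg
  have hq0 : 0 < hq L e := hq_pos hL he0
  have hp0 : 0 < pen L e (HH D S) := by linarith
  have hv : 1 ≤ vp L e D S := by
    unfold vp
    have : 0 ≤ HH D S / hq L e := div_nonneg hH hq0.le
    linarith
  have h1 : 0 ≤ ρ / vp L e D S := div_nonneg hρ (by linarith)
  have h2 : hq L e / Λ ≤ hq L e / pen L e (HH D S) :=
    div_le_div_of_nonneg_left hq0.le hp0 hpΛ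
  have h3 : e ^ 4 / (1280 * Λ) * (hq L e / Λ) ≤ lev L Λ e D S ρ := by
    unfold lev
    apply mul_le_mul_of_nonneg_left _ (by positivity)
    linarith
  refine le_trans ?_ h3
  have h4 : e ^ 4 / (1280 * Λ) * (hq L e / Λ) = 10 ^ 4 * L ^ 2 / (1280 * Λ ^ 2) := by
    unfold hq
    field_simp
  rw [h4, le_div_iff₀ (by positivity)]
  have h5 : Λ ^ 2 ≤ L ^ 2 := by
    apply pow_le_pow_left₀ (by linarith) hΛL
  nlinarith

/-- [R3Q-E5b] 3.4.  `H = HH D S`, `ϖ = vp = 1 + H/h0`.
Proof. If `ρ > H + log(2/e) + 1/100`: `|qbad| ≤ |D'| ≤ e^{1/100}|D| = e^{H+1/100}|S| < (e/2)e^ρ|S|`.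
Otherwise `ρ ≤ H + h0 = ϖh0` (`log(2/e) + 1/100 ≤ h0`), `t := min ρ h0 ≥ ρ/ϖ` (`ϖ ≥ 1`), `Δ' := (e³/80) max(t, h0/p0)`;
`4ℓΛ/e = (e³/320)(ρ/ϖ + h0/p0) ≤ (e³/160)max`, `log(2/e) + 1/100 ≤ 62.5/e ≤ (e³/160) h0/p0`: hypothesis `hΔ` of `key`.
If `p0 t/h0 < 5 log(1/e)`: (A), since `(e³/80)t ≤ (e³/80)·5log(1/e)h0/p0 ≤ e²h0/(16p0)` (`e log(1/e) ≤ 1`) and
`(e³/80)h0/p0 ≤ e²h0/(16p0)`.  Otherwise `t ≥ h0/p0` (`5 log(1/e) ≥ 1`), `Δ' = (e³/80)t ≤ t/40`: (B). -/
theorem QExt.levels (hE : QExt a n L Λ e D D' S) (hk : Kern a n Λ) (hΛL : Λ ≤ L)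
    (he0 : 0 < e) (he1 : e ≤ 1 / 1000) (W : Finset G) (hW : (#W : ℝ) ≤ 2 * n)
    (hSW : ∀ x ∈ S, ∀ w, a (w + x) ≠ 0 → w ∈ W) (ρ : ℝ) (hρ : 0 ≤ ρ) :
    (#(qbad a n e D' S (lev L Λ e D S ρ)) : ℝ) < e / 2 * Real.exp ρ * #S := by
  have hΛ := hk.one_le
  have hL : 1 ≤ L := hΛ.trans hΛL
  have hp := hE.pen_ge hL he0
  have hpΛ := hE.pen_le
  have hH := hE.HH_nonneg
  have hq0 : 0 < hq L e := hq_pos hL he0
  have hp0 : 0 < pen L e (HH D S) := by linarith
  have hSpos : (0 : ℝ) < #S := by exact_mod_cast hE.ne.card_pos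
  have hDpos : (0 : ℝ) < #D := by
    have : #S ≤ #D := Finset.card_le_card hE.sub
    have h' : (#S : ℝ) ≤ #D := by exact_mod_cast this
    linarith
  by_cases hcase : HH D S + Real.log (2 / e) + 1 / 100 < ρ
  · -- the trivial case
    have h1 : (#(qbad a n e D' S (lev L Λ e D S ρ)) : ℝ) ≤ #D' := by
      exact_mod_cast Finset.card_le_card (Finset.filter_subset _ _)
    have h2 : Real.exp (HH D S) = (#D : ℝ) / #S := by
      unfold HH
      exact Real.exp_log (div_pos hDpos hSpos)
    have h3 : (#D : ℝ) = Real.exp (HH D S) * #S := by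
      rw [h2]; field_simp
    have h4 : Real.exp (HH D S + Real.log (2 / e) + 1 / 100) < Real.exp ρ :=
      Real.exp_lt_exp.2 hcase
    rw [Real.exp_add, Real.exp_add, Real.exp_log (by positivity)] at h4
    have h5 : (#D' : ℝ) ≤ Real.exp (1 / 100) * (Real.exp (HH D S) * #S) := by
      rw [← h3]; exact hE.card_le
    have h6 : Real.exp (1 / 100) * (Real.exp (HH D S) * #S) < e / 2 * Real.exp ρ * #S := by
      have h7 : e / 2 * (Real.exp (HH D S) * (2 / e) * Real.exp (1 / 100)) < e / 2 * Real.exp ρ :=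
        mul_lt_mul_of_pos_left h4 (by positivity)
      have h8 : e / 2 * (Real.exp (HH D S) * (2 / e) * Real.exp (1 / 100)) =
          Real.exp (1 / 100) * Real.exp (HH D S) := by
        field_simp
      rw [h8] at h7
      have h9 := mul_lt_mul_of_pos_right h7 hSpos
      calc Real.exp (1 / 100) * (Real.exp (HH D S) * #S)
          = Real.exp (1 / 100) * Real.exp (HH D S) * #S := by ring
        _ < e / 2 * Real.exp ρ * #S := h9
    linarith
  · push Not at hcase
    -- elementary logarithm bounds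
    have hlog2 : Real.log (2 / e) ≤ 2 / e - 1 := Real.log_le_sub_one_of_pos (by positivity)
    have hlog1 : Real.log (1 / e) ≤ 1 / e - 1 := Real.log_le_sub_one_of_pos (by positivity)
    have hlog0 : 1 - e ≤ Real.log (1 / e) := by
      have := Real.one_sub_inv_le_log_of_pos (show (0 : ℝ) < 1 / e by positivity)
      rwa [one_div, inv_inv, ← one_div] at this
    have hq2 : 10 ^ 4 / e ^ 4 ≤ hq L e / pen L e (HH D S) := by
      rw [div_le_div_iff₀ (by positivity) hp0]
      unfold hq
      have hpL : pen L e (HH D S) ≤ L ^ 2 := by nlinarith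
      have : 10 ^ 4 * L ^ 2 / e ^ 4 * e ^ 4 = 10 ^ 4 * L ^ 2 := by field_simp
      rw [this]
      linarith
    have he_inv : 1000 ≤ 1 / e := by
      rw [le_div_iff₀ he0]; linarith
    -- `log (2/e) + 1/100 ≤ (e^3/160) h0/p0`
    have hsmall : Real.log (2 / e) + 1 / 100 ≤ e ^ 3 / 160 * (hq L e / pen L e (HH D S)) := by
      have h1 : e ^ 3 / 160 * (10 ^ 4 / e ^ 4) ≤ e ^ 3 / 160 * (hq L e / pen L e (HH D S)) :=
        mul_le_mul_of_nonneg_left hq2 (by positivity)
      have h2 : e ^ 3 / 160 * (10 ^ 4 / e ^ 4) = 62.5 * (1 / e) := by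
        field_simp; norm_num
      have h3 : 2 / e = 2 * (1 / e) := by ring
      linarith
    have hh0 : Real.log (2 / e) + 1 / 100 ≤ hq L e := by
      have h1 := hq_ge hL he0 he1
      have h2 : e ^ 3 / 160 * (hq L e / pen L e (HH D S)) ≤ hq L e := by
        have h3 : hq L e / pen L e (HH D S) ≤ 12 * hq L e := by
          rw [div_le_iff₀ hp0]
          nlinarith
        have h4 : e ^ 3 / 160 ≤ 1 / 12 := by
          have : e ^ 3 ≤ 1 := pow_le_one₀ he0.le (by linarith)
          linarith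
        calc e ^ 3 / 160 * (hq L e / pen L e (HH D S)) ≤ 1 / 12 * (12 * hq L e) := by
              apply mul_le_mul h4 h3 (by positivity) (by norm_num)
          _ = hq L e := by ring
      linarith
    have hv1 : 1 ≤ vp L e D S := by
      unfold vp
      have : 0 ≤ HH D S / hq L e := div_nonneg hH hq0.le
      linarith
    have hv0 : 0 < vp L e D S := by linarith
    -- `t = min ρ h0 ≥ ρ/ϖ`
    have ht0 : 0 ≤ min ρ (hq L e) := le_min hρ hq0.le
    have ht : ρ / vp L e D S ≤ min ρ (hq L e) := by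
      apply le_min
      · exact div_le_self hρ hv1
      · rw [div_le_iff₀ hv0]
        unfold vp
        have : hq L e * (1 + HH D S / hq L e) = hq L e + HH D S := by field_simp
        rw [this]
        linarith
    have hP0 : 0 < hq L e / pen L e (HH D S) := div_pos hq0 hp0
    have hℓ := hE.four_le_lev hk hΛL he0 he1 ρ hρ
    refine hE.key hk hΛL he0 he1 W hW hSW ρ (lev L Λ e D S ρ)
      (e ^ 3 / 80 * max (min ρ (hq L e)) (hq L e / pen L e (HH D S))) hρ hℓ ?_ ?_
    · have h1 : 4 * lev L Λ e D S ρ * Λ / e =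
          e ^ 3 / 320 * (ρ / vp L e D S + hq L e / pen L e (HH D S)) := by
        unfold lev
        have hΛ0 : Λ ≠ 0 := by linarith
        have he0' : e ≠ 0 := he0.ne'
        field_simp
        norm_num
      rw [h1]
      have h2 := le_max_left (min ρ (hq L e)) (hq L e / pen L e (HH D S))
      have h3 := le_max_right (min ρ (hq L e)) (hq L e / pen L e (HH D S))
      have h4 : e ^ 3 / 320 * (ρ / vp L e D S + hq L e / pen L e (HH D S)) ≤
          e ^ 3 / 320 * (2 * max (min ρ (hq L e)) (hq L e / pen L e (HH D S))) :=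
        mul_le_mul_of_nonneg_left (by linarith) (by positivity)
      have h5 : e ^ 3 / 160 * (hq L e / pen L e (HH D S)) ≤
          e ^ 3 / 160 * max (min ρ (hq L e)) (hq L e / pen L e (HH D S)) :=
        mul_le_mul_of_nonneg_left h3 (by positivity)
      linarith
    · by_cases hA : pen L e (HH D S) * (min ρ (hq L e) / hq L e) < 5 * Real.log (1 / e)
      · left
        have hsplit : e ^ 2 * hq L e / (16 * pen L e (HH D S)) =
            e ^ 2 / 16 * (hq L e / pen L e (HH D S)) := by
          field_simp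
        rw [hsplit]
        have h1 : max (min ρ (hq L e)) (hq L e / pen L e (HH D S)) ≤
            5 * (1 / e) * (hq L e / pen L e (HH D S)) := by
          apply max_le
          · have h2 : min ρ (hq L e) < 5 * Real.log (1 / e) * (hq L e / pen L e (HH D S)) := by
              have h3 : pen L e (HH D S) * (min ρ (hq L e) / hq L e) *
                  (hq L e / pen L e (HH D S)) = min ρ (hq L e) := by
                field_simp
              have h4 := mul_lt_mul_of_pos_right hA hP0
              rwa [h3] at h4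
            have h5 : 5 * Real.log (1 / e) * (hq L e / pen L e (HH D S)) ≤
                5 * (1 / e) * (hq L e / pen L e (HH D S)) :=
              mul_le_mul_of_nonneg_right (by linarith) hP0.le
            linarith
          · have h6 : (1 : ℝ) ≤ 5 * (1 / e) := by linarith
            calc hq L e / pen L e (HH D S) = 1 * (hq L e / pen L e (HH D S)) := (one_mul _).symm
              _ ≤ _ := mul_le_mul_of_nonneg_right h6 hP0.le
        calc e ^ 3 / 80 * max (min ρ (hq L e)) (hq L e / pen L e (HH D S))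
            ≤ e ^ 3 / 80 * (5 * (1 / e) * (hq L e / pen L e (HH D S))) :=
              mul_le_mul_of_nonneg_left h1 (by positivity)
          _ = e ^ 2 / 16 * (hq L e / pen L e (HH D S)) := by
              field_simp; norm_num
      · right
        push Not at hA
        refine ⟨?_, hA⟩
        have h1 : hq L e / pen L e (HH D S) ≤ min ρ (hq L e) := by
          have h2 : 1 ≤ pen L e (HH D S) * (min ρ (hq L e) / hq L e) := by linarith
          have h3 := mul_le_mul_of_nonneg_right h2 hP0.le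
          have h4 : pen L e (HH D S) * (min ρ (hq L e) / hq L e) *
              (hq L e / pen L e (HH D S)) = min ρ (hq L e) := by
            field_simp
          rw [h4, one_mul] at h3
          exact h3
        rw [max_eq_left h1]
        have h5 : e ^ 3 / 80 ≤ 1 / 40 := by
          have : e ^ 3 ≤ 1 := pow_le_one₀ he0.le (by linarith)
          linarith
        calc e ^ 3 / 80 * min ρ (hq L e) ≤ 1 / 40 * min ρ (hq L e) :=
              mul_le_mul_of_nonneg_right h5 ht0
          _ = min ρ (hq L e) / 40 := by ring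

end R3
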