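import Pool.Agent.MP_0f71ae_nt.R3Q.Transfer
import Pool.Agent.MP_0f71ae_nt.R3.Endgame

/-!
# [R3Q] The final bound (exponent 1/4)
-/

set_option linter.unusedSectionVars false

open Finset

namespace R3

/-- [R3Q-FI2] The upper bound with exponent 1/4. -/
theorem q_roth_bound : ∃ c : ℝ, 0 < c ∧ ∃ N₀ : ℕ, ∀ N : ℕ, N₀ ≤ N →
    (rothNumberNat N : ℝ) ≤
      N * Real.exp (-c * Real.log N ^ (1 / 4 : ℝ) / Real.log (Real.log N) ^ (11 / 4 : ℝ)) := by
  obtain ⟨c, hc, N₀, h⟩ := endgame 4 11 (by norm_num) (10 ^ 50) (by norm_num)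
    (fun N => (rothNumberNat N : ℝ)) (fun N hN L hL h => q_roth_transfer N hN L hL h)
  refine ⟨c, hc, N₀, fun N hN => ?_⟩
  have h1 := h N hN
  push_cast at h1
  exact h1

end R3
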