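import Pool.Agent.MP_0f71ae_nt.R3Q.Basic
import Pool.Agent.MP_0f71ae_nt.R3.FDefs
import Pool.Agent.MP_0f71ae_nt.R3.Four2

/-!
# [R3Q] Fourier expansion of the kernel of a function, mass of the spectrum, smoothing
-/

set_option linter.unusedSectionVars false

open Finset

namespace R3

variable {G : Type*} [AddCommGroup G] [Fintype G] [DecidableEq G]

/-- spectral weights -/
noncomputable def qlam (a : G → ℕ) (n : ℝ) (S : Finset G) (ξ : AddChar G ℂ) : ℝ :=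
  n / (mass a ^ 2 * Fintype.card G * (#S : ℝ) ^ 2) * ‖∑ w : G, (a w : ℂ) * ξ w‖ ^ 2 *
    ‖∑ x ∈ S, ξ x‖ ^ 2

theorem qlam_nonneg (a : G → ℕ) (n : ℝ) (hn : 0 < n) (S : Finset G) (ξ : AddChar G ℂ) :
    0 ≤ qlam a n S ξ := by
  unfold qlam; positivity

/-- the kernel sum as a sum of squares -/
theorem qf_sum_eq (a : G → ℕ) (n : ℝ) (S T : Finset G) :
    ∑ t ∈ T, ∑ t' ∈ T, ∑ x ∈ S, ∑ y ∈ S, QX a n (x + t) (y + t') =
      n / mass a ^ 2 * ∑ w : G, (∑ x ∈ S, ∑ t ∈ T, (a (w + (x + t)) : ℝ)) ^ 2 := by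
  unfold QX
  simp_rw [← Finset.mul_sum]
  congr 1
  have h2 : ∀ w : G, (∑ x ∈ S, ∑ t ∈ T, (a (w + (x + t)) : ℝ)) ^ 2 =
      ∑ t ∈ T, ∑ t' ∈ T, ∑ x ∈ S, ∑ y ∈ S, (a (w + (x + t)) : ℝ) * a (w + (y + t')) := by
    intro w
    rw [Finset.sum_comm, sq, Finset.sum_mul_sum]
    refine Finset.sum_congr rfl fun t _ => Finset.sum_congr rfl fun t' _ => ?_
    rw [Finset.sum_mul_sum]
  simp_rw [h2]
  symm
  rw [Finset.sum_comm]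
  refine Finset.sum_congr rfl fun t _ => ?_
  rw [Finset.sum_comm]
  refine Finset.sum_congr rfl fun t' _ => ?_
  rw [Finset.sum_comm]
  refine Finset.sum_congr rfl fun x _ => ?_
  rw [Finset.sum_comm]

theorem qf_transform (a : G → ℕ) (S T : Finset G) (ξ : AddChar G ℂ) :
    ∑ w : G, ((∑ x ∈ S, ∑ t ∈ T, (a (w + (x + t)) : ℝ) : ℝ) : ℂ) * ξ w =
      (∑ w : G, (a w : ℂ) * ξ w) * (∑ x ∈ S, ξ (-x)) * (∑ t ∈ T, ξ (-t)) := by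
  have h1 : ∀ x t : G, ∑ w : G, (a (w + (x + t)) : ℂ) * ξ w =
      (∑ w : G, (a w : ℂ) * ξ w) * ξ (-x) * ξ (-t) := by
    intro x t
    have h2 : ∀ w : G, (a (w + (x + t)) : ℂ) * ξ w =
        (fun v : G => (a v : ℂ) * ξ v * ξ (-x) * ξ (-t)) (w + (x + t)) := by
      intro w
      simp only
      rw [mul_assoc, mul_assoc, ← AddChar.map_add_eq_mul, ← AddChar.map_add_eq_mul]
      congr 2
      abel
    rw [Finset.sum_congr rfl fun w _ => h2 w]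
    have h4 : ∑ w : G, (fun v : G => (a v : ℂ) * ξ v * ξ (-x) * ξ (-t)) (w + (x + t)) =
        ∑ v : G, (a v : ℂ) * ξ v * ξ (-x) * ξ (-t) :=
      Equiv.sum_comp (Equiv.addRight (x + t))
        (fun v : G => (a v : ℂ) * ξ v * ξ (-x) * ξ (-t))
    rw [h4, ← Finset.sum_mul, ← Finset.sum_mul]
  have h5 : ∀ w : G, ((∑ x ∈ S, ∑ t ∈ T, (a (w + (x + t)) : ℝ) : ℝ) : ℂ) * ξ w =
      ∑ x ∈ S, ∑ t ∈ T, (a (w + (x + t)) : ℂ) * ξ w := by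
    intro w
    rw [Complex.ofReal_sum, Finset.sum_mul]
    refine Finset.sum_congr rfl fun x _ => ?_
    rw [Complex.ofReal_sum, Finset.sum_mul]
    refine Finset.sum_congr rfl fun t _ => ?_
    rw [Complex.ofReal_natCast]
  rw [Finset.sum_congr rfl fun w _ => h5 w, Finset.sum_comm]
  have h3 : ∀ x ∈ S, ∑ w : G, ∑ t ∈ T, (a (w + (x + t)) : ℂ) * ξ w =
      (∑ w : G, (a w : ℂ) * ξ w) * ξ (-x) * ∑ t ∈ T, ξ (-t) := by
    intro x _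
    rw [Finset.sum_comm, Finset.mul_sum]
    exact Finset.sum_congr rfl fun t _ => h1 x t
  rw [Finset.sum_congr rfl h3, ← Finset.sum_mul, ← Finset.mul_sum]

/-- [R3Q-F1a] the expansion over a set `T` (adapt `sum_X_shift`, R3/Four1.lean; `parseval` is proved there).
`r(w) := ∑_{x∈S} ∑_{t∈T} a(w+(x+t))`; left side `= n/|a|² ∑_w r(w)²`;
`∑_w r(w) ξ(w) = (∑_w a(w) ξ(w)) · conj(∑_{x∈S} ξ x) · conj(∑_{t∈T} ξ t)`. -/
theorem q_sum_X_shift (a : G → ℕ) (n : ℝ) (S T : Finset G) (hS : S.Nonempty) :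
    ∑ t ∈ T, ∑ t' ∈ T, ∑ x ∈ S, ∑ y ∈ S, QX a n (x + t) (y + t') =
      (#S : ℝ) ^ 2 * ∑ ξ : AddChar G ℂ, qlam a n S ξ * ‖∑ t ∈ T, ξ t‖ ^ 2 := by
  have hG : (Fintype.card G : ℝ) ≠ 0 := Nat.cast_ne_zero.2 Fintype.card_ne_zero
  have hS0 : (#S : ℝ) ≠ 0 := Nat.cast_ne_zero.2 hS.card_pos.ne'
  rw [qf_sum_eq]
  have h1 := parseval (fun w : G => ∑ x ∈ S, ∑ t ∈ T, (a (w + (x + t)) : ℝ))
  have h2 : ∀ ξ : AddChar G ℂ, ‖∑ w : G,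
      ((∑ x ∈ S, ∑ t ∈ T, (a (w + (x + t)) : ℝ) : ℝ) : ℂ) * ξ w‖ ^ 2 =
      ‖∑ w : G, (a w : ℂ) * ξ w‖ ^ 2 * ‖∑ x ∈ S, ξ x‖ ^ 2 * ‖∑ t ∈ T, ξ t‖ ^ 2 := by
    intro ξ
    rw [qf_transform, norm_mul, norm_mul, f1_norm_neg, f1_norm_neg, mul_pow, mul_pow]
  simp only [h2] at h1
  have h3 : ∑ w : G, (∑ x ∈ S, ∑ t ∈ T, (a (w + (x + t)) : ℝ)) ^ 2 =
      (Fintype.card G : ℝ)⁻¹ * ∑ ξ : AddChar G ℂ,
        ‖∑ w : G, (a w : ℂ) * ξ w‖ ^ 2 * ‖∑ x ∈ S, ξ x‖ ^ 2 * ‖∑ t ∈ T, ξ t‖ ^ 2 := by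
    rw [h1, ← mul_assoc, inv_mul_cancel₀ hG, one_mul]
  rw [h3, Finset.mul_sum, Finset.mul_sum, Finset.mul_sum]
  refine Finset.sum_congr rfl fun ξ _ => ?_
  unfold qlam
  by_cases hA : mass a = 0
  · rw [hA]; simp
  · field_simp

/-- [R3Q-F1b] total mass: `q_sum_X_shift` with `T = {0}`. -/
theorem q_sum_lam (a : G → ℕ) (n : ℝ) (S : Finset G) (hS : S.Nonempty) :
    ∑ ξ : AddChar G ℂ, qlam a n S ξ = QK a n S S := by
  have hS0 : (#S : ℝ) ≠ 0 := Nat.cast_ne_zero.2 hS.card_pos.ne'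
  have h1 := q_sum_X_shift a n S {0} hS
  simp only [sum_singleton, add_zero, AddChar.map_zero_eq_one, norm_one, one_pow, mul_one] at h1
  rw [← card_mul_QK] at h1
  have h2 : (#S : ℝ) ^ 2 ≠ 0 := pow_ne_zero _ hS0
  apply mul_left_cancel₀ h2
  rw [← h1]
  ring

/-- the kernel sum over `S × S` of a shift, as a weighted sum of `‖ft T ξ‖²` -/
theorem qf_shift (a : G → ℕ) (n : ℝ) (S T : Finset G) (hS : S.Nonempty) (hT : T.Nonempty) :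
    ∑ t ∈ T, ∑ t' ∈ T, ∑ x ∈ S, ∑ y ∈ S, QX a n (x + t) (y + t') =
      (#S : ℝ) ^ 2 * (#T : ℝ) ^ 2 * ∑ ξ : AddChar G ℂ, qlam a n S ξ * ‖ft T ξ‖ ^ 2 := by
  rw [q_sum_X_shift a n S T hS, mul_assoc]
  congr 1
  rw [Finset.mul_sum]
  refine Finset.sum_congr rfl fun ξ _ => ?_
  rw [f2_ft_norm T hT ξ]
  ring

/-- [R3Q-F2a] `λ(Spec T) ≥ (1-2δ) K` (adapt `spec_mass`, R3/Four2.lean). -/
theorem q_spec_mass (a : G → ℕ) (n : ℝ) (hn : 0 < n) (S T : Finset G) (hS : S.Nonempty)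
    (hT : T.Nonempty) (δ : ℝ)
    (h : ∀ t ∈ T, ∀ t' ∈ T, (1 - δ) * QK a n S S * (#S : ℝ) ^ 2 ≤
      ∑ x ∈ S, ∑ y ∈ S, QX a n (x + t) (y + t')) :
    (1 - 2 * δ) * QK a n S S ≤ ∑ ξ ∈ Spec T, qlam a n S ξ := by
  have hS0 : (0 : ℝ) < #S := by exact_mod_cast hS.card_pos
  have hT0 : (0 : ℝ) < #T := by exact_mod_cast hT.card_pos
  have h1 : (1 - δ) * QK a n S S ≤ ∑ ξ : AddChar G ℂ, qlam a n S ξ * ‖ft T ξ‖ ^ 2 := by
    have h2 : ∑ t ∈ T, ∑ t' ∈ T, (1 - δ) * QK a n S S * (#S : ℝ) ^ 2 ≤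
        ∑ t ∈ T, ∑ t' ∈ T, ∑ x ∈ S, ∑ y ∈ S, QX a n (x + t) (y + t') :=
      Finset.sum_le_sum fun t ht => Finset.sum_le_sum fun t' ht' => h t ht t' ht'
    rw [qf_shift a n S T hS hT] at h2
    simp only [sum_const, nsmul_eq_mul] at h2
    have h3 : (0 : ℝ) < (#S : ℝ) ^ 2 * (#T : ℝ) ^ 2 := by positivity
    refine le_of_mul_le_mul_left ?_ h3
    calc (#S : ℝ) ^ 2 * (#T : ℝ) ^ 2 * ((1 - δ) * QK a n S S)
        = #T * (#T * ((1 - δ) * QK a n S S * (#S : ℝ) ^ 2)) := by ring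
      _ ≤ _ := h2
  have h2 := q_sum_lam a n S hS
  have h3 : ∑ ξ : AddChar G ℂ, qlam a n S ξ =
      ∑ ξ ∈ Spec T, qlam a n S ξ + ∑ ξ ∈ (Spec T)ᶜ, qlam a n S ξ :=
    (Finset.sum_add_sum_compl _ _).symm
  have h4 : ∑ ξ ∈ (Spec T)ᶜ, qlam a n S ξ ≤
      ∑ ξ : AddChar G ℂ, 2 * (qlam a n S ξ * (1 - ‖ft T ξ‖ ^ 2)) := by
    calc ∑ ξ ∈ (Spec T)ᶜ, qlam a n S ξ
        ≤ ∑ ξ ∈ (Spec T)ᶜ, 2 * (qlam a n S ξ * (1 - ‖ft T ξ‖ ^ 2)) := by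
          refine Finset.sum_le_sum fun ξ hξ => ?_
          have h5 : ‖ft T ξ‖ ^ 2 < 1 / 2 := by
            have h6 := Finset.mem_compl.1 hξ
            unfold Spec at h6
            simp only [mem_filter, mem_univ, true_and, not_le] at h6
            exact h6
          nlinarith [qlam_nonneg a n hn S ξ]
      _ ≤ _ := by
          apply Finset.sum_le_sum_of_subset_of_nonneg (Finset.subset_univ _)
          intro ξ _ _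
          have h5 := f2_ft_le T hT ξ
          have h6 := qlam_nonneg a n hn S ξ
          have h7 : 0 ≤ 1 - ‖ft T ξ‖ ^ 2 := by linarith
          positivity
  have h5 : ∑ ξ : AddChar G ℂ, 2 * (qlam a n S ξ * (1 - ‖ft T ξ‖ ^ 2)) =
      2 * (∑ ξ : AddChar G ℂ, qlam a n S ξ - ∑ ξ : AddChar G ℂ, qlam a n S ξ * ‖ft T ξ‖ ^ 2) := by
    rw [← Finset.mul_sum, ← Finset.sum_sub_distrib]
    congr 1
    exact Finset.sum_congr rfl fun ξ _ => by ring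
  rw [h5] at h4
  linarith

/-- [R3Q-F2b] from the spectrum to the smoothed kernel.
Proof. For `ξ ∈ Spec T`, `‖∑_{b∈B} ξ b‖ ≥ (1-δ)|B|`; `QK_smooth` and `q_sum_X_shift` (with `T := B`):
`|B|²|S|² K_{smooth a B}(S,S) = |S|² ∑_ξ λ(ξ) ‖∑_{b∈B} ξ b‖² ≥ |S|²|B|² (1-δ)²(1-2δ) K ≥ |S|²|B|²(1-4δ) K`. -/
theorem q_smooth_ge (a : G → ℕ) (n : ℝ) (hn : 0 < n) (S T B : Finset G)
    (hS : S.Nonempty) (hB : B.Nonempty) (δ : ℝ) (hδ : 0 ≤ δ) (hδ1 : δ ≤ 1 / 2)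
    (hspec : (1 - 2 * δ) * QK a n S S ≤ ∑ ξ ∈ Spec T, qlam a n S ξ)
    (hclose : ∀ ξ ∈ Spec T, ∀ b ∈ B, ‖ξ b - 1‖ ≤ δ) :
    (1 - 4 * δ) * QK a n S S ≤ QK (smooth a B) n S S := by
  have hS0 : (0 : ℝ) < #S := by exact_mod_cast hS.card_pos
  have hB0 : (0 : ℝ) < #B := by exact_mod_cast hB.card_pos
  have hK := QK_nonneg a n hn S S
  -- lower bound
  have hlow : ∀ ξ ∈ Spec T, ((1 - δ) * #B) ^ 2 ≤ ‖∑ b ∈ B, ξ b‖ ^ 2 := by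
    intro ξ hξ
    have h1 : ‖∑ b ∈ B, (ξ b - 1)‖ ≤ #B * δ := by
      refine (norm_sum_le _ _).trans ?_
      refine (Finset.sum_le_sum fun b hb => hclose ξ hξ b hb).trans ?_
      simp
    have h2 : ∑ b ∈ B, (ξ b - 1) = ∑ b ∈ B, ξ b - (#B : ℂ) := by
      rw [Finset.sum_sub_distrib]; simp
    rw [h2] at h1
    have h3 : (#B : ℝ) ≤ ‖∑ b ∈ B, ξ b‖ + ‖∑ b ∈ B, ξ b - (#B : ℂ)‖ := by
      have h4 : ‖(#B : ℂ)‖ = (#B : ℝ) := Complex.norm_natCast _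
      rw [← h4]
      calc ‖(#B : ℂ)‖ = ‖∑ b ∈ B, ξ b - (∑ b ∈ B, ξ b - (#B : ℂ))‖ := by
            congr 1; ring
        _ ≤ _ := norm_sub_le _ _
    have h5 : (1 - δ) * #B ≤ ‖∑ b ∈ B, ξ b‖ := by nlinarith
    have h6 : 0 ≤ (1 - δ) * #B := mul_nonneg (by linarith) hB0.le
    exact pow_le_pow_left₀ h6 h5 2
  have h1 : (1 - 4 * δ) * QK a n S S * (#B : ℝ) ^ 2 ≤
      ∑ ξ : AddChar G ℂ, qlam a n S ξ * ‖∑ b ∈ B, ξ b‖ ^ 2 := by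
    calc (1 - 4 * δ) * QK a n S S * (#B : ℝ) ^ 2
        ≤ (1 - 2 * δ) * QK a n S S * ((1 - δ) * #B) ^ 2 := by
          have h2 : (1 - 4 * δ) ≤ (1 - 2 * δ) * (1 - δ) ^ 2 := by
            nlinarith [mul_nonneg hδ hδ, mul_nonneg (mul_nonneg hδ hδ) (by linarith : 0 ≤ 1 / 2 - δ)]
          have h3 : 0 ≤ QK a n S S * (#B : ℝ) ^ 2 := by positivity
          calc (1 - 4 * δ) * QK a n S S * (#B : ℝ) ^ 2
              = (1 - 4 * δ) * (QK a n S S * (#B : ℝ) ^ 2) := by ring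
            _ ≤ ((1 - 2 * δ) * (1 - δ) ^ 2) * (QK a n S S * (#B : ℝ) ^ 2) :=
                mul_le_mul_of_nonneg_right h2 h3
            _ = _ := by ring
      _ ≤ (∑ ξ ∈ Spec T, qlam a n S ξ) * ((1 - δ) * #B) ^ 2 :=
          mul_le_mul_of_nonneg_right hspec (sq_nonneg _)
      _ = ∑ ξ ∈ Spec T, qlam a n S ξ * ((1 - δ) * #B) ^ 2 := by rw [Finset.sum_mul]
      _ ≤ ∑ ξ ∈ Spec T, qlam a n S ξ * ‖∑ b ∈ B, ξ b‖ ^ 2 :=
          Finset.sum_le_sum fun ξ hξ =>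
            mul_le_mul_of_nonneg_left (hlow ξ hξ) (qlam_nonneg a n hn S ξ)
      _ ≤ _ := by
          apply Finset.sum_le_sum_of_subset_of_nonneg (Finset.subset_univ _)
          intro ξ _ _
          exact mul_nonneg (qlam_nonneg a n hn S ξ) (sq_nonneg _)
  have h2 := QK_smooth a n B S S hB
  rw [q_sum_X_shift a n S B hS] at h2
  have h3 : (0 : ℝ) < (#B : ℝ) ^ 2 * (#S * #S) := by positivity
  refine le_of_mul_le_mul_left ?_ h3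
  rw [h2]
  calc (#B : ℝ) ^ 2 * (#S * #S) * ((1 - 4 * δ) * QK a n S S)
      = (#S : ℝ) ^ 2 * ((1 - 4 * δ) * QK a n S S * (#B : ℝ) ^ 2) := by ring
    _ ≤ _ := mul_le_mul_of_nonneg_left h1 (by positivity)

end R3
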