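import Pool.Agent.MP_0f71ae_nt.R3Q.Basic
import Pool.Agent.MP_0f71ae_nt.R3.FDefs

/-!
# [R3Q] Mixtures of translates of `1_A`
-/

set_option linter.unusedSectionVars false

open Finset

namespace R3

variable {G : Type*} [AddCommGroup G] [Fintype G] [DecidableEq G]
variable {A : Finset G} {Γ : Finset (AddChar G ℂ)} {a : G → ℕ} {τ : ℝ}

/-- [R3Q-M1] `k = 1`, `t = 0`. -/
theorem mix_ind (A : Finset G) (Γ : Finset (AddChar G ℂ)) :
    Mix A (bohr Γ 0 : Set G) (ind A) := by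
  refine ⟨1, fun _ => 0, Nat.one_pos, fun _ => ?_, fun w => ?_⟩
  · exact Finset.mem_coe.2 (zero_mem_bohr le_rfl)
  · unfold ind
    by_cases h : w ∈ A
    · simp [h]
    · simp [h]

/-- the smoothing of a mixture as a sum over the family -/
theorem qm_smooth_eq {k : ℕ} {t : Fin k → G} (h : ∀ w, a w = #{i : Fin k | w + t i ∈ A})
    (B : Finset G) (w : G) :
    R3.smooth a B w = ∑ i : Fin k, #(B.filter fun b => (w + t i) + b ∈ A) := by
  unfold R3.smooth
  simp_rw [h, Finset.card_filter]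
  rw [Finset.sum_comm]
  refine Finset.sum_congr rfl fun i _ => Finset.sum_congr rfl fun b _ => ?_
  rw [add_right_comm]

/-- [R3Q-M2] mass of a mixture, and sup of a smoothed mixture:
`(smooth a B)(w) = ∑_i #{b ∈ B : (w + t_i) + b ∈ A} ≤ k c`. -/
theorem Mix.mass_sup (h : Mix A (bohr Γ τ : Set G) a) :
    ∃ k : ℕ, 0 < k ∧ mass a = k * #A ∧
      ∀ (B : Finset G) (c : ℝ), (∀ v, (#(B.filter fun b => v + b ∈ A) : ℝ) ≤ c) →
        ∀ w, (smooth a B w : ℝ) ≤ k * c := by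
  obtain ⟨k, t, hk, _, ha⟩ := h
  refine ⟨k, hk, ?_, fun B c hc w => ?_⟩
  · unfold mass
    simp_rw [ha, Finset.card_filter]
    push_cast
    rw [Finset.sum_comm]
    have h1 : ∀ i : Fin k, ∑ w : G, (if w + t i ∈ A then (1 : ℝ) else 0) = #A := by
      intro i
      have h5 : ∑ w : G, (if w + t i ∈ A then (1 : ℝ) else 0) =
          ∑ w : G, if w ∈ A then (1 : ℝ) else 0 :=
        Equiv.sum_comp (Equiv.addRight (t i)) (fun w : G => if w ∈ A then (1 : ℝ) else 0)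
      rw [h5]
      simp
    rw [Finset.sum_congr rfl fun i _ => h1 i]
    simp
  · rw [qm_smooth_eq ha]
    push_cast
    refine (Finset.sum_le_sum fun i _ => hc (w + t i)).trans ?_
    simp

/-- [R3Q-M3] smoothing preserves mixtures: family `(i,b) ↦ t_i + b`, `Fin k × B ≃ Fin (k * #B)`. -/
theorem Mix.smooth (h : Mix A (bohr Γ τ : Set G) a) {τ' : ℝ} (B : Finset G)
    (hB : B ⊆ bohr Γ τ') (hne : B.Nonempty) :
    Mix A (bohr Γ (τ + τ') : Set G) (R3.smooth a B) := by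
  obtain ⟨k, t, hk, ht, ha⟩ := h
  let e : Fin (k * #B) ≃ Fin k × B :=
    (finProdFinEquiv.symm).trans (Equiv.prodCongr (Equiv.refl _) B.equivFin.symm)
  refine ⟨k * #B, fun j => t (e j).1 + ((e j).2 : G), Nat.mul_pos hk hne.card_pos,
    fun j => ?_, fun w => ?_⟩
  · exact Finset.mem_coe.2 (add_mem_bohr (Finset.mem_coe.1 (ht _)) (hB (e j).2.2))
  · rw [qm_smooth_eq ha]
    simp_rw [Finset.card_filter]
    have h1 : ∑ j : Fin (k * #B), (if w + (t (e j).1 + ((e j).2 : G)) ∈ A then 1 else 0) =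
        ∑ p : Fin k × B, (if w + (t p.1 + (p.2 : G)) ∈ A then 1 else 0) :=
      Equiv.sum_comp e (fun p : Fin k × B => if w + (t p.1 + (p.2 : G)) ∈ A then 1 else 0)
    rw [h1, Fintype.sum_prod_type]
    refine Finset.sum_congr rfl fun i _ => ?_
    rw [← Finset.sum_coe_sort B (fun b : G => if w + t i + b ∈ A then 1 else 0)]
    refine Finset.sum_congr rfl fun b _ => ?_
    rw [add_assoc]

/-- [R3Q-M4] support. -/
theorem Mix.supp (h : Mix A (bohr Γ τ : Set G) a) {ρ : ℝ} {w x : G} (hx : x ∈ bohr Γ ρ)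
    (ha : a (w + x) ≠ 0) : ∃ y ∈ bohr Γ (ρ + τ), w + y ∈ A := by
  obtain ⟨k, t, hk, ht, h1⟩ := h
  rw [h1] at ha
  obtain ⟨i, hi⟩ := Finset.card_pos.1 (Nat.pos_of_ne_zero ha)
  rw [Finset.mem_filter] at hi
  refine ⟨x + t i, add_mem_bohr hx (Finset.mem_coe.1 (ht i)), ?_⟩
  rw [← add_assoc]
  exact hi.2

end R3
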