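import Pool.Agent.MP_0f71ae_nt.R3Q.Core
import Pool.Agent.MP_0f71ae_nt.R3Q.Chang
import Pool.Agent.MP_0f71ae_nt.R3Q.Mix

/-!
# [R3Q] section 6: the stages
-/

set_option linter.unusedSectionVars false

open Finset

namespace R3

variable {G : Type*} [AddCommGroup G] [Fintype G] [DecidableEq G]

/-- numerical facts on the parameters -/
theorem ql1_num (L Λ e D g0 : ℝ) (hL : 1 ≤ L) (he0 : 0 < e) (he1 : e ≤ 1 / 1000)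
    (hDΓ : g0 + 10 ^ 12 * L ^ 3 * ll L ^ 2 / e ^ 8 ≤ D) (hg0 : 0 ≤ g0)
    (hΛ : 1 ≤ Λ) (hΛL : Λ ≤ L) :
    0 ≤ 10 ^ 10 * Λ * L ^ 2 * ll L ^ 2 / e ^ 8 ∧
    10 ^ 10 * Λ * L ^ 2 * ll L ^ 2 / e ^ 8 + 3 ≤ D ∧
    g0 + 4 * (10 ^ 10 * Λ * L ^ 2 * ll L ^ 2 / e ^ 8 + 2) ≤ D ∧
    4 * (10 ^ 10 * Λ * L ^ 2 * ll L ^ 2 / e ^ 8 + 2) ≤
      10 ^ 12 * (3 / 10 * Λ) * L ^ 2 * ll L ^ 2 / e ^ 8 := by
  have hl := one_lt_ll hL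
  have he8 : 0 < e ^ 8 := by positivity
  have he81 : e ^ 8 ≤ 1 := pow_le_one₀ he0.le (by linarith)
  set Y : ℝ := Λ * L ^ 2 * ll L ^ 2 / e ^ 8 with hY
  set X : ℝ := L ^ 3 * ll L ^ 2 / e ^ 8 with hX
  have hL2 : 1 ≤ L ^ 2 := one_le_pow₀ hL
  have hl2 : 1 ≤ ll L ^ 2 := one_le_pow₀ hl.le
  have hY1 : 1 ≤ Y := by
    rw [hY, le_div_iff₀ he8, one_mul]
    have h1 : 1 ≤ Λ * L ^ 2 := by nlinarith
    have h2 : 1 ≤ Λ * L ^ 2 * ll L ^ 2 := by nlinarith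
    linarith
  have hYX : Y ≤ X := by
    rw [hY, hX]
    apply div_le_div_of_nonneg_right _ he8.le
    have h1 : 0 ≤ L ^ 2 * ll L ^ 2 := by positivity
    calc Λ * L ^ 2 * ll L ^ 2 = Λ * (L ^ 2 * ll L ^ 2) := by ring
      _ ≤ L * (L ^ 2 * ll L ^ 2) := mul_le_mul_of_nonneg_right hΛL h1
      _ = L ^ 3 * ll L ^ 2 := by ring
  have e1 : 10 ^ 10 * Λ * L ^ 2 * ll L ^ 2 / e ^ 8 = 10 ^ 10 * Y := by rw [hY]; ring
  have e2 : 10 ^ 12 * L ^ 3 * ll L ^ 2 / e ^ 8 = 10 ^ 12 * X := by rw [hX]; ring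
  have e3 : 10 ^ 12 * (3 / 10 * Λ) * L ^ 2 * ll L ^ 2 / e ^ 8 = 10 ^ 12 * (3 / 10) * Y := by
    rw [hY]; ring
  rw [e1, e3]
  rw [e2] at hDΓ
  refine ⟨by linarith, by linarith, by linarith, by linarith⟩

/-- the logarithm of `1 - 48e` -/
theorem ql1_log (e : ℝ) (he0 : 0 < e) (he1 : e ≤ 1 / 1000) :
    -(51 * e) ≤ Real.log (1 - 48 * e) := by
  have h1 : 0 < 1 - 48 * e := by linarith
  have h2 := Real.one_sub_inv_le_log_of_pos h1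
  refine le_trans ?_ h2
  have h3 : (1 - 48 * e)⁻¹ ≤ 1 + 51 * e := by
    rw [inv_le_comm₀ h1 (by linarith)]
    rw [inv_le_iff_one_le_mul₀ (by linarith)]
    nlinarith
  linarith

/-- [R3Q-L1] one stage: either a large density increment or a new kernel.
Proof.  `κ`-chain `Dj j = bohr Γ ((1 + jκ)ρ₃)`, `B = bohr Γ ρ₄`.  `qcore` (for `W`: `Mix.supp` and `2ρ₃ + τ ≤ 3ρ₃ ≤ σ`) gives
`i, S, T`, `M = 10^10 Λ L² ll²/e⁸`; `q_chang` gives `Λs`, `|Λs| ≤ 4(M+2) ≤ 5·10^10 Λ L² ll²/e⁸`; `Γ' := Γ ∪ Λs`, `|Γ'| ≤ D`, `M+3 ≤ D`;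
`exists_reg` with `r = ρ₄·12e/(10^8D²(M+3))` gives `ρ' ∈ [r/2, r]`; `B₆ = bohr Γ' ρ'`, `a' := smooth a B₆`.
If some `v` has `exp(3Λ/10)(|A₁|/n)|B₆| ≤ #{b∈B₆ : v+b∈A₁}`: first alternative, `g = 3Λ/10`.
Otherwise (`Mix.mass_sup`) `n a'(w) ≤ exp(3Λ/10) |a'|`; `Psi a' (Dj i) S ≥ Psi a (Dj i) S + log(1-48e) ≥ c0 - e - 51e`;
and `3Λ/10 ≥ log K_{a'}(S) ≥ log K_a(S) - 51e ≥ 3/10 + 1/12 - 51e > 3/10`, so `Λ > 1`. -/
theorem q_stage (A₁ : Finset G) (hA₁ : A₁.Nonempty) (n : ℝ) (Γ : Finset (AddChar G ℂ))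
    (D L e : ℝ) (hL : 1 ≤ L) (he0 : 0 < e) (he1 : e ≤ 1 / 1000)
    (hDΓ : #Γ + 10 ^ 12 * L ^ 3 * ll L ^ 2 / e ^ 8 ≤ D) (σ ρ₃ ρ₄ κ : ℝ) (hρ₃ : 0 < ρ₃)
    (hρ₃2 : ρ₃ ≤ 2) (hρ₄ : 0 < ρ₄) (hσ : 3 * ρ₃ ≤ σ) (W : Finset G) (hW : (#W : ℝ) ≤ 2 * n)
    (hWs : ∀ y ∈ bohr (G := G) Γ σ, ∀ w, w + y ∈ A₁ → w ∈ W) (k : ℕ) (hκ : 0 < κ)
    (hkκ : k * κ ≤ 1)
    (hgrow3 : (#(bohr (G := G) Γ ((1 + k * κ) * ρ₃)) : ℝ) ≤
      Real.exp (1 / 100) * #(bohr (G := G) Γ ρ₃)) (hρκ : 2 * ρ₄ ≤ κ * ρ₃)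
    (hgrow4 : (#(bohr (G := G) Γ ((1 + 1 / (20 * D)) * ρ₄)) : ℝ) ≤ 2 * #(bohr (G := G) Γ ρ₄))
    (k₁ : ℕ) (hk₁ : 100 * L ≤ k₁) (a : G → ℕ) (Λ c0 τ : ℝ) (i0 : ℕ) (S₀ : Finset G)
    (hmix : Mix A₁ (bohr Γ τ : Set G) a) (hτ0 : 0 ≤ τ) (hτ : τ ≤ ρ₃) (hk : Kern a n Λ)
    (hΛL : Λ ≤ L) (hS₀ : S₀ ⊆ bohr Γ ((1 + i0 * κ) * ρ₃)) (hne : S₀.Nonempty)
    (hc0 : 3 / 10 + e ≤ c0)
    (hstart : c0 ≤ Psi a n L e (bohr Γ ((1 + i0 * κ) * ρ₃)) S₀) (hi0 : i0 + k₁ ≤ k) :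
    (∃ (Γ' : Finset (AddChar G ℂ)) (ρ' g : ℝ), Γ ⊆ Γ' ∧ 3 / 10 ≤ g ∧
      (#Γ' : ℝ) ≤ #Γ + 10 ^ 12 * g * L ^ 2 * ll L ^ 2 / e ^ 8 ∧
      ρ₄ * e / (10 ^ 9 * D ^ 3) ≤ ρ' ∧ ρ' ≤ ρ₄ ∧ Reg D Γ' ρ' ∧
      Dens A₁ Γ' ρ' (Real.exp g * (#A₁ / n))) ∨
    (1 < Λ ∧ ∃ (a' : G → ℕ) (i : ℕ) (S : Finset G), i < i0 + k₁ ∧
      Mix A₁ (bohr Γ (τ + ρ₄) : Set G) a' ∧ Kern a' n (max 1 (3 / 10 * Λ)) ∧
      S ⊆ bohr Γ ((1 + i * κ) * ρ₃) ∧ S.Nonempty ∧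
      c0 - 52 * e ≤ Psi a' n L e (bohr Γ ((1 + i * κ) * ρ₃)) S) := by
  have hΛ1 : 1 ≤ Λ := hk.one_le
  have hn : 0 < n := hk.n_pos
  obtain ⟨hM0, hM3, hMΓ, hMg⟩ := ql1_num L Λ e D #Γ hL he0 he1 hDΓ (Nat.cast_nonneg _) hΛ1 hΛL
  set M : ℝ := 10 ^ 10 * Λ * L ^ 2 * ll L ^ 2 / e ^ 8 with hM
  have hD1 : 1 ≤ D := by linarith
  have hD0 : 0 < D := by linarith
  have hΓD : (#Γ : ℝ) ≤ D := by linarith
  -- the index bounds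
  have hik : ((i0 : ℝ) + k₁) ≤ k := by exact_mod_cast hi0
  have hi00 : (0 : ℝ) ≤ i0 := Nat.cast_nonneg _
  have hk100 : (100 : ℝ) ≤ k := by linarith
  have hκ1 : κ ≤ 1 / 100 := by nlinarith
  have hρ₄3 : ρ₄ ≤ ρ₃ := by nlinarith
  have hρ₄2 : ρ₄ ≤ 2 := by linarith
  -- the core theorem
  have hcore := qcore hk hΛL he0 he1 i0 k₁ (by linarith)
    (fun j : ℕ => bohr (G := G) Γ ((1 + j * κ) * ρ₃))
    (by
      intro i _ _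
      apply bohr_mono
      push_cast
      nlinarith [mul_pos hκ hρ₃])
    (by
      have h1 : (#(bohr (G := G) Γ ((1 + ((i0 + k₁ : ℕ) : ℝ) * κ) * ρ₃)) : ℝ) ≤
          #(bohr (G := G) Γ ((1 + k * κ) * ρ₃)) := by
        have h2 : (((i0 + k₁ : ℕ) : ℝ)) ≤ k := by exact_mod_cast hi0
        have h3 : (1 + ((i0 + k₁ : ℕ) : ℝ) * κ) * ρ₃ ≤ (1 + k * κ) * ρ₃ := by gcongr
        exact_mod_cast Finset.card_le_card (bohr_mono h3)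
      have h4 : (#(bohr (G := G) Γ ρ₃) : ℝ) ≤ #(bohr (G := G) Γ ((1 + (i0 : ℝ) * κ) * ρ₃)) := by
        have h5 : ρ₃ ≤ (1 + (i0 : ℝ) * κ) * ρ₃ := by
          nlinarith [mul_nonneg (mul_nonneg hi00 hκ.le) hρ₃.le]
        exact_mod_cast Finset.card_le_card (bohr_mono h5)
      refine h1.trans (hgrow3.trans ?_)
      exact mul_le_mul_of_nonneg_left h4 (Real.exp_pos _).le)
    W hW
    (by
      intro x hx w hw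
      obtain ⟨y, hy, hwy⟩ := hmix.supp hx hw
      refine hWs y (bohr_mono ?_ hy) w hwy
      have h1 : ((i0 + k₁ : ℕ) : ℝ) * κ ≤ 1 := by
        refine le_trans ?_ hkκ
        have h2 : (((i0 + k₁ : ℕ) : ℝ)) ≤ k := by exact_mod_cast hi0
        gcongr
      nlinarith)
    (bohr Γ ρ₄) (zero_mem_bohr hρ₄.le)
    (by
      intro i _ _ y hy t ht t' ht'
      have h1 := add_mem_bohr hy (sub_mem_bohr ht' ht)
      refine bohr_mono ?_ h1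
      push_cast
      nlinarith)
    S₀ hS₀ hne c0 hc0 hstart
  obtain ⟨i, hi1, hi2, S, hSD, hSne, hPsi, T, hTB, hTne, hTcard, hTX⟩ := hcore
  obtain ⟨Λs, hΛs, hch⟩ := q_chang a n hn S hSne Γ D hD1 hΓD ρ₄ hρ₄ hρ₄2 hgrow4 T hTne hTB M hM0
    hTcard e he0 he1 hTX
  have hΓ' : (#(Γ ∪ Λs) : ℝ) ≤ #Γ + #Λs := by exact_mod_cast Finset.card_union_le _ _
  have hden : 0 < 10 ^ 8 * D ^ 2 * (M + 3) := by positivity
  obtain ⟨ρ', hr1, hr2, hreg, _⟩ := exists_reg hD1 (Γ ∪ Λs) (by linarith)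
    (ρ₄ * (12 * e) / (10 ^ 8 * D ^ 2 * (M + 3))) (by positivity)
  have hρ'0 : 0 < ρ' := lt_of_lt_of_le (by positivity) hr1
  have hρ'low : ρ₄ * e / (10 ^ 9 * D ^ 3) ≤ ρ' := by
    refine le_trans ?_ hr1
    rw [div_div, div_le_div_iff₀ (by positivity) (by positivity)]
    have h1 : D ^ 2 * (M + 3) ≤ D ^ 3 := by
      calc D ^ 2 * (M + 3) ≤ D ^ 2 * D := by gcongr
        _ = D ^ 3 := by ring
    have h2 : 0 < ρ₄ * e := by positivity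
    calc ρ₄ * e * (10 ^ 8 * D ^ 2 * (M + 3) * 2)
        = 2 * 10 ^ 8 * (ρ₄ * e) * (D ^ 2 * (M + 3)) := by ring
      _ ≤ 2 * 10 ^ 8 * (ρ₄ * e) * D ^ 3 := by gcongr
      _ ≤ 12 * 10 ^ 9 * (ρ₄ * e) * D ^ 3 := by
          have h3 : 0 < D ^ 3 := by positivity
          have h4 : 0 < (ρ₄ * e) * D ^ 3 := by positivity
          nlinarith
      _ = ρ₄ * (12 * e) * (10 ^ 9 * D ^ 3) := by ring
  have hρ'up : ρ' ≤ ρ₄ := by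
    refine hr2.trans ?_
    rw [div_le_iff₀ hden]
    have h1 : 12 * e ≤ 1 := by linarith
    have h2 : (1 : ℝ) ≤ 10 ^ 8 * D ^ 2 * (M + 3) := by
      have h3 : 1 ≤ D ^ 2 := one_le_pow₀ hD1
      have h4 : 1 ≤ D ^ 2 * (M + 3) := by nlinarith
      nlinarith
    exact mul_le_mul_of_nonneg_left (h1.trans h2) hρ₄.le
  set B₆ : Finset G := bohr (Γ ∪ Λs) ρ' with hB₆
  have hB₆ne : B₆.Nonempty := bohr_nonempty hρ'0.le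
  have hB₆pos : (0 : ℝ) < #B₆ := by exact_mod_cast hB₆ne.card_pos
  have hA₁pos : (0 : ℝ) < #A₁ := by exact_mod_cast hA₁.card_pos
  by_cases hv : ∃ v : G, Real.exp (3 / 10 * Λ) * (#A₁ / n) * #B₆ ≤
      #(B₆.filter fun b => v + b ∈ A₁)
  · left
    obtain ⟨v, hv⟩ := hv
    refine ⟨Γ ∪ Λs, ρ', 3 / 10 * Λ, Finset.subset_union_left, by linarith, by linarith,
      hρ'low, hρ'up, hreg, v, hv⟩
  · right
    push Not at hv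
    have hmass : mass (smooth a B₆) = #B₆ * mass a := mass_smooth a B₆
    have hm' : 0 < mass (smooth a B₆) := by
      rw [hmass]
      exact mul_pos hB₆pos hk.m_pos
    have hbd : ∀ w, n * (smooth a B₆ w : ℝ) ≤ Real.exp (3 / 10 * Λ) * mass (smooth a B₆) := by
      intro w
      obtain ⟨k₀, _, hma, hsup⟩ := hmix.mass_sup
      have h1 := hsup B₆ (Real.exp (3 / 10 * Λ) * (#A₁ / n) * #B₆) (fun v => (hv v).le) w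
      rw [hmass, hma]
      calc n * (smooth a B₆ w : ℝ)
          ≤ n * (k₀ * (Real.exp (3 / 10 * Λ) * (#A₁ / n) * #B₆)) := by gcongr
        _ = Real.exp (3 / 10 * Λ) * (#B₆ * (k₀ * #A₁)) := by field_simp
    have hKle : QK (smooth a B₆) n S S ≤ Real.exp (3 / 10 * Λ) :=
      QK_le _ n hn hm' hbd S S
    have hKge : (1 - 48 * e) * QK a n S S ≤ QK (smooth a B₆) n S S :=
      hch (Γ ∪ Λs) Finset.subset_union_left Finset.subset_union_right ρ' hρ'0 hr2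
    have hKpos : 0 < QK a n S S := QK_self_pos a n hn hk.m_pos S hSne
    have h48 : 0 < 1 - 48 * e := by linarith
    have hlog1 : Real.log (1 - 48 * e) + Real.log (QK a n S S) ≤
        Real.log (QK (smooth a B₆) n S S) := by
      rw [← Real.log_mul h48.ne' hKpos.ne']
      exact Real.log_le_log (mul_pos h48 hKpos) hKge
    have hlog2 := ql1_log e he0 he1
    have hlog3 : Real.log (QK (smooth a B₆) n S S) ≤ 3 / 10 * Λ := by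
      have h1 := Real.log_le_log (QK_self_pos _ n hn hm' S hSne) hKle
      rwa [Real.log_exp] at h1
    have hPsi' : c0 - 52 * e ≤ Psi (smooth a B₆) n L e (bohr Γ ((1 + i * κ) * ρ₃)) S := by
      unfold Psi at hPsi ⊢
      linarith
    have hpen : 1 / 12 ≤ pen L e (HH (bohr Γ ((1 + i * κ) * ρ₃)) S) := by
      have h1 : 0 ≤ HH (bohr Γ ((1 + i * κ) * ρ₃)) S := by
        unfold HH
        apply Real.log_nonneg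
        have h2 : (0 : ℝ) < #S := by exact_mod_cast hSne.card_pos
        rw [one_le_div h2]
        exact_mod_cast Finset.card_le_card hSD
      have h2 := pen_mono (L := L) (e := e) hL he0 h1
      have h3 : pen L e 0 = 1 / 12 := by unfold pen; simp
      linarith
    have hΛgt : 1 < Λ := by
      have h1 := hPsi'
      unfold Psi at h1
      linarith
    refine ⟨hΛgt, smooth a B₆, i, S, hi2, ?_, ?_, hSD, hSne, hPsi'⟩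
    · refine hmix.smooth B₆ ?_ hB₆ne
      exact (bohr_anti Finset.subset_union_left).trans (bohr_mono hρ'up)
    · refine ⟨hn, hm', le_max_left _ _, fun w => (hbd w).trans ?_⟩
      have h1 : Real.exp (3 / 10 * Λ) ≤ Real.exp (max 1 (3 / 10 * Λ)) :=
        Real.exp_le_exp.2 (le_max_right _ _)
      exact mul_le_mul_of_nonneg_right h1 hm'.le

/-- [R3Q-L2] the loop: induction on `s`, `(3/10)^s Λ ≤ 1`.
`s = 0`: `Λ ≤ 1`, so the second alternative of `q_stage` is impossible.  `s + 1`: `Λ' = max 1 (3Λ/10) ≤ L`, `(3/10)^s Λ' ≤ 1`,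
`c0' = c0 - 52e`, `τ' = τ + ρ₄`, `i0' = i`. -/
theorem q_loop (A₁ : Finset G) (hA₁ : A₁.Nonempty) (n : ℝ) (Γ : Finset (AddChar G ℂ))
    (D L e : ℝ) (hL : 1 ≤ L) (he0 : 0 < e) (he1 : e ≤ 1 / 1000)
    (hDΓ : #Γ + 10 ^ 12 * L ^ 3 * ll L ^ 2 / e ^ 8 ≤ D) (σ ρ₃ ρ₄ κ : ℝ) (hρ₃ : 0 < ρ₃)
    (hρ₃2 : ρ₃ ≤ 2) (hρ₄ : 0 < ρ₄) (hσ : 3 * ρ₃ ≤ σ) (W : Finset G) (hW : (#W : ℝ) ≤ 2 * n)
    (hWs : ∀ y ∈ bohr (G := G) Γ σ, ∀ w, w + y ∈ A₁ → w ∈ W) (k : ℕ) (hκ : 0 < κ)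
    (hkκ : k * κ ≤ 1)
    (hgrow3 : (#(bohr (G := G) Γ ((1 + k * κ) * ρ₃)) : ℝ) ≤
      Real.exp (1 / 100) * #(bohr (G := G) Γ ρ₃)) (hρκ : 2 * ρ₄ ≤ κ * ρ₃)
    (hgrow4 : (#(bohr (G := G) Γ ((1 + 1 / (20 * D)) * ρ₄)) : ℝ) ≤ 2 * #(bohr (G := G) Γ ρ₄))
    (k₁ : ℕ) (hk₁ : 100 * L ≤ k₁) (s : ℕ) :
    ∀ (a : G → ℕ) (Λ c0 τ : ℝ) (i0 : ℕ) (S₀ : Finset G),
      Mix A₁ (bohr Γ τ : Set G) a → 0 ≤ τ → τ + s * ρ₄ ≤ ρ₃ → Kern a n Λ → Λ ≤ L →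
      (3 / 10) ^ s * Λ ≤ 1 → S₀ ⊆ bohr Γ ((1 + i0 * κ) * ρ₃) → S₀.Nonempty →
      3 / 10 + e + 52 * e * s ≤ c0 →
      c0 ≤ Psi a n L e (bohr Γ ((1 + i0 * κ) * ρ₃)) S₀ → i0 + (s + 1) * k₁ ≤ k →
      ∃ (Γ' : Finset (AddChar G ℂ)) (ρ' g : ℝ), Γ ⊆ Γ' ∧ 3 / 10 ≤ g ∧
        (#Γ' : ℝ) ≤ #Γ + 10 ^ 12 * g * L ^ 2 * ll L ^ 2 / e ^ 8 ∧
        ρ₄ * e / (10 ^ 9 * D ^ 3) ≤ ρ' ∧ ρ' ≤ ρ₄ ∧ Reg D Γ' ρ' ∧
        Dens A₁ Γ' ρ' (Real.exp g * (#A₁ / n)) := by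
  have stage := fun (a : G → ℕ) (Λ c0 τ : ℝ) (i0 : ℕ) (S₀ : Finset G) =>
    q_stage A₁ hA₁ n Γ D L e hL he0 he1 hDΓ σ ρ₃ ρ₄ κ hρ₃ hρ₃2 hρ₄ hσ W hW hWs k hκ hkκ hgrow3 hρκ
      hgrow4 k₁ hk₁ a Λ c0 τ i0 S₀
  induction s with
  | zero =>
    intro a Λ c0 τ i0 S₀ hmix hτ0 hτ hK hΛL hs hS₀ hne hc0 hstart hi0
    rcases stage a Λ c0 τ i0 S₀ hmix hτ0 (by simpa using hτ) hK hΛL hS₀ hne (by simpa using hc0)
      hstart (by simpa using hi0) with h | h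
    · exact h
    · exfalso
      have h1 := h.1
      rw [pow_zero, one_mul] at hs
      linarith
  | succ s ih =>
    intro a Λ c0 τ i0 S₀ hmix hτ0 hτ hK hΛL hs hS₀ hne hc0 hstart hi0
    have hs0 : (0 : ℝ) ≤ s := Nat.cast_nonneg s
    have hcast : ((s + 1 : ℕ) : ℝ) = (s : ℝ) + 1 := by push_cast; ring
    rw [hcast] at hτ hc0
    have hsρ : 0 ≤ (s : ℝ) * ρ₄ := mul_nonneg hs0 hρ₄.le
    have hse : 0 ≤ e * (s : ℝ) := mul_nonneg he0.le hs0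
    have hi1 : i0 + k₁ + (s + 1) * k₁ ≤ k := by
      have : i0 + (s + 1 + 1) * k₁ = i0 + k₁ + (s + 1) * k₁ := by ring
      omega
    rcases stage a Λ c0 τ i0 S₀ hmix hτ0 (by nlinarith) hK hΛL hS₀ hne (by nlinarith)
      hstart (by
        have : 0 ≤ (s + 1) * k₁ := Nat.zero_le _
        omega) with h | ⟨hΛ, a', i, S, hi, hmix', hK', hS, hSne, hc⟩
    · exact h
    · refine ih a' (max 1 (3 / 10 * Λ)) (c0 - 52 * e) (τ + ρ₄) i S hmix' (by linarith) (by nlinarith)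
        hK' ?_ ?_ hS hSne (by nlinarith) hc (by omega)
      · exact max_le hL (by linarith)
      · rcases max_choice 1 (3 / 10 * Λ) with h | h
        · rw [h, mul_one]
          exact pow_le_one₀ (by norm_num) (by norm_num)
        · rw [h]
          calc (3 / 10 : ℝ) ^ s * (3 / 10 * Λ) = (3 / 10) ^ (s + 1) * Λ := by rw [pow_succ]; ring
            _ ≤ 1 := hs

end R3
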