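import Pool.Agent.MP_0f71ae_nt.R3Q.Ext5
import Pool.Agent.MP_0f71ae_nt.R3Q.Ext3
import Pool.Agent.MP_0f71ae_nt.R3.Samp1
import Pool.Agent.MP_0f71ae_nt.R3.Samp2

/-!
# [R3Q] section 4: sampling
-/

set_option linter.unusedSectionVars false

open Finset

namespace R3

variable {G : Type*} [AddCommGroup G] [Fintype G] [DecidableEq G]
variable {a : G → ℕ} {n L Λ e : ℝ} {D D' S : Finset G}

private lemma qp1_exp_lev (hE : QExt a n L Λ e D D' S) (hk : Kern a n Λ) (hΛL : Λ ≤ L)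
    (he0 : 0 < e) (he1 : e ≤ 1 / 1000) (m : ℕ)
    (hm : 10240 * Λ * vp L e D S / e ^ 4 ≤ m) (i : ℕ) :
    Real.exp (-(lev L Λ e D S i) * m / 4) ≤ Real.exp (-(2 * (i : ℝ) + 4)) := by
  have hΛ1 : 1 ≤ Λ := hk.one_le
  have hL1 : 1 ≤ L := hΛ1.trans hΛL
  have hΛ0 : 0 < Λ := by linarith
  have hq0 : 0 < hq L e := hq_pos hL1 he0
  have hp0 : 0 < pen L e (HH D S) := pen_pos _
  have hH0 : 0 ≤ HH D S := hE.HH_nonneg
  have hvp1 : 1 ≤ vp L e D S := by
    unfold vp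
    have : 0 ≤ HH D S / hq L e := by positivity
    linarith
  have hvp0 : 0 < vp L e D S := by linarith
  have hratio : 2 ≤ hq L e / pen L e (HH D S) := by
    rw [le_div_iff₀ hp0]
    have h1 := hq_ge (L := L) (e := e) hL1 he0 he1
    have h2 := hE.pen_le
    nlinarith
  have he4 : 0 < e ^ 4 := by positivity
  -- lower bound for `ℓ_i m / 4`
  have hlev0 : 0 ≤ lev L Λ e D S i := by
    have := hE.four_le_lev hk hΛL he0 he1 (i : ℝ) (Nat.cast_nonneg i)
    linarith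
  have h1 : 2 * (i : ℝ) + 4 ≤ lev L Λ e D S i * m / 4 := by
    have h2 : lev L Λ e D S i * (10240 * Λ * vp L e D S / e ^ 4) / 4 =
        2 * ((i : ℝ) + vp L e D S * (hq L e / pen L e (HH D S))) := by
      unfold lev
      field_simp
      ring
    have h3 : lev L Λ e D S i * (10240 * Λ * vp L e D S / e ^ 4) ≤ lev L Λ e D S i * m :=
      mul_le_mul_of_nonneg_left hm hlev0
    have h4 : 2 ≤ vp L e D S * (hq L e / pen L e (HH D S)) := by nlinarith
    linarith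
  apply Real.exp_le_exp.2
  have h5 : -(lev L Λ e D S i) * m / 4 = -(lev L Λ e D S i * m / 4) := by ring
  rw [h5]
  linarith

/-- the number of samples passed by `y` -/
private lemma qp1_pointwise (hE : QExt a n L Λ e D D' S) (hk : Kern a n Λ) (hΛL : Λ ≤ L)
    (he0 : 0 < e) (he1 : e ≤ 1 / 1000) (m : ℕ)
    (hm : 10240 * Λ * vp L e D S / e ^ 4 ≤ m) (y : G)
    (hy : y ∈ D'.filter fun y => QK a n S {y} ≤ (1 - 4 * e) * QK a n S S) (I : ℕ) :
    (#((Fintype.piFinset fun _ : Fin m => S).filter fun x =>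
        m ≤ 2 * hits (fun z => (1 - e) * QK a n S S ≤ QX a n z y) x) : ℝ) ≤
      (#S : ℝ) ^ m * ((if y ∈ qbad a n e D' S (lev L Λ e D S ((0 : ℕ) : ℝ)) then (1 : ℝ) else 0) +
        ∑ i ∈ range I, (if y ∈ qbad a n e D' S (lev L Λ e D S ((i + 1 : ℕ) : ℝ)) then (1 : ℝ) else 0) *
          Real.exp (-(2 * (i : ℝ) + 4)) + Real.exp (-(2 * (I : ℝ) + 4))) := by
  have hS0 : (0 : ℝ) ≤ (#S : ℝ) ^ m := by positivity
  have hsmall : ∀ i : ℕ, y ∉ qbad a n e D' S (lev L Λ e D S (i : ℝ)) →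
      (#((Fintype.piFinset fun _ : Fin m => S).filter fun x =>
        m ≤ 2 * hits (fun z => (1 - e) * QK a n S S ≤ QX a n z y) x) : ℝ) ≤
      (#S : ℝ) ^ m * Real.exp (-(2 * (i : ℝ) + 4)) := by
    intro i hi
    have h1 : (#(S.filter fun z => (1 - e) * QK a n S S ≤ QX a n z y) : ℝ) ≤
        Real.exp (-(lev L Λ e D S (i : ℝ))) * #S := by
      by_contra hcon
      push Not at hcon
      apply hi
      unfold qbad
      rw [Finset.mem_filter] at hy ⊢
      exact ⟨hy.1, hy.2, hcon.le⟩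
    have h2 := card_hits_ge S (fun z => (1 - e) * QK a n S S ≤ QX a n z y) m
      (lev L Λ e D S (i : ℝ)) (hE.four_le_lev hk hΛL he0 he1 (i : ℝ) (Nat.cast_nonneg i)) h1
    calc _ ≤ Real.exp (-(lev L Λ e D S (i : ℝ)) * m / 4) * (#S : ℝ) ^ m := h2
      _ ≤ Real.exp (-(2 * (i : ℝ) + 4)) * (#S : ℝ) ^ m :=
          mul_le_mul_of_nonneg_right (qp1_exp_lev hE hk hΛL he0 he1 m hm i) hS0
      _ = _ := mul_comm _ _
  have hall : (#((Fintype.piFinset fun _ : Fin m => S).filter fun x =>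
        m ≤ 2 * hits (fun z => (1 - e) * QK a n S S ≤ QX a n z y) x) : ℝ) ≤ (#S : ℝ) ^ m := by
    have h1 : #((Fintype.piFinset fun _ : Fin m => S).filter fun x =>
        m ≤ 2 * hits (fun z => (1 - e) * QK a n S S ≤ QX a n z y) x) ≤ (#S) ^ m := by
      refine (Finset.card_filter_le _ _).trans ?_
      rw [Fintype.card_piFinset]
      simp
    exact_mod_cast h1
  induction I with
  | zero =>
    by_cases h0 : y ∈ qbad a n e D' S (lev L Λ e D S ((0 : ℕ) : ℝ))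
    · rw [if_pos h0]
      refine hall.trans ?_
      have h1 : (1 : ℝ) ≤ 1 + ∑ i ∈ range 0,
          (if y ∈ qbad a n e D' S (lev L Λ e D S ((i + 1 : ℕ) : ℝ)) then (1 : ℝ) else 0) *
          Real.exp (-(2 * (i : ℝ) + 4)) + Real.exp (-(2 * ((0 : ℕ) : ℝ) + 4)) := by
        rw [Finset.range_zero, Finset.sum_empty]
        have := Real.exp_pos (-(2 * ((0 : ℕ) : ℝ) + 4))
        linarith
      calc (#S : ℝ) ^ m = (#S : ℝ) ^ m * 1 := (mul_one _).symm
        _ ≤ _ := mul_le_mul_of_nonneg_left h1 hS0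
    · rw [if_neg h0, Finset.range_zero, Finset.sum_empty, zero_add, zero_add]
      exact hsmall 0 h0
  | succ I ih =>
    by_cases h0 : y ∈ qbad a n e D' S (lev L Λ e D S ((I + 1 : ℕ) : ℝ))
    · refine ih.trans (mul_le_mul_of_nonneg_left ?_ hS0)
      rw [Finset.sum_range_succ, if_pos h0, one_mul]
      have := Real.exp_pos (-(2 * ((I + 1 : ℕ) : ℝ) + 4))
      linarith
    · refine (hsmall (I + 1) h0).trans (mul_le_mul_of_nonneg_left ?_ hS0)
      have h1 : (0 : ℝ) ≤ (if y ∈ qbad a n e D' S (lev L Λ e D S ((0 : ℕ) : ℝ)) then (1 : ℝ) else 0) := by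
        split_ifs <;> norm_num
      have h2 : (0 : ℝ) ≤ ∑ i ∈ range (I + 1),
          (if y ∈ qbad a n e D' S (lev L Λ e D S ((i + 1 : ℕ) : ℝ)) then (1 : ℝ) else 0) *
          Real.exp (-(2 * (i : ℝ) + 4)) := by
        refine Finset.sum_nonneg fun i _ => mul_nonneg ?_ (Real.exp_pos _).le
        split_ifs <;> norm_num
      linarith

/-- the geometric sum -/
private lemma qp1_geom (I : ℕ) :
    ∑ i ∈ range I, Real.exp (((i + 1 : ℕ) : ℝ)) * Real.exp (-(2 * (i : ℝ) + 4)) ≤ 1 / 2 := by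
  have he2 : (2 : ℝ) ≤ Real.exp 1 := by
    have := Real.add_one_le_exp (1 : ℝ)
    linarith
  have h1 : Real.exp (-1) ≤ 1 / 2 := by
    rw [Real.exp_neg, inv_eq_one_div]
    exact one_div_le_one_div_of_le (by norm_num) he2
  have h3 : Real.exp (-3) ≤ 1 / 8 := by
    have : Real.exp (-3) = Real.exp (-1) ^ 3 := by
      rw [← Real.exp_nat_mul]
      norm_num
    rw [this]
    calc Real.exp (-1) ^ 3 ≤ (1 / 2) ^ 3 := pow_le_pow_left₀ (Real.exp_pos _).le h1 3
      _ = 1 / 8 := by norm_num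
  have hterm : ∀ i : ℕ, Real.exp (((i + 1 : ℕ) : ℝ)) * Real.exp (-(2 * (i : ℝ) + 4)) ≤
      1 / 8 * (1 / 2) ^ i := by
    intro i
    have h2 : Real.exp (((i + 1 : ℕ) : ℝ)) * Real.exp (-(2 * (i : ℝ) + 4)) =
        Real.exp (-3) * Real.exp (-1) ^ i := by
      rw [← Real.exp_nat_mul, ← Real.exp_add, ← Real.exp_add]
      congr 1
      push_cast
      ring
    rw [h2]
    exact mul_le_mul h3 (pow_le_pow_left₀ (Real.exp_pos _).le h1 i)
      (pow_nonneg (Real.exp_pos _).le i) (by norm_num)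
  calc ∑ i ∈ range I, Real.exp (((i + 1 : ℕ) : ℝ)) * Real.exp (-(2 * (i : ℝ) + 4))
      ≤ ∑ i ∈ range I, 1 / 8 * (1 / 2 : ℝ) ^ i := Finset.sum_le_sum fun i _ => hterm i
    _ = 1 / 8 * ∑ i ∈ range I, (1 / 2 : ℝ) ^ i := (Finset.mul_sum _ _ _).symm
    _ ≤ 1 / 8 * 2 := by
        refine mul_le_mul_of_nonneg_left ?_ (by norm_num)
        rw [geom_sum_eq (by norm_num)]
        have : (0 : ℝ) ≤ (1 / 2 : ℝ) ^ I := by positivity
        have h5 : ((1 / 2 : ℝ) ^ I - 1) / (1 / 2 - 1) = 2 * (1 - (1 / 2 : ℝ) ^ I) := by ring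
        rw [h5]
        linarith
    _ ≤ 1 / 2 := by norm_num

/-- the last term -/
private lemma qp1_last (hE : QExt a n L Λ e D D' S) (he0 : 0 < e) (he1 : e ≤ 1 / 1000)
    (I : ℕ) (hI : HH D S + Real.log (2 / e) ≤ I) :
    (#D' : ℝ) * Real.exp (-(2 * (I : ℝ) + 4)) ≤ e / 4 * #S := by
  have hS0 : (0 : ℝ) < #S := by exact_mod_cast hE.ne.card_pos
  have hD0 : (0 : ℝ) < #D := by
    exact_mod_cast (hE.ne.mono hE.sub).card_pos
  have hH0 : 0 ≤ HH D S := hE.HH_nonneg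
  have hD : (#D : ℝ) = Real.exp (HH D S) * #S := by
    unfold HH
    rw [Real.exp_log (by positivity)]
    field_simp
  have hlog0 : 0 ≤ Real.log (2 / e) := by
    apply Real.log_nonneg
    rw [le_div_iff₀ he0]
    linarith
  have h1 : (#D' : ℝ) ≤ Real.exp (1 / 100 + HH D S) * #S := by
    rw [Real.exp_add, mul_assoc, ← hD]
    exact hE.card_le
  have h2 : Real.exp (1 / 100 + HH D S) * Real.exp (-(2 * (I : ℝ) + 4)) ≤ e / 4 := by
    rw [← Real.exp_add]
    have h3 : 1 / 100 + HH D S + -(2 * (I : ℝ) + 4) ≤ -Real.log (2 / e) + -1 := by linarith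
    have h4 : Real.exp (-Real.log (2 / e) + -1) ≤ e / 4 := by
      rw [Real.exp_add, Real.exp_neg, Real.exp_log (by positivity)]
      have he2 : (2 : ℝ) ≤ Real.exp 1 := by
        have := Real.add_one_le_exp (1 : ℝ)
        linarith
      have h5 : Real.exp (-1) ≤ 1 / 2 := by
        rw [Real.exp_neg, inv_eq_one_div]
        exact one_div_le_one_div_of_le (by norm_num) he2
      rw [inv_div]
      nlinarith
    exact (Real.exp_le_exp.2 h3).trans h4
  calc (#D' : ℝ) * Real.exp (-(2 * (I : ℝ) + 4))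
      ≤ Real.exp (1 / 100 + HH D S) * #S * Real.exp (-(2 * (I : ℝ) + 4)) :=
        mul_le_mul_of_nonneg_right h1 (Real.exp_pos _).le
    _ = Real.exp (1 / 100 + HH D S) * Real.exp (-(2 * (I : ℝ) + 4)) * #S := by ring
    _ ≤ e / 4 * #S := mul_le_mul_of_nonneg_right h2 hS0.le

/-- [R3Q-P1] the total weight of the bad passing points.
`d y = K(S,{y})`, `Bad = {y ∈ D' : d y ≤ (1-4e)K}`; `y` passes `x⃗` iff `m ≤ 2 hits (P_y) x⃗`, `P_y x :⇔ (1-e)K ≤ X(x,y)`.
Proof. `∑_{x⃗} #{y ∈ Bad : passes} = ∑_{y ∈ Bad} #{x⃗ : y passes}`.  `ℓ_i := lev i ≥ 4`, `u(y) = #{x∈S : P_y x}/|S|`.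
* `u(y) ≥ e^{-ℓ_0}`: these are `qbad (ℓ_0)`: `< (e/2)|S|` many, each `≤ |E|`.
* `e^{-ℓ_{i+1}} ≤ u(y) < e^{-ℓ_i}`, `0 ≤ i < I`: `≤ |qbad(ℓ_{i+1})| < (e/2)e^{i+1}|S|` many, each `≤ e^{-ℓ_i m/4}|E|` (`card_hits_ge`),
  `m ℓ_i/4 ≥ 2i + 2ϖh0/p0 ≥ 2i + 4`: the sum over `i` is `≤ (e/2)|S||E| ∑ e^{i+1-2i-4} ≤ (e/4)|S||E|`.
* `u(y) < e^{-ℓ_I}`: `≤ |D'| ≤ e^{1/100+H}|S|` many, each `≤ e^{-2I-4}|E|`; `I := ⌈H + log(2/e) + 1⌉`: total `≤ (e/4)|S||E|`. -/
theorem QExt.bad_pass (hE : QExt a n L Λ e D D' S) (hk : Kern a n Λ) (hΛL : Λ ≤ L)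
    (he0 : 0 < e) (he1 : e ≤ 1 / 1000) (W : Finset G) (hW : (#W : ℝ) ≤ 2 * n)
    (hSW : ∀ x ∈ S, ∀ w, a (w + x) ≠ 0 → w ∈ W) (m : ℕ)
    (hm : 10240 * Λ * vp L e D S / e ^ 4 ≤ m) :
    ∑ x ∈ Fintype.piFinset (fun _ : Fin m => S),
      (#((D'.filter fun y => QK a n S {y} ≤ (1 - 4 * e) * QK a n S S).filter fun y =>
        m ≤ 2 * hits (fun z => (1 - e) * QK a n S S ≤ QX a n z y) x) : ℝ) ≤
      e * #S * (#S : ℝ) ^ m := by
  set E : Finset (Fin m → G) := Fintype.piFinset (fun _ : Fin m => S) with hEdef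
  set Bad : Finset G := D'.filter fun y => QK a n S {y} ≤ (1 - 4 * e) * QK a n S S with hBad
  have hS0 : (0 : ℝ) ≤ (#S : ℝ) ^ m := by positivity
  have hS1 : (0 : ℝ) < #S := by exact_mod_cast hE.ne.card_pos
  -- swap the sums
  have hswap : ∑ x ∈ E, (#(Bad.filter fun y =>
        m ≤ 2 * hits (fun z => (1 - e) * QK a n S S ≤ QX a n z y) x) : ℝ) =
      ∑ y ∈ Bad, (#(E.filter fun x =>
        m ≤ 2 * hits (fun z => (1 - e) * QK a n S S ≤ QX a n z y) x) : ℝ) := by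
    simp_rw [Finset.card_filter]
    push_cast
    rw [Finset.sum_comm]
  rw [hswap]
  obtain ⟨I, hI⟩ := exists_nat_ge (HH D S + Real.log (2 / e))
  -- pointwise bound and summation
  have h1 : ∑ y ∈ Bad, (#(E.filter fun x =>
        m ≤ 2 * hits (fun z => (1 - e) * QK a n S S ≤ QX a n z y) x) : ℝ) ≤
      (#S : ℝ) ^ m * ((#(qbad a n e D' S (lev L Λ e D S ((0 : ℕ) : ℝ))) : ℝ) +
        ∑ i ∈ range I, (#(qbad a n e D' S (lev L Λ e D S ((i + 1 : ℕ) : ℝ))) : ℝ) *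
          Real.exp (-(2 * (i : ℝ) + 4)) + #D' * Real.exp (-(2 * (I : ℝ) + 4))) := by
    have hind : ∀ ℓ : ℝ, ∑ y ∈ Bad, (if y ∈ qbad a n e D' S ℓ then (1 : ℝ) else 0) ≤
        (#(qbad a n e D' S ℓ) : ℝ) := by
      intro ℓ
      rw [Finset.sum_boole]
      have : #(Bad.filter fun y => y ∈ qbad a n e D' S ℓ) ≤ #(qbad a n e D' S ℓ) := by
        apply Finset.card_le_card
        intro y hy
        exact (Finset.mem_filter.1 hy).2
      exact_mod_cast this
    have hBadle : (#Bad : ℝ) ≤ #D' := by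
      exact_mod_cast Finset.card_filter_le _ _
    calc _ ≤ ∑ y ∈ Bad, (#S : ℝ) ^ m *
          ((if y ∈ qbad a n e D' S (lev L Λ e D S ((0 : ℕ) : ℝ)) then (1 : ℝ) else 0) +
          ∑ i ∈ range I, (if y ∈ qbad a n e D' S (lev L Λ e D S ((i + 1 : ℕ) : ℝ)) then (1 : ℝ) else 0) *
            Real.exp (-(2 * (i : ℝ) + 4)) + Real.exp (-(2 * (I : ℝ) + 4))) :=
          Finset.sum_le_sum fun y hy => qp1_pointwise hE hk hΛL he0 he1 m hm y hy I
      _ = (#S : ℝ) ^ m * (∑ y ∈ Bad, (if y ∈ qbad a n e D' S (lev L Λ e D S ((0 : ℕ) : ℝ)) then (1 : ℝ) else 0) +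
          ∑ i ∈ range I, (∑ y ∈ Bad, (if y ∈ qbad a n e D' S (lev L Λ e D S ((i + 1 : ℕ) : ℝ)) then (1 : ℝ) else 0)) *
            Real.exp (-(2 * (i : ℝ) + 4)) + #Bad * Real.exp (-(2 * (I : ℝ) + 4))) := by
          rw [← Finset.mul_sum, Finset.sum_add_distrib, Finset.sum_add_distrib, Finset.sum_const,
            nsmul_eq_mul, Finset.sum_comm (s := Bad) (t := range I)]
          simp_rw [Finset.sum_mul]
      _ ≤ _ := by
          refine mul_le_mul_of_nonneg_left ?_ hS0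
          refine add_le_add (add_le_add (hind _) ?_) ?_
          · exact Finset.sum_le_sum fun i _ => mul_le_mul_of_nonneg_right (hind _) (Real.exp_pos _).le
          · exact mul_le_mul_of_nonneg_right hBadle (Real.exp_pos _).le
  refine h1.trans ?_
  have hq0 : (#(qbad a n e D' S (lev L Λ e D S ((0 : ℕ) : ℝ))) : ℝ) ≤ e / 2 * #S := by
    have := hE.levels hk hΛL he0 he1 W hW hSW ((0 : ℕ) : ℝ) (Nat.cast_nonneg 0)
    rw [Nat.cast_zero, Real.exp_zero, mul_one] at this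
    rw [Nat.cast_zero]
    exact this.le
  have hq1 : ∑ i ∈ range I, (#(qbad a n e D' S (lev L Λ e D S ((i + 1 : ℕ) : ℝ))) : ℝ) *
          Real.exp (-(2 * (i : ℝ) + 4)) ≤ e / 4 * #S := by
    calc _ ≤ ∑ i ∈ range I, e / 2 * #S * (Real.exp (((i + 1 : ℕ) : ℝ)) * Real.exp (-(2 * (i : ℝ) + 4))) := by
          refine Finset.sum_le_sum fun i _ => ?_
          have h2 := (hE.levels hk hΛL he0 he1 W hW hSW ((i + 1 : ℕ) : ℝ) (Nat.cast_nonneg _)).le
          calc _ ≤ e / 2 * Real.exp (((i + 1 : ℕ) : ℝ)) * #S * Real.exp (-(2 * (i : ℝ) + 4)) :=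
                mul_le_mul_of_nonneg_right h2 (Real.exp_pos _).le
            _ = _ := by ring
      _ = e / 2 * #S * ∑ i ∈ range I, Real.exp (((i + 1 : ℕ) : ℝ)) * Real.exp (-(2 * (i : ℝ) + 4)) :=
          (Finset.mul_sum _ _ _).symm
      _ ≤ e / 2 * #S * (1 / 2) := mul_le_mul_of_nonneg_left (qp1_geom I) (by positivity)
      _ = e / 4 * #S := by ring
  have hq2 := qp1_last hE he0 he1 I hI
  calc _ ≤ (#S : ℝ) ^ m * (e / 2 * #S + e / 4 * #S + e / 4 * #S) := by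
        refine mul_le_mul_of_nonneg_left ?_ hS0
        linarith
    _ = e * #S * (#S : ℝ) ^ m := by ring

private lemma qsamp_K_single (a : G → ℕ) (n : ℝ) (S : Finset G) (y : G) :
    (#S : ℝ) * QK a n S {y} = ∑ x ∈ S, QX a n x y := by
  have h := card_mul_QK a n S {y}
  simpa using h

/-- the double count of the failing pairs (Chebyshev) -/
private lemma qsamp_cheb (a : G → ℕ) (n e : ℝ) (S : Finset G) (hS : S.Nonempty) (k s : ℝ)
    (hk : 0 < k) (he : 0 < e) (hK : k = QK a n S S) (hs : QPhi a n S S 2 ≤ (1 + s) * k ^ 2) :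
    (∑ y ∈ S, (#(S.filter fun x => ¬ (1 - e) * k ≤ QX a n x y) : ℝ)) * e ^ 2 ≤
      s * (#S : ℝ) ^ 2 := by
  have hSpos : (0 : ℝ) < #S := by exact_mod_cast hS.card_pos
  have h1 : ∑ y ∈ S, ∑ x ∈ S, (QX a n x y - k) ^ 2 = (#S : ℝ) ^ 2 * (QPhi a n S S 2 - k ^ 2) := by
    have e1 : ∀ y ∈ S, ∑ x ∈ S, (QX a n x y - k) ^ 2 =
        (∑ x ∈ S, QX a n x y ^ 2) - 2 * k * (∑ x ∈ S, QX a n x y) + #S * k ^ 2 := by
      intro y _
      have : ∀ x ∈ S, (QX a n x y - k) ^ 2 = QX a n x y ^ 2 - 2 * k * QX a n x y + k ^ 2 :=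
        fun x _ => by ring
      rw [sum_congr rfl this, sum_add_distrib, sum_sub_distrib, ← mul_sum, sum_const,
        nsmul_eq_mul]
    rw [sum_congr rfl e1, sum_add_distrib, sum_sub_distrib, ← mul_sum, sum_const, nsmul_eq_mul]
    have e2 : ∑ y ∈ S, ∑ x ∈ S, QX a n x y ^ 2 = (#S : ℝ) ^ 2 * QPhi a n S S 2 := by
      unfold QPhi
      rw [sum_comm]
      field_simp
    have e3 : ∑ y ∈ S, ∑ x ∈ S, QX a n x y = (#S : ℝ) ^ 2 * k := by
      rw [sum_comm, ← card_mul_QK, hK]; ring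
    rw [e2, e3]; ring
  have h2 : ∀ y ∈ S, (#(S.filter fun x => ¬ (1 - e) * k ≤ QX a n x y) : ℝ) *
      (e * k) ^ 2 ≤ ∑ x ∈ S, (QX a n x y - k) ^ 2 := by
    intro y _
    have e1 : (#(S.filter fun x => ¬ (1 - e) * k ≤ QX a n x y) : ℝ) * (e * k) ^ 2 =
        ∑ x ∈ S.filter (fun x => ¬ (1 - e) * k ≤ QX a n x y), (e * k) ^ 2 := by
      rw [sum_const, nsmul_eq_mul]
    rw [e1]
    refine (sum_le_sum fun x hx => ?_).trans
      (sum_le_sum_of_subset_of_nonneg (filter_subset _ _) fun x _ _ => sq_nonneg _)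
    rw [mem_filter, not_le] at hx
    have h3 : e * k ≤ k - QX a n x y := by linarith [hx.2]
    have h4 : 0 ≤ e * k := by positivity
    nlinarith
  have h3 : (∑ y ∈ S, (#(S.filter fun x => ¬ (1 - e) * k ≤ QX a n x y) : ℝ)) *
      (e * k) ^ 2 ≤ (#S : ℝ) ^ 2 * (s * k ^ 2) := by
    rw [sum_mul]
    refine (sum_le_sum h2).trans ?_
    rw [h1]
    refine mul_le_mul_of_nonneg_left ?_ (by positivity)
    linarith
  have h4 : 0 < k ^ 2 := by positivity
  rw [← mul_le_mul_iff_of_pos_right h4]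
  calc _ = (∑ y ∈ S, (#(S.filter fun x => ¬ (1 - e) * k ≤ QX a n x y) : ℝ)) *
      (e * k) ^ 2 := by ring
    _ ≤ _ := h3
    _ = _ := by ring

/-- [R3Q-P2] the sampling theorem (as R3/Samp3.lean).
`a x⃗ = #{y ∈ Bad : passes}`: `∑ a ≤ e|S||E|` (`bad_pass`); `b x⃗ = #{y ∈ S : fails}`: `card_hits_lt` and
`#{(x,y) ∈ S² : X < (1-e)K} ≤ |S|²(Φ₂ - K²)/(e²K²) ≤ |S|² e/2` (`second_moment`): `∑ b ≤ e|S||E|`.  `half_good` with `a0 = b0 = e|S|`,
`exists_translate`; for `t, t' ∈ T`: `≥ (1-8e)|S|` of the `y ∈ S` have `y+(t'-t) ∈ D'`, `d(y+(t'-t)) > (1-4e)K`; `(1-8e)(1-4e) ≥ 1-12e`. -/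
theorem QExt.sampling (hE : QExt a n L Λ e D D' S) (hk : Kern a n Λ) (hΛL : Λ ≤ L)
    (he0 : 0 < e) (he1 : e ≤ 1 / 1000) (W : Finset G) (hW : (#W : ℝ) ≤ 2 * n)
    (hSW : ∀ x ∈ S, ∀ w, a (w + x) ≠ 0 → w ∈ W) (B : Finset G) (hB0 : 0 ∈ B)
    (hB : ∀ y ∈ D, ∀ t ∈ B, ∀ t' ∈ B, y + (t' - t) ∈ D') (m : ℕ)
    (hm : 10240 * Λ * vp L e D S / e ^ 4 ≤ m) :
    ∃ T ⊆ B, (#B : ℝ) * ((#S / #D' : ℝ) ^ m / 2) ≤ #T ∧
      ∀ t ∈ T, ∀ t' ∈ T, (1 - 12 * e) * QK a n S S * (#S : ℝ) ^ 2 ≤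
        ∑ x ∈ S, ∑ y ∈ S, QX a n (x + t) (y + t') := by
  have hSne := hE.ne
  have hSpos : (0 : ℝ) < #S := by exact_mod_cast hSne.card_pos
  have hDne : D.Nonempty := hSne.mono hE.sub
  have hD'ne : D'.Nonempty := hDne.mono hE.sub'
  have hbp := hE.bad_pass hk hΛL he0 he1 W hW hSW m hm
  have hn := hk.n_pos
  have hsm := hE.second_moment hk hΛL he0 he1 W hW hSW
  set k := QK a n S S with hkdef
  have hkpos : 0 < k := QK_self_pos a n hn hk.m_pos S hSne
  set E : Finset (Fin m → G) := Fintype.piFinset fun _ : Fin m => S with hEdef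
  have hEcard : (#E : ℝ) = (#S : ℝ) ^ m := by
    rw [hEdef, Fintype.card_piFinset_const]; push_cast; rfl
  have hEpos : (0 : ℝ) < #E := by rw [hEcard]; positivity
  set Bad : Finset G := D'.filter fun y => QK a n S {y} ≤ (1 - 4 * e) * k with hBad
  let α : (Fin m → G) → ℝ := fun x =>
    #(Bad.filter fun y => m ≤ 2 * hits (fun z => (1 - e) * k ≤ QX a n z y) x)
  let β : (Fin m → G) → ℝ := fun x =>
    #(S.filter fun y => 2 * hits (fun z => (1 - e) * k ≤ QX a n z y) x < m)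
  have hsuma : ∑ x ∈ E, α x ≤ (e * #S) * #E := by
    rw [hEcard]
    exact hbp
  -- `∑ b`
  have hsumb : ∑ x ∈ E, β x ≤ (e * #S) * #E := by
    have e1 : ∑ x ∈ E, β x = ∑ y ∈ S, (#(E.filter fun x =>
        2 * hits (fun z => (1 - e) * k ≤ QX a n z y) x < m) : ℝ) := by
      simp only [β, Finset.card_filter]
      push_cast
      rw [sum_comm]
    have e2 : ∀ y ∈ S, (#(E.filter fun x =>
        2 * hits (fun z => (1 - e) * k ≤ QX a n z y) x < m) : ℝ) * #S ≤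
        2 * #(S.filter fun x => ¬ (1 - e) * k ≤ QX a n x y) * #E := by
      intro y _
      have h1 := card_hits_lt S (fun z => (1 - e) * k ≤ QX a n z y) m hSne
      rw [hEcard]
      exact h1
    have e3 := sum_le_sum e2
    rw [← sum_mul, ← sum_mul, ← mul_sum, ← e1] at e3
    have e4 := qsamp_cheb a n e S hSne k (e ^ 3 / 2) hkpos he0 hkdef hsm
    have e5 : (∑ y ∈ S, (#(S.filter fun x => ¬ (1 - e) * k ≤ QX a n x y) : ℝ)) ≤
        e / 2 * (#S : ℝ) ^ 2 := by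
      have h5 : 0 < e ^ 2 := by positivity
      rw [← mul_le_mul_iff_of_pos_right h5]
      refine e4.trans (le_of_eq ?_)
      ring
    have e6 : (∑ x ∈ E, β x) * #S ≤ ((e * #S) * #E) * #S := by
      refine e3.trans ?_
      have e7 := mul_le_mul_of_nonneg_right e5 hEpos.le
      nlinarith
    exact le_of_mul_le_mul_right e6 hSpos
  have heS : 0 < e * #S := by positivity
  have hgood := half_good E α β (e * #S) (e * #S) (fun _ _ => by positivity)
    (fun _ _ => by positivity) hsuma hsumb heS heS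
  set Good := E.filter fun x => α x ≤ 4 * (e * #S : ℝ) ∧ β x ≤ 4 * (e * #S : ℝ) with hGooddef
  obtain ⟨z, hz⟩ := exists_translate m S D' B Good
    (fun x hx j => by
      rw [hGooddef, mem_filter, hEdef, Fintype.mem_piFinset] at hx
      exact hx.1 j)
    (fun x hx t ht => by
      have := hB x (hE.sub hx) t ht 0 hB0
      rwa [zero_sub, ← sub_eq_add_neg] at this)
    (by rw [← hEcard]; exact hgood) hD'ne
  refine ⟨B.filter fun t => (fun j => z j + t) ∈ Good, filter_subset _ _, hz, ?_⟩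
  intro t ht t' ht'
  rw [mem_filter] at ht ht'
  obtain ⟨htB, htG⟩ := ht
  obtain ⟨htB', htG'⟩ := ht'
  rw [hGooddef, mem_filter] at htG htG'
  -- the double sum
  have hsum : ∑ x ∈ S, ∑ y ∈ S, QX a n (x + t) (y + t') =
      #S * ∑ y ∈ S, QK a n S {y + (t' - t)} := by
    rw [sum_comm, mul_sum]
    refine sum_congr rfl fun y _ => ?_
    rw [qsamp_K_single]
    refine sum_congr rfl fun x _ => ?_
    rw [← QX_add_right a n x (y + (t' - t)) t]
    congr 1
    abel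
  -- translation of the passes
  have hhits : ∀ y, hits (fun w => (1 - e) * k ≤ QX a n w y) (fun j => z j + t) =
      hits (fun w => (1 - e) * k ≤ QX a n w (y + (t' - t))) (fun j => z j + t') := by
    intro y
    unfold hits
    congr 1
    ext j
    simp only [mem_filter, mem_univ, true_and]
    have : QX a n (z j + t') (y + (t' - t)) = QX a n (z j + t) y := by
      rw [← QX_add_right a n (z j + t) y (t' - t)]
      congr 1
      abel
    rw [this]
  set F := S.filter fun y => 2 * hits (fun w => (1 - e) * k ≤ QX a n w y) (fun j => z j + t) < m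
    with hF
  set F' := (S \ F).filter fun y => y + (t' - t) ∈ Bad with hF'
  have hFc : (#F : ℝ) ≤ 4 * (e * #S) := by
    have h1 := htG.2.2
    have h2 : β (fun j => z j + t) = #F := rfl
    rw [h2] at h1
    exact h1
  have hF'c : (#F' : ℝ) ≤ 4 * (e * #S) := by
    have h1 := htG'.2.1
    have h2 : (#F' : ℝ) ≤ α (fun j => z j + t') := by
      have h3 : #F' ≤ #(Bad.filter fun y =>
          m ≤ 2 * hits (fun w => (1 - e) * k ≤ QX a n w y) (fun j => z j + t')) := by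
        refine card_le_card_of_injOn (fun y => y + (t' - t)) ?_ ?_
        · intro y hy
          rw [mem_coe, hF', mem_filter, mem_sdiff, hF, mem_filter] at hy
          rw [mem_coe, mem_filter]
          refine ⟨hy.2, ?_⟩
          rw [← hhits]
          by_contra hcon
          push Not at hcon
          exact hy.1.2 ⟨hy.1.1, hcon⟩
        · intro y _ y' _ h
          exact add_right_cancel h
      show (#F' : ℝ) ≤ (#(Bad.filter fun y =>
        m ≤ 2 * hits (fun w => (1 - e) * k ≤ QX a n w y) (fun j => z j + t')) : ℝ)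
      exact_mod_cast h3
    linarith
  set R := (S \ F) \ F' with hR
  have hRS : R ⊆ S := sdiff_subset.trans sdiff_subset
  have hRc : (1 - 8 * e) * (#S : ℝ) ≤ #R := by
    have h1 : #F ≤ #S := card_le_card (filter_subset _ _)
    have h2 : #(S \ F) = #S - #F := card_sdiff_of_subset (filter_subset _ _)
    have h3 : #F' ≤ #(S \ F) := card_le_card (filter_subset _ _)
    have h4 : #R = #(S \ F) - #F' := card_sdiff_of_subset (filter_subset _ _)
    have h5 : (#R : ℝ) = #S - #F - #F' := by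
      rw [h4, Nat.cast_sub h3, h2, Nat.cast_sub h1]
    rw [h5]; linarith
  have hRK : ∀ y ∈ R, (1 - 4 * e) * k ≤ QK a n S {y + (t' - t)} := by
    intro y hy
    rw [hR, mem_sdiff] at hy
    by_contra hcon
    push Not at hcon
    apply hy.2
    rw [hF', mem_filter]
    refine ⟨hy.1, ?_⟩
    rw [hBad, mem_filter]
    exact ⟨hB y (hE.sub (mem_sdiff.1 hy.1).1) t htB t' htB', hcon.le⟩
  have h4e : 0 ≤ 1 - 4 * e := by linarith
  have hfin : (1 - 8 * e) * (#S : ℝ) * ((1 - 4 * e) * k) ≤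
      ∑ y ∈ S, QK a n S {y + (t' - t)} := by
    calc (1 - 8 * e) * (#S : ℝ) * ((1 - 4 * e) * k)
        ≤ #R * ((1 - 4 * e) * k) :=
          mul_le_mul_of_nonneg_right hRc (mul_nonneg h4e hkpos.le)
      _ = ∑ y ∈ R, (1 - 4 * e) * k := by rw [sum_const, nsmul_eq_mul]
      _ ≤ ∑ y ∈ R, QK a n S {y + (t' - t)} := sum_le_sum hRK
      _ ≤ _ := sum_le_sum_of_subset_of_nonneg hRS fun y _ _ => QK_nonneg a n hn _ _
  rw [hsum]
  have h1 := mul_le_mul_of_nonneg_left hfin hSpos.le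
  refine le_trans ?_ h1
  have h2 : 0 ≤ k * (#S : ℝ) ^ 2 := by positivity
  have h3 : 0 ≤ 32 * e ^ 2 * (k * (#S : ℝ) ^ 2) := by positivity
  have h4 : (#S : ℝ) * ((1 - 8 * e) * (#S : ℝ) * ((1 - 4 * e) * k)) =
      (1 - 12 * e) * k * (#S : ℝ) ^ 2 + 32 * e ^ 2 * (k * (#S : ℝ) ^ 2) := by ring
  rw [h4]
  linarith

end R3
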