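import Pool.Agent.MP_0f71ae_nt.R3Q.Loop
import Pool.Agent.MP_0f71ae_nt.R3.KM
import Pool.Agent.MP_0f71ae_nt.R3.Sift2

/-!
# [R3Q] 7: the large increment
-/

set_option linter.unusedSectionVars false

open Finset

namespace R3

variable {G : Type*} [AddCommGroup G] [Fintype G] [DecidableEq G]

theorem qst_log17 : (44 / 100 : ℝ) ≤ Real.log (17 / 10) := by
  rw [Real.le_log_iff_exp_le (by norm_num)]
  have h1 : Real.exp (11 / 100 : ℝ) ≤ 1 / (1 - 11 / 100) := by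
    have h := Real.one_sub_le_exp_neg (11 / 100 : ℝ)
    rw [Real.exp_neg] at h
    have hp := Real.exp_pos (11 / 100 : ℝ)
    rw [le_div_iff₀ (by norm_num)]
    calc Real.exp (11 / 100) * (1 - 11 / 100) ≤
        Real.exp (11 / 100) * (Real.exp (11 / 100))⁻¹ := by gcongr
      _ = 1 := mul_inv_cancel₀ hp.ne'
  have h2 : Real.exp (44 / 100 : ℝ) = Real.exp (11 / 100) ^ 4 := by
    rw [← Real.exp_nat_mul]; norm_num
  rw [h2]
  calc Real.exp (11 / 100 : ℝ) ^ 4 ≤ (1 / (1 - 11 / 100)) ^ 4 := by gcongr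
    _ ≤ 17 / 10 := by norm_num

theorem qst_pow (L : ℝ) (hL : 1 ≤ L) :
    (3 / 10 : ℝ) ^ ⌈Real.log L⌉₊ * L ≤ 1 := by
  have hlog : 0 ≤ Real.log L := Real.log_nonneg hL
  have h1 : (3 / 10 : ℝ) ≤ Real.exp (-1) := by
    rw [Real.exp_neg, le_inv_comm₀ (by norm_num) (Real.exp_pos _)]
    have := Real.exp_one_lt_d9
    linarith
  have h2 : (3 / 10 : ℝ) ^ ⌈Real.log L⌉₊ ≤ Real.exp (-Real.log L) := by
    calc (3 / 10 : ℝ) ^ ⌈Real.log L⌉₊ ≤ Real.exp (-1) ^ ⌈Real.log L⌉₊ := by gcongr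
      _ = Real.exp (-(⌈Real.log L⌉₊ : ℝ)) := by rw [← Real.exp_nat_mul]; ring_nf
      _ ≤ Real.exp (-Real.log L) := by
          apply Real.exp_le_exp.2
          have := Nat.le_ceil (Real.log L)
          linarith
  have h3 : Real.exp (-Real.log L) * L = 1 := by
    rw [Real.exp_neg, Real.exp_log (by linarith)]
    field_simp
  calc (3 / 10 : ℝ) ^ ⌈Real.log L⌉₊ * L ≤ Real.exp (-Real.log L) * L := by gcongr
    _ = 1 := h3

/-- numerics of the parameter `e = 1/(1000 (ll L + 1))` -/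
theorem qst_e {L : ℝ} (hL : 1 ≤ L) {e : ℝ} (he : e = 1 / (1000 * (ll L + 1))) :
    0 < e ∧ e ≤ 1 / 2000 ∧ 1 / (2000 * ll L) ≤ e ∧ 1 / e ^ 8 ≤ 256 * 10 ^ 24 * ll L ^ 8 ∧
      52 * e * (⌈Real.log L⌉₊ : ℝ) ≤ 52 / 1000 := by
  have hl : 1 < ll L := one_lt_ll hL
  have h0 : 0 < e := by rw [he]; positivity
  refine ⟨h0, ?_, ?_, ?_, ?_⟩
  · rw [he]
    apply one_div_le_one_div_of_le (by norm_num)
    linarith
  · rw [he]
    apply one_div_le_one_div_of_le (by positivity)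
    linarith
  · have h1 : 1 / e ≤ 2000 * ll L := by
      rw [he, one_div_one_div]; linarith
    have h2 : 1 / e ^ 8 = (1 / e) ^ 8 := by rw [one_div, one_div, inv_pow]
    rw [h2]
    calc (1 / e) ^ 8 ≤ (2000 * ll L) ^ 8 := by
          have : 0 ≤ 1 / e := by positivity
          gcongr
      _ = 256 * 10 ^ 24 * ll L ^ 8 := by ring
  · have hlog : 0 ≤ Real.log L := Real.log_nonneg hL
    have h1 : (⌈Real.log L⌉₊ : ℝ) ≤ Real.log L + 1 := (Nat.ceil_lt_add_one hlog).le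
    have h2 : Real.log L ≤ ll L := by
      unfold ll
      apply Real.log_le_log (by linarith)
      have := Real.exp_pos 1
      linarith
    have h3 : (⌈Real.log L⌉₊ : ℝ) ≤ ll L + 1 := by linarith
    calc 52 * e * (⌈Real.log L⌉₊ : ℝ) ≤ 52 * e * (ll L + 1) := by gcongr
      _ = 52 / 1000 := by
          rw [he]
          have : ll L + 1 ≠ 0 := by linarith
          field_simp

/-- [R3Q-ST1] the large increment (exponent 1/4) -/
theorem q_step_large (A : Finset G) (Γ : Finset (AddChar G ℂ)) (D L : ℝ) (hL : 1 ≤ L)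
    (hodd : Odd (Fintype.card G))
    (hD : 10 ^ 41 * L ^ 3 * ll L ^ 10 ≤ D) (hΓ : (#Γ : ℝ) ≤ D / 2) (ρ : ℝ) (hρ : 0 < ρ)
    (hρ2 : ρ ≤ 2) (α₀ : ℝ) (hα₀ : Real.exp (1 - L) ≤ α₀)
    (x : G) (A₁ : Finset G) (n σ : ℝ) (hn : 0 < n) (hA₁ : A₁.Nonempty)
    (hxA : ∀ a ∈ A₁, x + a ∈ A) (hdens : (1 - 4 / 1000) * α₀ * n ≤ #A₁)
    (hσ1 : ρ / (10 ^ 17 * D ^ 3) ≤ σ) (hσ2 : σ ≤ ρ)
    (W : Finset G) (hW : (#W : ℝ) ≤ 2 * n)
    (hWs : ∀ y ∈ bohr (G := G) Γ σ, ∀ w, w + y ∈ A₁ → w ∈ W)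
    (p : ℕ) (hp : 1 ≤ p) (hpL : (p : ℝ) ≤ 104 * L)
    (hPhi : ∀ δ, 0 ≤ δ → 2 * δ ≤ σ →
        (9 / 5 : ℝ) ^ p ≤ Phi A₁ n (bohr (half Γ) δ) (bohr (half Γ) δ) p) :
    ∃ (Γ' : Finset (AddChar G ℂ)) (ρ' g : ℝ), 1 / 2000 ≤ g ∧ ρ / D ^ 10 ≤ ρ' ∧ ρ' ≤ 2 ∧
      Reg D Γ' ρ' ∧ Dens A Γ' ρ' (Real.exp g * α₀) ∧
      (#Γ' : ℝ) ≤ #Γ + 10 ^ 40 * g * L ^ 2 * ll L ^ 10 := by
  classical
  have hl : 1 < ll L := one_lt_ll hL
  have hl0 : 0 < ll L := by linarith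
  obtain ⟨e, he⟩ : ∃ e : ℝ, e = 1 / (1000 * (ll L + 1)) := ⟨_, rfl⟩
  obtain ⟨he0, he1, he2, he3, he4⟩ := qst_e hL he
  set s : ℕ := ⌈Real.log L⌉₊ with hs
  -- size of D
  have hl10 : 1 ≤ ll L ^ 10 := one_le_pow₀ hl.le
  have hL3 : 1 ≤ L ^ 3 := one_le_pow₀ hL
  obtain ⟨Q, hQ⟩ : ∃ Q : ℝ, Q = L ^ 3 * ll L ^ 10 := ⟨_, rfl⟩
  have hQ1 : 1 ≤ Q := by rw [hQ]; exact one_le_mul_of_one_le_of_one_le hL3 hl10
  have hDQ : 10 ^ 41 * Q ≤ D := by rw [hQ, ← mul_assoc]; exact hD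
  have hD41 : 10 ^ 41 ≤ D := by linarith
  have hD1 : 1 ≤ D := by linarith
  have hD0 : 0 < D := by linarith
  have hLlQ : L * ll L ≤ Q := by
    rw [hQ]
    have h1 : L ≤ L ^ 3 := by
      calc L = L ^ 1 := (pow_one L).symm
        _ ≤ L ^ 3 := pow_le_pow_right₀ hL (by norm_num)
    have h2 : ll L ≤ ll L ^ 10 := by
      calc ll L = ll L ^ 1 := (pow_one _).symm
        _ ≤ ll L ^ 10 := pow_le_pow_right₀ hl.le (by norm_num)
    exact mul_le_mul h1 h2 hl0.le (by positivity)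
  set Γ₁ := half Γ with hΓ₁
  have hcΓ₁ : (#Γ₁ : ℝ) ≤ #Γ := by exact_mod_cast card_half_le Γ
  have hcΓ₁' : (#Γ₁ : ℝ) ≤ D := by linarith
  have hσ0 : 0 < σ := lt_of_lt_of_le (by positivity) hσ1
  -- the radius ρ₃
  obtain ⟨ρ₃, h3a, h3b, h3c⟩ := bohr_growth (G := G) Γ₁ D (1 / 100) hD1 hcΓ₁' (by norm_num)
    (by norm_num) (σ / 8) (by positivity)
  have hρ₃ : 0 < ρ₃ := by linarith
  set κ₃ : ℝ := 1 / 100 / (20 * D) with hκ₃
  have hκ₃0 : 0 < κ₃ := by positivity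
  have hκ₃1 : κ₃ ≤ 1 := by
    rw [hκ₃, div_le_one (by positivity)]; linarith
  set k₁ : ℕ := ⌈100 * L⌉₊ with hk₁
  have hk₁1 : 100 * L ≤ k₁ := Nat.le_ceil _
  have hk₁2 : (k₁ : ℝ) ≤ 101 * L := by
    have := (Nat.ceil_lt_add_one (show 0 ≤ 100 * L by linarith)).le
    rw [← hk₁] at this; linarith
  have hk₁0 : (0 : ℝ) < k₁ := by linarith
  obtain ⟨k, hk⟩ : ∃ k : ℕ, k = (s + 1) * k₁ := ⟨_, rfl⟩
  have hkR : (k : ℝ) = (s + 1) * k₁ := by rw [hk]; push_cast; ring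
  have hkpos : (0 : ℝ) < k := by rw [hkR]; positivity
  have hs1 : (s : ℝ) ≤ ll L + 1 := by
    have hlog : 0 ≤ Real.log L := Real.log_nonneg hL
    have h1 : (⌈Real.log L⌉₊ : ℝ) ≤ Real.log L + 1 := (Nat.ceil_lt_add_one hlog).le
    have h2 : Real.log L ≤ ll L := by
      unfold ll
      apply Real.log_le_log (by linarith)
      have := Real.exp_pos 1
      linarith
    rw [hs]; linarith
  have hsk : (s : ℝ) ≤ k := by
    rw [hkR]
    have h1 : (1 : ℝ) ≤ k₁ := by linarith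
    calc (s : ℝ) ≤ (s + 1) * 1 := by linarith
      _ ≤ (s + 1) * k₁ := by gcongr
  have hkD : (k : ℝ) ≤ D := by
    rw [hkR]
    calc ((s : ℝ) + 1) * k₁ ≤ (3 * ll L) * (101 * L) := by
          apply mul_le_mul _ hk₁2 hk₁0.le (by positivity)
          linarith
      _ = 303 * (L * ll L) := by ring
      _ ≤ 303 * Q := by linarith
      _ ≤ D := by linarith
  obtain ⟨κ, hκ⟩ : ∃ κ : ℝ, κ = κ₃ / k := ⟨_, rfl⟩
  have hκ0 : 0 < κ := by rw [hκ]; positivity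
  have hkκ : (k : ℝ) * κ = κ₃ := by rw [hκ]; field_simp
  -- the radius ρ₄
  obtain ⟨ρ₄, h4a, h4b, h4c⟩ := bohr_growth (G := G) Γ₁ D 1 hD1 hcΓ₁' one_pos le_rfl
    (κ * ρ₃ / 2) (by positivity)
  have hρ₄ : 0 < ρ₄ := lt_of_lt_of_le (by positivity) h4a
  have hρ₄2 : 2 * ρ₄ ≤ κ * ρ₃ := by linarith
  have hρ₄le : ρ₄ ≤ 2 := by
    have hk1' : (1 : ℝ) ≤ k := by
      have : 0 < k := by exact_mod_cast hkpos
      exact_mod_cast this
    have h1 : κ ≤ 1 := by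
      rw [hκ, div_le_one hkpos]; linarith
    have h2 : κ * ρ₃ ≤ 1 * ρ₃ := mul_le_mul_of_nonneg_right h1 hρ₃.le
    linarith
  have hα : Real.exp (-L) * n ≤ #A₁ := by
    have h1 : Real.exp (-L) ≤ (1 - 4 / 1000) * Real.exp (1 - L) := by
      have h2 : Real.exp (1 - L) = Real.exp 1 * Real.exp (-L) := by
        rw [← Real.exp_add]; ring_nf
      have h3 := Real.exp_one_gt_d9
      rw [h2]
      have h4 := Real.exp_pos (-L)
      have h5 : 1 ≤ (1 - 4 / 1000) * Real.exp 1 := by linarith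
      calc Real.exp (-L) = 1 * Real.exp (-L) := (one_mul _).symm
        _ ≤ ((1 - 4 / 1000) * Real.exp 1) * Real.exp (-L) := by gcongr
        _ = (1 - 4 / 1000) * (Real.exp 1 * Real.exp (-L)) := by ring
    calc Real.exp (-L) * n ≤ (1 - 4 / 1000) * Real.exp (1 - L) * n := by gcongr
      _ ≤ (1 - 4 / 1000) * α₀ * n := by gcongr
      _ ≤ #A₁ := hdens
  have hWs' : ∀ y ∈ bohr (G := G) Γ₁ (σ / 2), ∀ w, w + y ∈ A₁ → w ∈ W := by
    intro y hy w hw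
    refine hWs y ?_ w hw
    have h1 := bohr_half_subset hodd Γ _ hy
    exact bohr_mono (by linarith) h1
  -- the start
  obtain ⟨S₀, hS₀, hne, hK17, hHH⟩ := start A₁ n L hn hL hA₁ hα (bohr Γ₁ ρ₃) W
    (bohr_nonempty hρ₃.le) hW (fun y hy w hw => hWs' y (bohr_mono (by linarith) hy) w hw)
    p hp hpL (hPhi ρ₃ hρ₃.le (by linarith))
  have hpsi : 44 / 100 - 85 / 1000 ≤ Psi (ind A₁) n L e (bohr Γ₁ ρ₃) S₀ := by
    unfold Psi
    rw [QK_ind]
    have h1 : 44 / 100 ≤ Real.log (K A₁ n S₀ S₀) :=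
      qst_log17.trans (Real.log_le_log (by norm_num) hK17)
    have h2 : pen L e (HH (bohr Γ₁ ρ₃) S₀) ≤ 85 / 1000 := by
      unfold pen HH
      have h3 : Real.log ((#(bohr Γ₁ ρ₃) : ℝ) / #S₀) / hq L e ≤ 1 / 100 := by
        unfold hq
        have h4 : 0 < 10 ^ 4 * L ^ 2 / e ^ 4 := by positivity
        rw [div_le_iff₀ h4]
        have h5 : 141 * L ^ 2 ≤ 1 / 100 * (10 ^ 4 * L ^ 2 / e ^ 4) := by
          rw [mul_div_assoc', le_div_iff₀ (by positivity)]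
          have h6 : e ^ 4 ≤ (1 / 2000) ^ 4 := by gcongr
          have h7 : 0 < L ^ 2 := by positivity
          calc 141 * L ^ 2 * e ^ 4 ≤ 141 * L ^ 2 * (1 / 2000) ^ 4 := by gcongr
            _ ≤ 1 / 100 * (10 ^ 4 * L ^ 2) := by nlinarith
        exact hHH.trans h5
      have h4 : Real.exp (Real.log ((#(bohr Γ₁ ρ₃) : ℝ) / #S₀) / hq L e) ≤
          Real.exp (1 / 100) := Real.exp_le_exp.2 h3
      have h5 : Real.exp (1 / 100 : ℝ) ≤ 102 / 100 := by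
        have h := Real.one_sub_le_exp_neg (1 / 100 : ℝ)
        rw [Real.exp_neg] at h
        have hp := Real.exp_pos (1 / 100 : ℝ)
        have h6 : Real.exp (1 / 100 : ℝ) * (1 - 1 / 100) ≤ 1 := by
          calc Real.exp (1 / 100) * (1 - 1 / 100) ≤
              Real.exp (1 / 100) * (Real.exp (1 / 100))⁻¹ := by gcongr
            _ = 1 := mul_inv_cancel₀ hp.ne'
        linarith
      linarith
    linarith
  have hkern : Kern (ind A₁) n L := by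
    refine ⟨hn, ?_, hL, ?_⟩
    · rw [mass_ind]; exact_mod_cast hA₁.card_pos
    · intro w
      rw [mass_ind]
      have h1 : ((ind A₁ w : ℕ) : ℝ) ≤ 1 := by
        unfold ind
        split_ifs <;> simp
      have h2 : n ≤ Real.exp L * #A₁ := by
        have h3 : Real.exp L * (Real.exp (-L) * n) ≤ Real.exp L * #A₁ := by gcongr
        rw [← mul_assoc, ← Real.exp_add, add_neg_cancel, Real.exp_zero, one_mul] at h3
        exact h3
      calc n * (ind A₁ w : ℝ) ≤ n * 1 := by gcongr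
        _ ≤ Real.exp L * #A₁ := by linarith
  have hcost : ∀ g : ℝ, 0 ≤ g → 10 ^ 12 * g * L ^ 2 * ll L ^ 2 / e ^ 8 ≤
      256 * 10 ^ 36 * g * L ^ 2 * ll L ^ 10 := by
    intro g hg
    calc 10 ^ 12 * g * L ^ 2 * ll L ^ 2 / e ^ 8 =
        10 ^ 12 * g * L ^ 2 * ll L ^ 2 * (1 / e ^ 8) := by ring
      _ ≤ 10 ^ 12 * g * L ^ 2 * ll L ^ 2 * (256 * 10 ^ 24 * ll L ^ 8) := by gcongr
      _ = 256 * 10 ^ 36 * g * L ^ 2 * ll L ^ 10 := by ring
  have hDΓ : #Γ₁ + 10 ^ 12 * L ^ 3 * ll L ^ 2 / e ^ 8 ≤ D := by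
    have h1 := hcost L (by linarith)
    have h2 : 10 ^ 12 * L ^ 3 * ll L ^ 2 / e ^ 8 = 10 ^ 12 * L * L ^ 2 * ll L ^ 2 / e ^ 8 := by
      ring
    have h3 : 256 * 10 ^ 36 * L * L ^ 2 * ll L ^ 10 = 256 * 10 ^ 36 * Q := by rw [hQ]; ring
    rw [h3] at h1
    rw [h2]
    linarith
  have e0 : (bohr (G := G) Γ₁ ((1 + ((0 : ℕ) : ℝ) * κ) * ρ₃)) = bohr Γ₁ ρ₃ := by
    congr 1; push_cast; ring
  obtain ⟨Γ', ρ', g, hsub, hg, hcard', hρ'1, hρ'2, hreg', hdens'⟩ :=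
    q_loop A₁ hA₁ n Γ₁ D L e hL he0 (by linarith) hDΓ (σ / 2) ρ₃ ρ₄ κ hρ₃ (by linarith) hρ₄
      (by linarith) W hW hWs' k hκ0 (by rw [hkκ]; exact hκ₃1)
      (by
        rw [hkκ]
        refine h3c.trans ?_
        gcongr
        have := Real.add_one_le_exp (1 / 100 : ℝ)
        linarith)
      hρ₄2
      (by
        have e1 : (1 : ℝ) + 1 = 2 := by norm_num
        rw [e1] at h4c
        exact h4c)
      k₁ hk₁1 s (ind A₁) L (3 / 10 + e + 52 * e * s) 0 0 S₀ (mix_ind A₁ Γ₁) le_rfl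
      (by
        rw [zero_add]
        have h1 : (s : ℝ) * ρ₄ ≤ k * (κ * ρ₃) := by
          apply mul_le_mul hsk (by linarith) hρ₄.le hkpos.le
        have h2 : (k : ℝ) * (κ * ρ₃) = κ₃ * ρ₃ := by rw [← mul_assoc, hkκ]
        rw [h2] at h1
        refine h1.trans ?_
        calc κ₃ * ρ₃ ≤ 1 * ρ₃ := by gcongr
          _ = ρ₃ := one_mul _)
      hkern le_rfl (qst_pow L hL) (by rw [e0]; exact hS₀) hne le_rfl
      (by
        rw [e0]
        linarith)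
      (by rw [hk]; omega)
  refine ⟨Γ', ρ', g - 1 / 100, by linarith, ?_, by linarith, hreg', ?_, ?_⟩
  · -- lower bound for the radius
    have e1 : ρ₄ / (10 ^ 9 * D ^ 4) ≤ ρ' := by
      refine le_trans ?_ hρ'1
      have h1 : 1 / D ≤ e := by
        refine le_trans ?_ he2
        apply one_div_le_one_div_of_le (by positivity)
        have : ll L ≤ L * ll L := by nlinarith
        linarith
      calc ρ₄ / (10 ^ 9 * D ^ 4) = ρ₄ * (1 / D) / (10 ^ 9 * D ^ 3) := by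
            field_simp
        _ ≤ ρ₄ * e / (10 ^ 9 * D ^ 3) := by gcongr
    have e2 : ρ₃ / (8000 * D ^ 2) ≤ ρ₄ := by
      refine le_trans ?_ h4a
      have e : κ * ρ₃ / 2 / 2 = ρ₃ / (8000 * D * k) := by
        rw [hκ, hκ₃]; field_simp; norm_num
      rw [e]
      apply div_le_div_of_nonneg_left hρ₃.le (by positivity)
      calc 8000 * D * k ≤ 8000 * D * D := by gcongr
        _ = 8000 * D ^ 2 := by ring
    have e3 : ρ / (16 * 10 ^ 17 * D ^ 3) ≤ ρ₃ := by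
      have : ρ / (16 * 10 ^ 17 * D ^ 3) = ρ / (10 ^ 17 * D ^ 3) / 16 := by
        rw [div_div]; congr 1; ring
      rw [this]; linarith
    calc ρ / D ^ 10 ≤ ρ / (16 * 10 ^ 17 * D ^ 3) / (8000 * D ^ 2) / (10 ^ 9 * D ^ 4) := by
          rw [div_div, div_div]
          apply div_le_div_of_nonneg_left hρ.le (by positivity)
          calc 16 * 10 ^ 17 * D ^ 3 * (8000 * D ^ 2 * (10 ^ 9 * D ^ 4))
              = (16 * 10 ^ 17 * 8000 * 10 ^ 9) * D ^ 9 := by ring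
            _ ≤ D * D ^ 9 := by
                gcongr
                refine le_trans ?_ hD41
                norm_num
            _ = D ^ 10 := by ring
      _ ≤ ρ₃ / (8000 * D ^ 2) / (10 ^ 9 * D ^ 4) := by gcongr
      _ ≤ ρ₄ / (10 ^ 9 * D ^ 4) := by gcongr
      _ ≤ ρ' := e1
  · -- density
    obtain ⟨v, hv⟩ := hdens'
    refine ⟨x + v, ?_⟩
    have h1 : (#((bohr Γ' ρ').filter (fun y => v + y ∈ A₁)) : ℝ) ≤
        #((bohr Γ' ρ').filter (fun y => x + v + y ∈ A)) := by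
      have : (bohr Γ' ρ').filter (fun y => v + y ∈ A₁) ⊆
          (bohr Γ' ρ').filter (fun y => x + v + y ∈ A) := by
        intro y hy
        rw [mem_filter] at hy ⊢
        refine ⟨hy.1, ?_⟩
        rw [add_assoc]
        exact hxA _ hy.2
      exact_mod_cast Finset.card_le_card this
    refine le_trans ?_ (hv.trans h1)
    refine mul_le_mul_of_nonneg_right ?_ (Nat.cast_nonneg _)
    have hα₀pos : 0 < α₀ := lt_of_lt_of_le (Real.exp_pos _) hα₀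
    have h2 : (1 - 4 / 1000) * α₀ ≤ #A₁ / n := by
      rw [le_div_iff₀ hn]; exact hdens
    have h3 : Real.exp g = Real.exp (g - 1 / 100) * Real.exp (1 / 100) := by
      rw [← Real.exp_add]; ring_nf
    have h4 : 1 ≤ Real.exp (1 / 100) * (1 - 4 / 1000) := by
      have := Real.add_one_le_exp (1 / 100 : ℝ)
      linarith
    calc Real.exp (g - 1 / 100) * α₀ = Real.exp (g - 1 / 100) * α₀ * 1 := (mul_one _).symm
      _ ≤ Real.exp (g - 1 / 100) * α₀ * (Real.exp (1 / 100) * (1 - 4 / 1000)) := by gcongr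
      _ = Real.exp g * ((1 - 4 / 1000) * α₀) := by rw [h3]; ring
      _ ≤ Real.exp g * (#A₁ / n) := by gcongr
  · have h1 := hcost g (by linarith)
    have h2 : 256 * 10 ^ 36 * g * L ^ 2 * ll L ^ 10 ≤
        10 ^ 40 * (g - 1 / 100) * L ^ 2 * ll L ^ 10 := by
      have : 256 * 10 ^ 36 * g ≤ 10 ^ 40 * (g - 1 / 100) := by linarith
      gcongr
    linarith

end R3
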