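import Pool.Agent.MP_0f71ae_nt.R3Q.Iter

/-!
# [R3Q] Transfer to the integers
-/

set_option linter.unusedSectionVars false

open Finset

namespace R3

/-- [R3Q-FI1] Transfer: a set `s ⊆ {0,…,N-1}` without three-term progressions maps injectively to
`ZMod (2N+1)`, and the image is free of three-term progressions (`a + c = 2b` in `ZMod (2N+1)` with
`0 ≤ a,b,c < N` implies `a + c = 2b` in `ℕ` since both sides are `< 2N+1`).
Apply `q_card_bound` with `G = ZMod (2N+1)` (card `2N+1`, odd). -/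
theorem q_roth_transfer (N : ℕ) (hN : 1 ≤ N) (L : ℝ) (hL : 1 ≤ L)
    (h : Real.exp (1 - L) * (2 * N + 1) ≤ rothNumberNat N) :
    Real.log (2 * N + 1) ≤ 10 ^ 50 * L ^ 4 * ll L ^ 11 := by
  classical
  obtain ⟨t, ht, hcard, hfree⟩ := rothNumberNat_spec N
  have : NeZero (2 * N + 1) := ⟨by omega⟩
  have hlt : ∀ a ∈ t, a < N := fun a ha => Finset.mem_range.1 (ht ha)
  have hinj : Set.InjOn (fun a : ℕ => (a : ZMod (2 * N + 1))) (t : Set ℕ) := by
    intro a ha b hb hab
    have ha' := hlt a ha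
    have hb' := hlt b hb
    have h1 := (ZMod.natCast_eq_natCast_iff' a b (2 * N + 1)).1 hab
    rwa [Nat.mod_eq_of_lt (by omega), Nat.mod_eq_of_lt (by omega)] at h1
  set A : Finset (ZMod (2 * N + 1)) := t.image fun a : ℕ => (a : ZMod (2 * N + 1)) with hA
  have hAcard : #A = rothNumberNat N := by
    rw [hA, Finset.card_image_of_injOn hinj, hcard]
  have hAfree : ThreeAPFree (A : Set (ZMod (2 * N + 1))) := by
    intro x hx y hy z hz hxyz
    rw [hA, Finset.coe_image] at hx hy hz
    obtain ⟨a, ha, rfl⟩ := hx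
    obtain ⟨b, hb, rfl⟩ := hy
    obtain ⟨c, hc, rfl⟩ := hz
    have ha' := hlt a ha
    have hb' := hlt b hb
    have hc' := hlt c hc
    have h1 : ((a + c : ℕ) : ZMod (2 * N + 1)) = ((b + b : ℕ) : ZMod (2 * N + 1)) := by
      push_cast
      exact hxyz
    have h2 := (ZMod.natCast_eq_natCast_iff' (a + c) (b + b) (2 * N + 1)).1 h1
    rw [Nat.mod_eq_of_lt (by omega), Nat.mod_eq_of_lt (by omega)] at h2
    have h3 : a = b := hfree ha hb hc h2
    rw [h3]
  have hodd : Odd (Fintype.card (ZMod (2 * N + 1))) := by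
    rw [ZMod.card]
    exact ⟨N, rfl⟩
  have hc : ((Fintype.card (ZMod (2 * N + 1)) : ℕ) : ℝ) = 2 * N + 1 := by
    rw [ZMod.card]
    push_cast
    ring
  have := q_card_bound hodd A hAfree L hL (by
    rw [hc, hAcard]
    exact h)
  rwa [hc] at this

end R3
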